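import Mathlib

/-!
Definitions used in the statement. The ground model `W` is the universe we work in, a forcing
notion is a complete Boolean algebra `B`, and a statement about `W^B` is read through its
Boolean truth value.
-/

namespace Pool.Agent.Lib.MP_719972_lc

universe u

/-! ### Reals, and the coding of null and meager subsets of Cantor space -/

/-- The real `x`, read modulo `2` as a point of Cantor space, extends the binary string `s`. -/
def Ext (x : ℕ → ℕ) (s : List Bool) : Prop := ∀ i, (h : i < s.length) → (x i).bodd = s[i]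

/-- The first `n` bits of `x` read modulo `2`. -/
def init (x : ℕ → ℕ) (n : ℕ) : List Bool := List.ofFn fun i : Fin n => (x i).bodd

/-- The binary string coded by `k`. -/
def str (k : ℕ) : List Bool := (Encodable.decode k).getD []

/-- The finite list of binary strings coded by `k`. -/
def strs (k : ℕ) : List (List Bool) := (Encodable.decode k).getD []

/-- `y n` codes a finite union of basic clopen sets of total measure at most `2 ^ (-n)` that
contains `x`. The null set `N_y` consists of the `x` for which this holds for infinitely many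
`n`. -/
def HitN (n : ℕ) (x y : ℕ → ℕ) : Prop :=
  ((strs (y n)).map fun s => (1 / 2 : ℚ) ^ s.length).sum ≤ (1 / 2) ^ n ∧
    ∃ s ∈ strs (y n), Ext x s

/-- `x` extends `s ++ t`, where `s` is the string of the first `n` bits of `x` and `t` is the
string that `y` assigns to `s`. The meager set `M_y` consists of the `x` for which this fails for
all but finitely many `n`. -/
def MatchM (n : ℕ) (x y : ℕ → ℕ) : Prop :=
  Ext x (init x n ++ str (y (Encodable.encode (init x n))))

/-! ### Names for reals and Boolean values -/

/-- A name for an element of `ω ^ ω`: `val n k` is the truth value of `x n = k`. -/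
structure Name (B : Type) [CompleteBooleanAlgebra B] where
  val : ℕ → ℕ → B
  disj : ∀ n k k', k ≠ k' → val n k ⊓ val n k' = ⊥
  total : ∀ n, ⨆ k, val n k = ⊤

variable {B : Type} [CompleteBooleanAlgebra B]

/-- The canonical name of a ground model real. -/
def chk (z : ℕ → ℕ) : Name B where
  val n k := ⨆ _ : z n = k, ⊤
  disj n k k' h := by
    by_cases h1 : z n = k
    · simp [h1, h]
    · simp [h1]
  total n := top_le_iff.1 (le_iSup_of_le (z n) (by simp))

/-- The truth value of an open condition `φ x y`: the join of the values of `x` and `y` having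
given first `n` terms, over all pairs of finite sequences that guarantee `φ`. -/
def opn (φ : (ℕ → ℕ) → (ℕ → ℕ) → Prop) (x y : Name B) : B :=
  ⨆ (n : ℕ) (s : ℕ → ℕ) (t : ℕ → ℕ)
    (_ : ∀ s' t' : ℕ → ℕ, (∀ i < n, s' i = s i ∧ t' i = t i) → φ s' t'),
      ⨅ i < n, x.val i (s i) ⊓ y.val i (t i)

/-- The truth value of: `φ n x y` holds for all but finitely many `n`. -/
def almostAll (φ : ℕ → (ℕ → ℕ) → (ℕ → ℕ) → Prop) (x y : Name B) : B :=
  ⨆ m, ⨅ n ≥ m, opn (φ n) x y

/-- The truth value of: `φ n x y` holds for infinitely many `n`. -/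
def infOften (φ : ℕ → (ℕ → ℕ) → (ℕ → ℕ) → Prop) (x y : Name B) : B :=
  ⨅ m, ⨆ n ≥ m, opn (φ n) x y

/-- The truth value of `x ≤* y`. -/
def leStar (x y : Name B) : B := almostAll (fun n a b => a n ≤ b n) x y

/-- The truth value of `x ≠* y`. -/
def neStar (x y : Name B) : B := almostAll (fun n a b => a n ≠ b n) x y

/-- The truth value of `x ∈ N_y`. -/
def memN (x y : Name B) : B := infOften HitN x y

/-- The truth value of `x ∈ M_y`. -/
def memM (x y : Name B) : B := almostAll (fun n a b => ¬ MatchM n a b) x y

/-- The truth value of `N_x ⊆ N_y`. -/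
def subN (x y : Name B) : B := ⨅ w : Name B, memN w x ⇨ memN w y

/-- The truth value of `M_x ⊆ M_y`. -/
def subM (x y : Name B) : B := ⨅ w : Name B, memM w x ⇨ memM w y

/-- The complete subalgebra generated by the values of `x`. The model `W[x]` is the extension of
`W` by the trace of the generic filter on this subalgebra, so the reals of `W[x]` are given by
the names all of whose values lie in it. -/
inductive Gen (x : Name B) : B → Prop
  | val (n k : ℕ) : Gen x (x.val n k)
  | compl {b : B} : Gen x b → Gen x bᶜ
  | sSup {S : Set B} : (∀ b ∈ S, Gen x b) → Gen x (sSup S)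

/-- The truth value of `x ∈ 𝓑(R)`: some `y ∈ W[x]` has `z R y` for all `z ∈ W`. -/
def nodeB (R : Name B → Name B → B) (x : Name B) : B :=
  ⨆ (y : Name B) (_ : ∀ n k, Gen x (y.val n k)), ⨅ z : ℕ → ℕ, R (chk z) y

/-- The truth value of `x ∈ 𝓓(R)`: some `y ∈ W[x]` has `¬ y R z` for all `z ∈ W`. -/
def nodeD (R : Name B → Name B → B) (x : Name B) : B :=
  ⨆ (y : Name B) (_ : ∀ n k, Gen x (y.val n k)), ⨅ z : ℕ → ℕ, (R y (chk z))ᶜ

/-- The eleven nodes of the extended diagram. -/
inductive Node : Type
  | BsubN | BsubM | Ble | BmemM | DmemM | Dne | Dle | DmemN | BmemN | DsubM | DsubN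

/-- The truth value of: `x` belongs to the node. -/
def Node.val : Node → Name B → B
  | .BsubN => nodeB subN
  | .BsubM => nodeB subM
  | .Ble => nodeB leStar
  | .BmemM => nodeB memM
  | .DmemM => nodeD memM
  | .Dne => nodeD neStar
  | .Dle => nodeD leStar
  | .DmemN => nodeD memN
  | .BmemN => nodeB memN
  | .DsubM => nodeD subM
  | .DsubN => nodeD subN

/-- The known provable inclusions between nodes. -/
inductive Arrow : Node → Node → Prop
  | a1 : Arrow .BsubN .BsubM
  | a2 : Arrow .BsubM .Ble
  | a3 : Arrow .Ble .BmemM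
  | a4 : Arrow .BmemM .DsubM
  | a5 : Arrow .DsubM .DsubN
  | a6 : Arrow .BsubM .DmemM
  | a7 : Arrow .DmemM .Dne
  | a8 : Arrow .Dne .BmemN
  | a9 : Arrow .BmemN .DsubN
  | a10 : Arrow .Dne .Dle
  | a11 : Arrow .Dle .DsubM
  | a12 : Arrow .Ble .Dle
  | a13 : Arrow .BsubN .DmemN
  | a14 : Arrow .DmemN .BmemM

/-! ### Properness -/

/-- `S` is a stationary family of countable subsets of `Λ`: it meets each of the clubs of sets
closed under a function from finite sequences to countable sequences. -/
def IsStationary {Λ : Type u} (S : Set (Set Λ)) : Prop :=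
  (∀ s ∈ S, s.Countable) ∧
    ∀ f : List Λ → ℕ → Λ, ∃ s ∈ S, ∀ l : List Λ, (∀ a ∈ l, a ∈ s) → ∀ n, f l n ∈ s

/-- `B` is proper: every stationary family of countable sets stays stationary. Here `f l n a` is
the truth value of `f l n = a` for a name `f` of a function. -/
def IsProper (B : Type) [CompleteBooleanAlgebra B] : Prop :=
  ∀ (Λ : Type u) (S : Set (Set Λ)), IsStationary S → ∀ f : List Λ → ℕ → Λ → B,
    (∀ l n a a', a ≠ a' → f l n a ⊓ f l n a' = ⊥) → (∀ l n, ⨆ a, f l n a = ⊤) →
      ⨆ s ∈ S, ⨅ (l : List Λ) (_ : ∀ a ∈ l, a ∈ s) (n : ℕ), ⨆ a ∈ s, f l n a = ⊤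

end Pool.Agent.Lib.MP_719972_lc
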