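import Pool.Agent.Lib.MP_719972_lc.Zf

-- part Pool.Agent.Lib.MP_719972_lc.NoCohen
section

/-! The tree forcing adds no Cohen real. -/

namespace Pool.Agent.Lib.MP_719972_lc

open Pool.Agent.Shared.Forcing Set Encodable

theorem cpt {C : Set Ca} (hC : IsClosed C) (φ : ℕ → Ca → Prop)
    (h1 : ∀ l a b, (∀ i < l, b i = a i) → φ l a → φ l b) (h2 : ∀ l a, φ (l + 1) a → φ l a)
    (h3 : ∀ l, ∃ a ∈ C, φ l a) : ∃ a ∈ C, ∀ l, φ l a := by
  have h4 : ∀ l, IsClosed (C ∩ {a | φ l a}) := fun l => hC.inter (isOpen_compl_iff.1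
    (isOpen_iff_forall_mem_open.2 fun a ha => ⟨Set.pi (Iio l) fun i => {a i},
      fun b hb h => ha (h1 l b a (fun i hi => (hb i hi).symm) h),
      isOpen_set_pi (finite_Iio l) fun _ _ => isOpen_discrete _, fun _ _ => rfl⟩))
  obtain ⟨a, ha⟩ := IsCompact.nonempty_iInter_of_sequence_nonempty_isCompact_isClosed _
    (fun l => inter_subset_inter_right C (h2 l)) h3 (h4 0).isCompact h4
  exact ⟨a, (mem_iInter.1 ha 0).1, fun l => (mem_iInter.1 ha l).2⟩

variable (y : Name (RO Z))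

def Fo (T : Z) (b : Ca) (l : ℕ) : Prop := ∀ i < l, ∃ k, T ∈ y.val i k ∧ k.bodd = b i

def Ga (T : Z) (t : List ℕ) (l : ℕ) (a b : Ca) : Prop :=
  ∃ c ≥ l, ∃ u, ∃ hu : u ∈ T.s, t ++ [c] <+: u ∧ Pm u a l ∧ ∃ T' ≤ T.res u hu, Fo y T' b l

variable {y}

theorem Fo.mono {T T' : Z} {b l} (h : Fo y T b l) (h1 : T' ≤ T) : Fo y T' b l :=
  fun i hi => let ⟨k, h2, h3⟩ := h i hi; ⟨k, RO.mono h2 h1, h3⟩

theorem Ga.congr {T t l l' a a' b b'} (h : Ga y T t l a b) (h1 : l' ≤ l) (h2 : ∀ i < l', a' i = a i)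
    (h3 : ∀ i < l', b' i = b i) : Ga y T t l' a' b' :=
  let ⟨c, h4, u, hu, h5, h6, T', h7, h8⟩ := h
  ⟨c, h1.trans h4, u, hu, h5, h6.congr h1 h2, T', h7, fun i hi => h3 i hi ▸ h8 i (hi.trans_le h1)⟩

theorem Ga.agree {T t a b b' l} (h : Ga y T t l a b) (h' : Fo y T b' l) : ∀ i < l, b i = b' i := by
  obtain ⟨c, -, u, hu, -, -, T', h1, h2⟩ := h
  intro i hi
  obtain ⟨k, h3, h4⟩ := h2 i hi
  obtain ⟨k', h5, h6⟩ := h' i hi
  rw [← h4, ← h6, y.func h3 (RO.mono h5 (h1.trans (T.res_le u hu)))]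

def ND (N : Set Ca) : Prop := ∀ s, ∃ t, ∀ b ∈ N, ¬ Ex b (s ++ t)

theorem Ex.of_prefix {x : Ca} {s t : List Bool} (h : Ex x t) (h1 : s <+: t) : Ex x s :=
  fun i hi => (h i (hi.trans_le h1.length_le)).trans (h1.getElem hi).symm

theorem node (y : Name (RO Z)) (T : Z) {u} (hu : u ∈ T.s) : ∃ t ∈ T.s, u <+: t ∧ ∃ K N, Big K ∧
    ND N ∧ (∀ a ∈ K, ∃ b ∈ N, ∀ l, Ga y T t l a b) ∧ ∀ b ∈ N, ∃ a, ∀ l, Ga y T t l a b := by
  obtain ⟨t, h1, h2, h3⟩ := T.big u hu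
  refine ⟨t, h1, h2, ?_⟩
  by_cases h : ∃ q, Big {a | ∀ l, Ga y T t l a q}
  · obtain ⟨q, h⟩ := h
    refine ⟨_, {q}, h, fun s => ⟨[!q s.length], ?_⟩, fun a ha => ⟨q, rfl, ha⟩, ?_⟩
    · rintro _ rfl h4
      simpa using h4 s.length (by simp)
    · rintro _ rfl
      exact h.nonempty
  · obtain ⟨C, h4, h5, h6⟩ := h3.calib _ fun j h' => h ⟨fun i => (str j).getD i false, h'⟩
    refine ⟨_, {b | ∃ a ∈ C, ∀ l, Ga y T t l a b}, h5, fun s => ?_, fun a ha => ?_,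
      fun b ⟨a, _, h7⟩ => ⟨a, h7⟩⟩
    · by_contra! hc
      obtain ⟨a, h7, h8⟩ := cpt h4 (fun l a => Ga y T t l a fun i => s.getD i false)
        (fun l a b h7 h8 => h8.congr le_rfl h7 fun _ _ => rfl)
        (fun l a h7 => h7.congr l.le_succ (fun _ _ => rfl) fun _ _ => rfl) fun l => by
          obtain ⟨b, ⟨a, h7, h8⟩, h9⟩ := hc (List.replicate l false)
          refine ⟨a, h7, (h8 l).congr le_rfl (fun _ _ => rfl) fun i hi => ?_⟩
          rw [h9 i (by simp; omega)]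
          rcases lt_or_ge i s.length with h10 | h10
          · rw [List.getElem_append_left h10, List.getD_eq_getElem]
          · rw [List.getElem_append_right h10, List.getD_eq_default _ _ h10, List.getElem_replicate]
      exact h6 (encode s) a h7 (by rw [str_encode]; exact h8)
    · obtain ⟨b, -, h7⟩ := cpt isClosed_univ (fun l b => Ga y T t l a b)
        (fun l a b h7 h8 => h8.congr le_rfl (fun _ _ => rfl) h7)
        (fun l a h7 => h7.congr l.le_succ (fun _ _ => rfl) fun _ _ => rfl) fun l => by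
          obtain ⟨c, h7, u, h8, h9, h10⟩ := ha.1 l l
          obtain ⟨T', h11, v, h12⟩ := y.decs l (T.res u h8)
          exact ⟨fun i => (v i).bodd, trivial, c, h7, u, h8, h9, h10, T', h11,
            fun i hi => ⟨_, h12 i hi, rfl⟩⟩
      exact ⟨b, ⟨a, ha.2, h7⟩, h7⟩

structure Sc (y : Name (RO Z)) where
  d : Nd
  N : Set Ca
  w : Ca
  l : ℕ
  ρ : List Bool
  nd : ND N
  ga : ∀ a ∈ d.K, ∃ b ∈ N, ∀ l, Ga y d.T d.t l a b
  fo : Fo y d.T w l
  ag : ∀ b ∈ N, ∀ i < l, b i = w i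

theorem Sc.next (T : Z) {u} (hu : u ∈ T.s) (c : ℕ) {w l} (h : Fo y T w l) (s : List Bool) {n : ℕ}
    (g : Fin n → Sc y) : ∃ x : Sc y, x.d.T = T ∧ u <+: x.d.t ∧ x.d.c = c ∧ x.w = w ∧ x.l = l ∧
      (∀ b ∈ x.N, ¬ Ex b (s ++ x.ρ)) ∧ ∀ i, ∀ b ∈ (g i).N, ¬ Ex b (s ++ x.ρ) := by
  obtain ⟨t, h1, h2, K, N, h3, h4, h5, h6⟩ := node y T hu
  obtain ⟨ρ, -, h7⟩ := fin_dense' (fun (i : Option (Fin n)) (ρ : Bs) =>
      ∀ b ∈ (i.elim N fun i => (g i).N : Set Ca), ¬ Ex b (s ++ ρ.s))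
    (fun i a b h7 h8 x hx h9 => h8 x hx (h9.of_prefix ((List.prefix_append_right_inj _).2 h7)))
    (fun i a => by
      obtain ⟨t, ht⟩ : ∃ t, ∀ b ∈ (i.elim N fun i => (g i).N : Set Ca), ¬ Ex b (s ++ a.s ++ t) := by
        cases i
        exacts [h4 _, (g _).nd _]
      exact ⟨⟨a.s ++ t⟩, List.prefix_append _ _, by simpa using ht⟩) ⟨[]⟩
  exact ⟨⟨⟨T, t, K, c, h1, h3⟩, N, w, l, ρ.s, h4, h5, h,
    fun b hb => let ⟨_, ha⟩ := h6 b hb; (ha l).agree h⟩, rfl, h2, rfl, rfl, rfl, h7 none,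
    fun i => h7 (some i)⟩

theorem z_C : Out (RO Z) fun z v => InM v z := out_of_dense (fun z => m_r m_InM z) fun y p => by
  obtain ⟨f, hf⟩ := dc' (α := Sc y) (fun n g x => (∀ b ∈ x.N, ¬ Ex b (str n ++ x.ρ)) ∧
    (∀ i, ∀ b ∈ (g i).N, ¬ Ex b (str n ++ x.ρ)) ∧ (n = 0 → x.d.T ≤ p) ∧
    ∀ m (h : m + 1 = n), Ch (g ⟨m.unpair.1, h ▸ Nat.lt_succ_of_le m.unpair_left_le⟩).d
      (str m.unpair.2.unpair.1) x.d ∧ (g ⟨m, h.le⟩).d.c < x.d.c ∧
        x.w ∈ (g ⟨m.unpair.1, h ▸ Nat.lt_succ_of_le m.unpair_left_le⟩).N ∧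
          ∀ i : Fin n, (str i ++ (g i).ρ).length ≤ x.l) fun n g => by
    cases n with
    | zero =>
      obtain ⟨x, h1, -, -, -, -, h2, h3⟩ := Sc.next p p.nil 0 (w := fun _ => false) (l := 0)
        (fun _ h => by omega) (str 0) g
      exact ⟨x, h2, h3, fun _ => h1.le, fun m h => by omega⟩
    | succ m =>
      let d := g ⟨m.unpair.1, Nat.lt_succ_of_le m.unpair_left_le⟩
      obtain ⟨a, h1, h2⟩ := d.d.pick (str m.unpair.2.unpair.1)
      obtain ⟨b, h3, h4⟩ := d.ga a h1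
      obtain ⟨L, hL⟩ := (finite_range fun i : Fin (m + 1) => (str i ++ (g i).ρ).length).bddAbove
      obtain ⟨c, h5, u, h6, h7, h8, T, h9, h10⟩ :=
        h4 (L + (str m.unpair.2.unpair.1).length + (g ⟨m, m.lt_succ_self⟩).d.c + 1)
      obtain ⟨x, rfl, h11, rfl, rfl, h12, h13, h14⟩ := Sc.next T (Z.mem_of_le h9) c h10 (str (m + 1)) g
      refine ⟨x, h13, h14, fun h => by omega, fun m' h => ?_⟩
      obtain rfl : m' = m := by omega
      exact ⟨⟨h9.trans (Z.res_le _ u h6), h7.trans h11, fun b hb h15 =>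
        (h8.mono h11).congr (by omega) (h2 b hb h15)⟩, by omega, h3,
        fun i => (hL ⟨i, rfl⟩).trans (by omega)⟩
  have h1 := fun m => (hf (m + 1)).2.2.2 m rfl
  have h2 : ∀ j m, ∀ b ∈ (f j).N, ¬ Ex b (str m ++ (f m).ρ) := fun j => by
    induction j using Nat.strong_induction_on with
    | _ j ih =>
      intro m b hb h
      rcases lt_trichotomy j m with h3 | rfl | h3
      · exact (hf m).2.1 ⟨j, h3⟩ b hb h
      · exact (hf j).1 b hb h
      · obtain ⟨j, rfl⟩ := Nat.exists_eq_succ_of_ne_zero (Nat.ne_zero_of_lt h3)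
        exact ih _ (Nat.lt_succ_of_le j.unpair_left_le) m _ (h1 j).2.2.1 fun i hi =>
          ((f (j + 1)).ag b hb i (hi.trans_le ((h1 j).2.2.2 ⟨m, h3⟩))).symm.trans (h i hi)
  obtain ⟨q, h3, h4⟩ := zfusion (fun i => (f i).d) (fun i => (h1 i).1)
    (strictMono_nat_of_lt_succ fun i => (h1 i).2.1)
  refine ⟨q, h3.trans ((hf 0).2.2.1 rfl), fun k => encode (f k).ρ, fun v hv => ⟨0, fun n _ h => ?_⟩⟩
  unfold MatchM at h
  generalize init v n = s at h
  rw [str_encode] at h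
  nth_rw 1 [← str_encode s] at h
  obtain ⟨r, h5, h6⟩ := hv (str (encode s) ++ (f (encode s)).ρ).length
  obtain ⟨i, h7, w, h8, h9⟩ := h4 r h5 (encode s + 1)
  obtain ⟨j, rfl⟩ := Nat.exists_eq_succ_of_ne_zero (Nat.ne_zero_of_lt h7)
  refine h2 _ (encode s) _ (h1 j).2.2.1 fun i hi => ?_
  obtain ⟨k, h10, h11⟩ := (f (j + 1)).fo i (hi.trans_le ((h1 j).2.2.2 ⟨_, h7⟩))
  rw [← h11, ← h i hi, y.func (RO.mono h10 h9) (RO.mono (h6 i hi) h8)]

end Pool.Agent.Lib.MP_719972_lc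
end

-- part Pool.Agent.Lib.MP_719972_lc.Final
section

/-! The product forcing and the separation table. -/

namespace Pool.Agent.Lib.MP_719972_lc

open Pool.Agent.Shared.Forcing Set

universe u

section Nodes

variable {A B : Type} [CompleteBooleanAlgebra A] [CompleteBooleanAlgebra B]
  {e : CompleteLatticeHom A B} {x : Name A}

theorem In.Ble (h : In x Le) : nodeB leStar (x.map e) = ⊤ :=
  h.toB (m_l m_Le) fun z y => by rw [leStar_eq, hv₂_cy m_Le]

theorem In.BmemN (h : In x InN) : nodeB memN (x.map e) = ⊤ :=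
  h.toB (m_l m_InN) fun z y => by rw [memN_eq, hv₂_cy m_InN]

theorem In.DmemM (h : In x fun z v => ¬ InM v z) : nodeD memM (x.map e) = ⊤ :=
  h.toD (fun z => (m_r m_InM z).not) fun z y => by
    rw [memM_eq, hv₂_yc m_InM, hv₁_not (m_r m_InM z)]

theorem In.DmemN (h : In x fun z v => ¬ InN v z) : nodeD memN (x.map e) = ⊤ :=
  h.toD (fun z => (m_r m_InN z).not) fun z y => by
    rw [memN_eq, hv₂_yc m_InN, hv₁_not (m_r m_InN z)]

theorem In.Dne (h : In x fun z v => ¬ Ne v z) : nodeD neStar (x.map e) = ⊤ :=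
  h.toD (fun z => (m_r m_Ne z).not) fun z y => by
    rw [neStar_eq, hv₂_yc m_Ne, hv₁_not (m_r m_Ne z)]

variable (he : Function.Injective e) (x)
include he

theorem Out.Ble (h : Out A fun z v => ¬ Le z v) : nodeB leStar (x.map e) = ⊥ :=
  h.toB he (fun z => (m_l m_Le z).not) (fun z y => by
    rw [leStar_eq, hv₂_cy m_Le, hv₁_not (m_l m_Le z)]) x

theorem Out.BmemM (h : Out A fun z v => ¬ InM z v) : nodeB memM (x.map e) = ⊥ :=
  h.toB he (fun z => (m_l m_InM z).not) (fun z y => by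
    rw [memM_eq, hv₂_cy m_InM, hv₁_not (m_l m_InM z)]) x

theorem Out.BmemN (h : Out A fun z v => ¬ InN z v) : nodeB memN (x.map e) = ⊥ :=
  h.toB he (fun z => (m_l m_InN z).not) (fun z y => by
    rw [memN_eq, hv₂_cy m_InN, hv₁_not (m_l m_InN z)]) x

theorem Out.Dle (h : Out A fun z v => Le v z) : nodeD leStar (x.map e) = ⊥ :=
  h.toD he (m_r m_Le) (fun z y => by rw [leStar_eq, hv₂_yc m_Le]) x

theorem Out.DmemM (h : Out A fun z v => InM v z) : nodeD memM (x.map e) = ⊥ :=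
  h.toD he (m_r m_InM) (fun z y => by rw [memM_eq, hv₂_yc m_InM]) x

theorem Out.DmemN (h : Out A fun z v => InN v z) : nodeD memN (x.map e) = ⊥ :=
  h.toD he (m_r m_InN) (fun z y => by rw [memN_eq, hv₂_yc m_InN]) x

end Nodes

variable {B : Type} [CompleteBooleanAlgebra B]

theorem up {a b : B} (h : a ≤ b) (h' : a = ⊤) : b = ⊤ := top_le_iff.1 (h' ▸ h)

theorem dn {a b : B} (h : a ≤ b) (h' : b = ⊥) : a = ⊥ := le_bot_iff.1 (h' ▸ h)

open Node

/-- Some real lies in all nodes of `I` and in no node of `O`. -/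
def Wit (B : Type) [CompleteBooleanAlgebra B] (I O : List Node) : Prop :=
  ∃ x : Name B, (∀ X ∈ I, X.val x = ⊤) ∧ ∀ Y ∈ O, Y.val x = ⊥

variable {P : Type} [Preorder P]

theorem wit_co (π : Proj P Co) : Wit (RO P) [DmemM, Dne, Dle, DsubM]
    [BmemM, Ble, DmemN, BsubM, BsubN] := by
  have h1 := co_C.DmemM (e := π.emb)
  have h2 := co_IO.Dne (e := π.emb)
  have h3 := out_ED.BmemM coG.name π.emb_inj
  have h4 := dn (R_ED _) h3
  exact ⟨coG.name.map π.emb, by simp [val, h1, h2, up (IO_Unb _) h2, up (C_CM _) h1], by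
    simp [val, h3, h4, out_Dom.Ble coG.name π.emb_inj, dn (H_ED _) h3, dn (A_R _) h4]⟩

theorem wit_um (π : Proj P (SC um)) : Wit (RO P) [BsubM, Ble, BmemM] [DmemN, BsubN] := by
  have h1 : nodeB subM ((scG um).name.map π.emb) = ⊤ := (sc_in um).toB (m_ev um) fun z y =>
    le_iInf fun w => by
      rw [memM_eq, memM_eq]
      exact le_sub_cy m_InM z (m_ev um z) (fun _ _ => um_H) w
  have h2 : nodeB leStar ((scG um).name.map π.emb) = ⊤ := (sc_in um).toB (m_ev um) fun z y => by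
    rw [leStar_eq, hv₂_cy m_Le]
    exact hv₁_mono (m_ev um z) (m_l m_Le z) fun r ⟨m, h⟩ => ⟨m, fun n hn => (h n hn).1⟩
  have h3 := um_R.DmemN (scG um).name π.emb_inj
  exact ⟨(scG um).name.map π.emb, by simp [val, h1, h2, up (H_ED _) h1], by simp [val, h3, dn (A_R _) h3]⟩

theorem wit_loc (π : Proj P (SC loc)) : Wit (RO P) [BsubN] [] := by
  have h1 : nodeB subN ((scG loc).name.map π.emb) = ⊤ := (sc_in loc).toB (m_ev loc) fun z y =>
    le_iInf fun w => by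
      rw [memN_eq, memN_eq]
      exact le_sub_cy m_InN z (m_ev loc z) (fun _ _ => loc_A) w
  exact ⟨_, by simpa [val] using h1, by simp⟩

theorem wit_ra (π : Proj P Ra) : Wit (RO P) [DmemN, BmemM, DsubM, DsubN]
    [BmemN, Dle, Dne, DmemM, BsubM, BsubN, Ble] := by
  have h1 := ra_R.DmemN (e := π.emb)
  have h2 := up (R_ED _) h1
  have h3 := ra_Nul.BmemN raG.name π.emb_inj
  have h4 := ra_Unb.Dle raG.name π.emb_inj
  have h5 := dn (C_Nul _) h3
  exact ⟨raG.name.map π.emb, by simp [val, h1, h2, up (ED_CM _) h2, up (R_CN _) h1], by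
    simp [val, h3, h4, h5, dn (IO_Nul _) h3, dn (H_C _) h5, dn (A_Nul _) h3, dn (Dom_Unb _) h4]⟩

theorem wit_lv (π : Proj P Lv) : Wit (RO P) [Ble, Dle] [BmemN, Dne, DmemM, BsubM, BsubN] := by
  have h1 := lv_Dom.Ble (e := π.emb)
  have h3 := lv_Nul.BmemN lvG.name π.emb_inj
  have h5 := dn (C_Nul _) h3
  exact ⟨lvG.name.map π.emb, by simp [val, h1, up (Dom_Unb _) h1], by
    simp [val, h3, h5, dn (IO_Nul _) h3, dn (H_C _) h5, dn (A_Nul _) h3]⟩

theorem wit_ee (π : Proj P EE) : Wit (RO P) [BmemN, DsubN]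
    [DsubM, Dle, BmemM, BsubM, DmemN, BsubN, DmemM, Dne, Ble] := by
  have h1 := ee_Nul.BmemN (e := π.emb)
  have h2 : nodeD subM (eeG.name.map π.emb) = ⊥ := ee_out.toD π.emb_inj m_um (fun z y =>
    le_iInf fun w => by
      rw [memM_eq, memM_eq]
      exact le_sub_yc m_InM z (m_um z) (fun _ _ h => um_H ⟨0, fun k _ => h k⟩) w) _
  have h3 : nodeD leStar (eeG.name.map π.emb) = ⊥ := ee_out.toD π.emb_inj m_um (fun z y => by
    rw [leStar_eq, hv₂_yc m_Le]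
    exact hv₁_mono (m_um z) (m_r m_Le z) fun r h => ⟨0, fun n _ => (h n).1⟩) _
  have h4 := dn (ED_CM _) h2
  have h5 := dn (R_ED _) h4
  exact ⟨eeG.name.map π.emb, by simp [val, h1, up (Nul_CN _) h1], by
    simp [val, h2, h3, h4, h5, dn (H_ED _) h4, dn (A_R _) h5, dn (C_CM _) h2, dn (IO_Unb _) h3,
      dn (Dom_Unb _) h3]⟩

theorem wit_z (π : Proj P Z) : Wit (RO P) [Dne] [DmemM] :=
  ⟨zG.name.map π.emb, by simpa [val] using z_IO.Dne, by
    simpa [val] using z_C.DmemM zG.name π.emb_inj⟩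

/-- The nodes reachable from a node. -/
def above : Node → List Node
  | BsubN => [BsubN, BsubM, Ble, BmemM, DmemM, Dne, Dle, DmemN, BmemN, DsubM, DsubN]
  | BsubM => [BsubM, Ble, BmemM, DmemM, Dne, Dle, BmemN, DsubM, DsubN]
  | Ble => [Ble, BmemM, Dle, DsubM, DsubN]
  | BmemM => [BmemM, DsubM, DsubN]
  | DmemM => [DmemM, Dne, Dle, BmemN, DsubM, DsubN]
  | Dne => [Dne, Dle, BmemN, DsubM, DsubN]
  | Dle => [Dle, DsubM, DsubN]
  | DmemN => [DmemN, BmemM, DsubM, DsubN]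
  | BmemN => [BmemN, DsubN]
  | DsubM => [DsubM, DsubN]
  | DsubN => [DsubN]

theorem reach (X : Node) : ∀ Y ∈ above X, Relation.ReflTransGen Arrow X Y := by
  have r := @Relation.ReflTransGen.refl _ Arrow
  have t := @Relation.ReflTransGen.tail _ Arrow
  open Arrow in
  cases X <;> simp only [above, List.forall_mem_cons, List.not_mem_nil, false_imp_iff, implies_true]
  · exact ⟨r, t r a1, t (t r a1) a2, t (t r a13) a14, t (t r a1) a6, t (t (t r a1) a6) a7,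
      t (t (t r a1) a2) a12, t r a13, t (t (t (t r a1) a6) a7) a8, t (t (t r a13) a14) a4,
      t (t (t (t r a13) a14) a4) a5, trivial⟩
  · exact ⟨r, t r a2, t (t r a2) a3, t r a6, t (t r a6) a7, t (t r a2) a12, t (t (t r a6) a7) a8,
      t (t (t r a2) a3) a4, t (t (t (t r a2) a3) a4) a5, trivial⟩
  · exact ⟨r, t r a3, t r a12, t (t r a3) a4, t (t (t r a3) a4) a5, trivial⟩
  · exact ⟨r, t r a4, t (t r a4) a5, trivial⟩
  · exact ⟨r, t r a7, t (t r a7) a10, t (t r a7) a8, t (t (t r a7) a10) a11, t (t (t r a7) a8) a9,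
      trivial⟩
  · exact ⟨r, t r a10, t r a8, t (t r a10) a11, t (t r a8) a9, trivial⟩
  · exact ⟨r, t r a11, t (t r a11) a5, trivial⟩
  · exact ⟨r, t r a14, t (t r a14) a4, t (t (t r a14) a4) a5, trivial⟩
  · exact ⟨r, t r a9, trivial⟩
  · exact ⟨r, t r a5, trivial⟩
  · exact ⟨r, trivial⟩

theorem Wit.mem {I O} (h : Wit B I O) {X} (hX : X ∈ I) : ⨆ x : Name B, X.val x = ⊤ :=
  let ⟨x, h1, _⟩ := h; up (le_iSup _ x) (h1 X hX)

theorem Wit.sep {I O} (h : Wit B I O) {X Y} (hX : X ∈ I ∧ Y ∈ O) :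
    ⨆ x : Name B, X.val x ⊓ (Y.val x)ᶜ = ⊤ :=
  let ⟨x, h1, h2⟩ := h
  up (le_iSup (fun x : Name B => X.val x ⊓ (Y.val x)ᶜ) x) (by simp [h1 X hX.1, h2 Y hX.2])

abbrev PP := (((((Z × EE) × Lv) × Co) × SC um) × SC loc) × Ra

theorem good_PP : Good.{u} PP :=
  (((good_core.laver.prod lk_countable).prod lk_sc).prod lk_sc).prod lk_ra

theorem main : ∃ (B : Type) (_ : CompleteBooleanAlgebra B), Nontrivial B ∧ IsProper.{u} B ∧
    (∀ X : Node, ⨆ x : Name B, X.val x = ⊤) ∧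
    ∀ X Y : Node, ¬ Relation.ReflTransGen Arrow X Y →
      ⨆ x : Name B, X.val x ⊓ (Y.val x)ᶜ = ⊤ := by
  open Proj in
  have h1 := wit_co (P := PP) (fst.comp (fst.comp (fst.comp snd)))
  have h2 := wit_um (P := PP) (fst.comp (fst.comp snd))
  have h3 := wit_loc (P := PP) (fst.comp snd)
  have h4 := wit_ra (P := PP) snd
  have h5 := wit_lv (P := PP) (fst.comp (fst.comp (fst.comp (fst.comp snd))))
  have h6 := wit_ee (P := PP) (fst.comp (fst.comp (fst.comp (fst.comp (fst.comp snd)))))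
  have h7 := wit_z (P := PP) (fst.comp (fst.comp (fst.comp (fst.comp (fst.comp fst)))))
  refine ⟨RO PP, inferInstance, ⟨⊤, ⊥, RO.ne_bot_iff.2 ⟨Classical.arbitrary _, RO.mem_top _⟩⟩,
    good_PP.proper, fun X => ?_, fun X Y h => ?_⟩
  · cases X <;> first
      | (refine h1.mem ?_; simp; done) | (refine h2.mem ?_; simp; done) | (refine h3.mem ?_; simp; done)
      | (refine h4.mem ?_; simp; done) | (refine h6.mem ?_; simp; done)
  · have h8 := fun h' => h (reach X Y h')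
    cases X <;> cases Y <;> first
      | (refine (h8 ?_).elim; simp [above]; done)
      | (refine h1.sep ?_; simp; done) | (refine h2.sep ?_; simp; done) | (refine h4.sep ?_; simp; done)
      | (refine h5.sep ?_; simp; done) | (refine h6.sep ?_; simp; done) | (refine h7.sep ?_; simp; done)

end Pool.Agent.Lib.MP_719972_lc
end
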