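import Pool.Agent.Lib.MP_719972_lc.Defs
import Pool.Agent.Shared.Forcing.RO

-- part Pool.Agent.Lib.MP_719972_lc.Hom
section

/-! Truth values of Borel statements about names. -/

namespace Pool.Agent.Lib.MP_719972_lc

open Pool.Agent.Shared.Forcing Set Filter

abbrev R := ℕ → ℕ

theorem exists_chain {P : Type*} [Preorder P] {ι : Type*} [Countable ι] (D : ι → Set P)
    (hD : ∀ i p, ∃ q ∈ D i, q ≤ p) (p : P) :
    ∃ c : ℕ → P, Antitone c ∧ c 0 = p ∧ ∀ i, ∃ n, c n ∈ D i := by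
  cases isEmpty_or_nonempty ι with
  | inl h => exact ⟨fun _ => p, antitone_const, rfl, fun i => isEmptyElim i⟩
  | inr h =>
    obtain ⟨e, he⟩ := exists_surjective_nat ι
    choose f hf1 hf2 using hD
    let c : ℕ → P := fun n => Nat.rec p (fun n q => f (e n) q) n
    refine ⟨c, antitone_nat_of_succ_le fun n => hf2 _ _, rfl, fun i => ?_⟩
    obtain ⟨n, rfl⟩ := he i
    exact ⟨n + 1, hf1 _ _⟩

variable {B : Type} [CompleteBooleanAlgebra B] {ι : Type}

inductive Vl (X : ι → Name B) : ((ι → R) → Prop) → B → Prop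
  | bas (i : ι) (n k : ℕ) : Vl X (fun r => r i n = k) ((X i).val n k)
  | neg {φ b} : Vl X φ b → Vl X (fun r => ¬ φ r) bᶜ
  | sup {φ : ℕ → (ι → R) → Prop} {b : ℕ → B} : (∀ j, Vl X (φ j) (b j)) →
      Vl X (fun r => ∃ j, φ j r) (⨆ j, b j)

theorem Vl.generic {X : ι → Name B} {φ b} (h : Vl X φ b) :
    ∃ 𝒟 : Set (Set {b : B // b ≠ ⊥}), 𝒟.Countable ∧ (∀ D ∈ 𝒟, ∀ p, ∃ q ∈ D, q ≤ p) ∧
      ∀ (c : ℕ → {b : B // b ≠ ⊥}) (r : ι → R), Antitone c → (∀ D ∈ 𝒟, ∃ n, c n ∈ D) →
        (∀ i n, ∃ m, (c m).1 ≤ (X i).val n (r i n)) →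
          (φ r → ∃ n, (c n).1 ≤ b) ∧ (¬ φ r → ∃ n, (c n).1 ≤ bᶜ) := by
  induction h with
  | bas i n k =>
    refine ⟨∅, countable_empty, fun _ h => h.elim, fun c r _ _ h => ⟨fun e => e ▸ h i n,
      fun e => ?_⟩⟩
    obtain ⟨m, hm⟩ := h i n
    exact ⟨m, hm.trans (le_compl_iff_disjoint_right.2 (disjoint_iff.2 ((X i).disj n _ _ e)))⟩
  | neg _ ih =>
    obtain ⟨𝒟, h1, h2, h3⟩ := ih
    exact ⟨𝒟, h1, h2, fun c r h4 h5 h6 => ⟨(h3 c r h4 h5 h6).2, fun h => by
      simpa using (h3 c r h4 h5 h6).1 (not_not.1 h)⟩⟩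
  | @sup φ b _ ih =>
    choose 𝒟 h1 h2 h3 using ih
    refine ⟨insert {d | d.1 ≤ (⨆ j, b j)ᶜ ∨ ∃ j, d.1 ≤ b j} (⋃ j, 𝒟 j),
      (countable_iUnion h1).insert _, ?_, fun c r h4 h5 h6 => ?_⟩
    · rintro D (rfl | hD) p
      · by_cases h : p.1 ⊓ ⨆ j, b j = ⊥
        · exact ⟨p, Or.inl (le_compl_iff_disjoint_right.2 (disjoint_iff.2 h)), le_rfl⟩
        · obtain ⟨j, hj⟩ := exists_inf_ne_bot (inf_le_right : p.1 ⊓ ⨆ j, b j ≤ _) h
          exact ⟨⟨_, hj⟩, Or.inr ⟨j, inf_le_right⟩, (inf_le_left.trans inf_le_left : _ ≤ p.1)⟩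
      · obtain ⟨j, hj⟩ := mem_iUnion.1 hD
        exact h2 j D hj p
    · have h7 := fun j => h3 j c r h4 (fun D hD => h5 D (Or.inr (mem_iUnion.2 ⟨j, hD⟩))) h6
      refine ⟨fun ⟨j, hj⟩ => let ⟨n, hn⟩ := (h7 j).1 hj; ⟨n, hn.trans (le_iSup b j)⟩, fun h => ?_⟩
      obtain ⟨m, h8 | ⟨j, h8⟩⟩ := h5 _ (Or.inl rfl)
      · exact ⟨m, h8⟩
      · obtain ⟨n, hn⟩ := (h7 j).2 fun h' => h ⟨j, h'⟩
        refine absurd (le_bot_iff.1 ?_) (c (max m n)).2
        exact (le_inf (le_trans (show (c (max m n)).1 ≤ (c m).1 from h4 (le_max_left m n)) h8)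
          (le_trans (show (c (max m n)).1 ≤ (c n).1 from h4 (le_max_right m n)) hn)).trans_eq
          inf_compl_eq_bot

variable [Countable ι]

theorem Vl.mono {X : ι → Name B} {φ ψ b b'} (h : Vl X φ b) (h' : Vl X ψ b')
    (e : ∀ r, φ r → ψ r) : b ≤ b' := by
  obtain ⟨𝒟, h1, h2, h3⟩ := h.generic
  obtain ⟨𝒟', h1', h2', h3'⟩ := h'.generic
  by_contra hc
  have h0 : b ⊓ b'ᶜ ≠ ⊥ := fun e => hc (by rwa [← _root_.sdiff_eq, sdiff_eq_bot_iff] at e)
  have := (h1.union h1').to_subtype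
  obtain ⟨c, h4, h5, h6⟩ := exists_chain (ι := (𝒟 ∪ 𝒟' : Set _) ⊕ ι × ℕ)
    (Sum.elim (fun D => D.1) fun t => {d : {b : B // b ≠ ⊥} | ∃ k, d.1 ≤ (X t.1).val t.2 k}) (by
      rintro (⟨D, hD | hD⟩ | ⟨i, n⟩) p
      · exact h2 D hD p
      · exact h2' D hD p
      · obtain ⟨k, hk⟩ := exists_inf_ne_bot (le_top.trans ((X i).total n).ge) p.2
        exact ⟨⟨_, hk⟩, ⟨k, inf_le_right⟩, (inf_le_left : _ ≤ p.1)⟩) ⟨_, h0⟩
  choose m r hr using fun i n => h6 (Sum.inr (i, n))
  have h7 := h3 c r h4 (fun D hD => h6 (Sum.inl ⟨D, Or.inl hD⟩)) fun i n => ⟨_, hr i n⟩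
  have h8 := h3' c r h4 (fun D hD => h6 (Sum.inl ⟨D, Or.inr hD⟩)) fun i n => ⟨_, hr i n⟩
  have h9 : ∀ n, (c n).1 ≤ b ⊓ b'ᶜ := fun n => by
    have := h4 (Nat.zero_le n); rw [h5] at this; exact this
  by_cases h10 : φ r
  · obtain ⟨n, hn⟩ := h8.1 (e r h10)
    exact (c n).2 (le_bot_iff.1 ((le_inf hn ((h9 n).trans inf_le_right)).trans_eq inf_compl_eq_bot))
  · obtain ⟨n, hn⟩ := h7.2 h10
    exact (c n).2 (le_bot_iff.1 ((le_inf ((h9 n).trans inf_le_left) hn).trans_eq inf_compl_eq_bot))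

omit [Countable ι] in
theorem Vl.congr {X : ι → Name B} {φ ψ b} (h : Vl X φ b) (e : ∀ r, φ r ↔ ψ r) : Vl X ψ b := by
  have : φ = ψ := funext fun r => propext (e r)
  exact this ▸ h

omit [Countable ι] in
theorem meas_ind {Q : ((ι → R) → Prop) → Prop} (h0 : Q fun _ => False)
    (h1 : ∀ i n k, Q fun r => r i n = k) (h2 : ∀ φ, Measurable φ → Q φ → Q fun r => ¬ φ r)
    (h3 : ∀ φ : ℕ → (ι → R) → Prop, (∀ j, Measurable (φ j)) → (∀ j, Q (φ j)) →
      Q fun r => ∃ j, φ j r) {φ : (ι → R) → Prop} (h : Measurable φ) : Q φ := by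
  have h4 : ∀ i n k, MeasurableSet {r : ι → R | r i n = k} := fun i n k =>
    measurableSet_setOfPred.2 (by fun_prop)
  have h5 := h.setOf
  let m : MeasurableSpace (ι → R) :=
    { MeasurableSet' := fun s => MeasurableSet s ∧ Q fun r => r ∈ s
      measurableSet_empty := ⟨MeasurableSet.empty, h0⟩
      measurableSet_compl := fun s hs => ⟨hs.1.compl, h2 _ hs.1.mem hs.2⟩
      measurableSet_iUnion := fun f hf => ⟨MeasurableSet.iUnion fun j => (hf j).1, by
        simpa only [mem_iUnion] using h3 _ (fun j => (hf j).1.mem) fun j => (hf j).2⟩ }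
  have : @Measurable _ _ m MeasurableSpace.pi (id : (ι → R) → ι → R) :=
    @measurable_pi_lambda _ _ _ m _ _ fun i => @measurable_pi_lambda _ _ _ m _ _ fun n =>
      @measurable_to_countable' _ _ _ _ m _ fun k => ⟨h4 i n k, h1 i n k⟩
  exact (this h5).2

omit [Countable ι] in
theorem exists_vl [Nonempty ι] (X : ι → Name B) {φ} (h : Measurable φ) : ∃ b, Vl X φ b := by
  refine meas_ind (Q := fun φ => ∃ b, Vl X φ b) ?_ (fun i n k => ⟨_, Vl.bas i n k⟩)
    (fun φ _ ⟨b, hb⟩ => ⟨_, hb.neg⟩) (fun φ _ h => ?_) h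
  · obtain ⟨i⟩ := ‹Nonempty ι›
    exact ⟨_, (Vl.sup fun k => Vl.bas i 0 k).neg.congr fun r => by simp⟩
  · choose b hb using h
    exact ⟨_, Vl.sup hb⟩

/-- The truth value of a Borel statement about the names `X`. -/
noncomputable def hv (X : ι → Name B) (φ : (ι → R) → Prop) : B := sInf {b | Vl X φ b}

theorem Vl.eq {X : ι → Name B} {φ b} (h : Vl X φ b) : hv X φ = b :=
  le_antisymm (sInf_le h) (le_sInf fun _ h' => h.mono h' fun _ => id)

variable [Nonempty ι] {X : ι → Name B}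

theorem vl_hv {φ} (h : Measurable φ) : Vl X φ (hv X φ) :=
  let ⟨_, hb⟩ := exists_vl X h; hb.eq ▸ hb

theorem hv_mono {φ ψ} (h : Measurable φ) (h' : Measurable ψ) (e : ∀ r, φ r → ψ r) :
    hv X φ ≤ hv X ψ := (vl_hv h).mono (vl_hv h') e

omit [Nonempty ι] in
theorem hv_bas (i : ι) (n k : ℕ) : hv X (fun r => r i n = k) = (X i).val n k := (Vl.bas i n k).eq

theorem hv_not {φ} (h : Measurable φ) : hv X (fun r => ¬ φ r) = (hv X φ)ᶜ := (vl_hv h).neg.eq

theorem hv_true : hv X (fun _ => True) = ⊤ := by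
  obtain ⟨i⟩ := ‹Nonempty ι›
  rw [← (X i).total 0]
  exact ((Vl.sup fun k => Vl.bas i 0 k).congr fun r => by simp).eq

theorem hv_false : hv X (fun _ => False) = ⊥ := by
  simpa [hv_true] using hv_not (X := X) (φ := fun _ => True) measurable_const

theorem hv_of_forall {φ} (h : ∀ r, φ r) : hv X φ = ⊤ := by
  rw [show φ = fun _ => True from funext fun r => eq_true (h r), hv_true]

theorem hv_of_not {φ} (h : ∀ r, ¬ φ r) : hv X φ = ⊥ := by
  rw [show φ = fun _ => False from funext fun r => eq_false (h r), hv_false]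

theorem hv_exists {κ : Sort*} [Countable κ] {φ : κ → (ι → R) → Prop} (h : ∀ j, Measurable (φ j)) :
    hv X (fun r => ∃ j, φ j r) = ⨆ j, hv X (φ j) := by
  cases isEmpty_or_nonempty κ with
  | inl _ => simp [hv_false, iSup_of_empty]
  | inr _ =>
    obtain ⟨e, he⟩ := exists_surjective_nat κ
    rw [← he.iSup_comp]
    exact ((Vl.sup fun j => vl_hv (h (e j))).congr fun r => (he.exists (p := fun j => φ j r)).symm).eq

theorem hv_forall {κ : Sort*} [Countable κ] {φ : κ → (ι → R) → Prop} (h : ∀ j, Measurable (φ j)) :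
    hv X (fun r => ∀ j, φ j r) = ⨅ j, hv X (φ j) := by
  have h1 := hv_not (X := X) (φ := fun r => ∃ j, ¬ φ j r) (by fun_prop)
  rw [hv_exists fun j => (h j).not, compl_iSup] at h1
  simpa [hv_not (h _)] using h1

theorem hv_and {φ ψ} (h : Measurable φ) (h' : Measurable ψ) :
    hv X (fun r => φ r ∧ ψ r) = hv X φ ⊓ hv X ψ := by
  simpa [iInf_bool_eq] using hv_forall (X := X) (φ := fun b : Bool => cond b φ ψ)
    (fun b => by cases b <;> assumption) |>.trans iInf_bool_eq |>.symm.trans (by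
      congr 1; funext r; simp [and_comm]) |>.symm

theorem hv_imp {φ ψ} (h : Measurable φ) (h' : Measurable ψ) :
    hv X (fun r => φ r → ψ r) = hv X φ ⇨ hv X ψ := by
  have h1 := hv_not (X := X) (φ := fun r => φ r ∧ ¬ ψ r) (by fun_prop)
  rw [hv_and h h'.not, hv_not h', compl_inf, compl_compl, sup_comm, ← himp_eq] at h1
  simpa using h1

/-- The name of a Borel image of names. -/
noncomputable def mp (X : ι → Name B) (Φ : (ι → R) → R) (h : Measurable Φ) : Name B where
  val n k := hv X fun r => Φ r n = k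
  disj n k k' e := by
    rw [← hv_and (by fun_prop) (by fun_prop)]
    exact hv_of_not fun r h => e (h.1.symm.trans h.2)
  total n := by
    rw [← hv_exists fun k => by fun_prop]
    exact hv_of_forall fun r => ⟨_, rfl⟩

theorem Name.ext' {x y : Name B} (h : ∀ n k, x.val n k = y.val n k) : x = y := by
  cases x; cases y; congr; funext n k; exact h n k

theorem mp_proj (i : ι) : mp X (fun r => r i) (measurable_pi_apply i) = X i :=
  Name.ext' fun n k => hv_bas i n k

theorem mp_const (z : R) : mp X (fun _ => z) measurable_const = chk z := by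
  refine Name.ext' fun n k => ?_
  by_cases h : z n = k
  · simp [mp, chk, h, hv_true]
  · simp [mp, chk, h, hv_false]

theorem hv_comp {κ : Type} [Countable κ] [Nonempty κ] (Φ : κ → (ι → R) → R)
    (h : ∀ j, Measurable (Φ j)) {φ : (κ → R) → Prop} (hφ : Measurable φ) :
    hv (fun j => mp X (Φ j) (h j)) φ = hv X fun r => φ fun j => Φ j r := by
  have hm : Measurable fun (r : ι → R) j => Φ j r := measurable_pi_lambda _ h
  refine meas_ind (Q := fun φ => hv (fun j => mp X (Φ j) (h j)) φ = hv X fun r => φ fun j => Φ j r)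
    (by simp only [hv_false]) (fun i n k => hv_bas i n k) (fun φ h1 h2 => ?_) (fun φ h1 h2 => ?_) hφ
  · rw [hv_not h1, h2]
    exact (hv_not (h1.comp hm)).symm
  · rw [hv_exists h1, iSup_congr h2]
    exact (hv_exists fun j => (h1 j).comp hm).symm

theorem gen_iSup {x : Name B} {κ : Sort*} {f : κ → B} (h : ∀ j, Gen x (f j)) :
    Gen x (⨆ j, f j) := Gen.sSup (by rintro _ ⟨j, rfl⟩; exact h j)

theorem gen_hv {x : Name B} (hX : ∀ i n k, Gen x ((X i).val n k)) {φ} (hφ : Measurable φ) :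
    Gen x (hv X φ) := by
  refine meas_ind (Q := fun φ => Gen x (hv X φ)) ?_ (fun i n k => hv_bas (X := X) i n k ▸ hX i n k)
    (fun φ h1 h2 => hv_not (X := X) h1 ▸ h2.compl)
    (fun φ h1 h2 => hv_exists (X := X) h1 ▸ gen_iSup h2) hφ
  rw [hv_false, ← sSup_empty]
  exact Gen.sSup fun _ h => h.elim

theorem meas₂ {α : Type} [MeasurableSpace α] {φ : R → R → Prop}
    (hφ : Measurable fun p : R × R => φ p.1 p.2) {Φ Ψ : α → R} (h : Measurable Φ)
    (h' : Measurable Ψ) : Measurable fun r => φ (Φ r) (Ψ r) := hφ.comp (h.prodMk h')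

/-- Statements about two names. -/
noncomputable def hv₂ (x y : Name B) (φ : R → R → Prop) : B :=
  hv (fun b : Bool => cond b x y) fun r => φ (r true) (r false)

theorem hv₂_mp {Φ Ψ : (ι → R) → R} (h : Measurable Φ) (h' : Measurable Ψ) {φ : R → R → Prop}
    (hφ : Measurable fun p : R × R => φ p.1 p.2) :
    hv₂ (mp X Φ h) (mp X Ψ h') φ = hv X fun r => φ (Φ r) (Ψ r) := by
  have := hv_comp (X := X) (fun b : Bool => cond b Φ Ψ) (fun b => by cases b <;> assumption)
    (φ := fun r => φ (r true) (r false))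
    (meas₂ hφ (measurable_pi_apply true) (measurable_pi_apply false))
  refine Eq.trans ?_ this
  unfold hv₂
  congr 1
  funext b; cases b <;> rfl

/-- `φ a b` only depends on finitely many terms whenever it holds. -/
def Op (φ : R → R → Prop) : Prop :=
  ∀ a b, φ a b → ∃ n, ∀ s t : R, (∀ i < n, s i = a i ∧ t i = b i) → φ s t

theorem Op.eq {φ : R → R → Prop} (h : Op φ) : φ = fun a b => ∃ (n : ℕ) (s t : Fin n → ℕ),
    (∀ s' t' : R, (∀ i : Fin n, s' i = s i ∧ t' i = t i) → φ s' t') ∧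
      ∀ i : Fin n, a i = s i ∧ b i = t i := by
  funext a b
  refine propext ⟨fun h1 => ?_, fun ⟨n, s, t, h1, h2⟩ => h1 a b h2⟩
  obtain ⟨n, hn⟩ := h a b h1
  exact ⟨n, fun i => a i, fun i => b i, fun s' t' h2 => hn s' t' fun i hi => h2 ⟨i, hi⟩,
    fun _ => ⟨rfl, rfl⟩⟩

theorem Op.meas {φ : R → R → Prop} (h : Op φ) : Measurable fun p : R × R => φ p.1 p.2 := by
  rw [h.eq]; fun_prop

theorem Op.opn {φ : R → R → Prop} (h : Op φ) (x y : Name B) : opn φ x y = hv₂ x y φ := by
  have key : ∀ (n : ℕ) (s t : R), hv₂ x y (fun a b => ∀ i < n, a i = s i ∧ b i = t i) =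
      ⨅ i < n, x.val i (s i) ⊓ y.val i (t i) := by
    intro n s t
    unfold hv₂
    rw [hv_forall fun i => by fun_prop]
    refine iInf_congr fun i => ?_
    rw [hv_forall fun i => by fun_prop]
    refine iInf_congr fun _ => ?_
    rw [hv_and (by fun_prop) (by fun_prop), hv_bas, hv_bas]; rfl
  have hm := meas₂ h.meas (measurable_pi_apply (X := fun _ : Bool => R) true)
    (measurable_pi_apply false)
  apply le_antisymm
  · refine iSup_le fun n => iSup_le fun s => iSup_le fun t => iSup_le fun h1 => ?_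
    rw [← key]
    exact hv_mono (by fun_prop) hm fun r hr => h1 _ _ hr
  · unfold hv₂
    rw [h.eq, hv_exists fun i => by fun_prop]
    refine iSup_le fun n => ?_
    rw [hv_exists fun i => by fun_prop]
    refine iSup_le fun s => ?_
    rw [hv_exists fun i => by fun_prop]
    refine iSup_le fun t => ?_
    by_cases h1 : ∀ s' t' : R, (∀ i : Fin n, s' i = s i ∧ t' i = t i) → φ s' t'
    · refine le_iSup_of_le n (le_iSup_of_le (fun i => if h : i < n then s ⟨i, h⟩ else 0)
        (le_iSup_of_le (fun i => if h : i < n then t ⟨i, h⟩ else 0) (le_iSup_of_le ?_ ?_)))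
      · rw [← h.eq]
        exact fun s' t' h2 => h1 s' t' fun i => by simpa using h2 i i.2
      · rw [← key]
        exact hv_mono (by fun_prop) (by fun_prop) fun r hr i hi => by simpa [hi] using hr.2 ⟨i, hi⟩
    · exact (hv_of_not fun r hr => h1 hr.1).trans_le bot_le

theorem almostAll_eq {φ : ℕ → R → R → Prop} (h : ∀ n, Op (φ n)) (x y : Name B) :
    almostAll φ x y = hv₂ x y fun a b => ∃ m, ∀ n ≥ m, φ n a b := by
  have hm := fun n => meas₂ (h n).meas (measurable_pi_apply (X := fun _ : Bool => R) true)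
    (measurable_pi_apply false)
  unfold almostAll hv₂
  rw [hv_exists fun m => Measurable.forall fun n => Measurable.forall fun _ => hm n]
  refine iSup_congr fun m => ?_
  rw [hv_forall fun n => Measurable.forall fun _ => hm n]
  refine iInf_congr fun n => ?_
  rw [hv_forall fun _ => hm n, (h n).opn]; rfl

theorem infOften_eq {φ : ℕ → R → R → Prop} (h : ∀ n, Op (φ n)) (x y : Name B) :
    infOften φ x y = hv₂ x y fun a b => ∀ m, ∃ n ≥ m, φ n a b := by
  have hm := fun n => meas₂ (h n).meas (measurable_pi_apply (X := fun _ : Bool => R) true)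
    (measurable_pi_apply false)
  unfold infOften hv₂
  simp only [← exists_prop]
  rw [hv_forall fun m => Measurable.exists fun n => Measurable.exists fun _ => hm n]
  refine iInf_congr fun m => ?_
  rw [hv_exists fun n => Measurable.exists fun _ => hm n]
  refine iSup_congr fun n => ?_
  rw [hv_exists fun _ => hm n, (h n).opn]; rfl

end Pool.Agent.Lib.MP_719972_lc
end

-- part Pool.Agent.Lib.MP_719972_lc.Real
section

/-! Null and meager sets coded by reals. -/

namespace Pool.Agent.Lib.MP_719972_lc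

open Set Filter MeasureTheory Encodable
open scoped ENNReal

def Le (x y : R) : Prop := ∃ m, ∀ n ≥ m, x n ≤ y n
def Ne (x y : R) : Prop := ∃ m, ∀ n ≥ m, x n ≠ y n
def InN (x y : R) : Prop := ∀ m, ∃ n ≥ m, HitN n x y
def InM (x y : R) : Prop := ∃ m, ∀ n ≥ m, ¬ MatchM n x y

@[simp] theorem str_encode (s : List Bool) : str (encode s) = s := by simp [str]

@[simp] theorem strs_encode (s : List (List Bool)) : strs (encode s) = s := by simp [strs]

@[simp] theorem length_init (x : R) (n : ℕ) : (init x n).length = n := by simp [init]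

@[simp] theorem init_get (x : R) (n i : ℕ) (h : i < (init x n).length) :
    (init x n)[i] = (x i).bodd := by simp [init]

theorem ext_init (x : R) (n : ℕ) : Ext x (init x n) := fun i h => (init_get x n i h).symm

theorem Ext.init {x : R} {s : List Bool} (h : Ext x s) : init x s.length = s :=
  List.ext_getElem (by simp) fun i _ h2 => by rw [init_get, h i h2]

theorem Ext.of_prefix {x : R} {s t : List Bool} (h : Ext x t) (h1 : s <+: t) : Ext x s :=
  fun i hi => (h i (hi.trans_le h1.length_le)).trans (h1.getElem hi).symm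

theorem Ext.pref {x : R} {s t : List Bool} (h : Ext x s) (h' : Ext x t)
    (h1 : s.length ≤ t.length) : s <+: t := by
  rw [List.prefix_iff_eq_take]
  refine List.ext_getElem (by simp [h1]) fun i h2 _ => ?_
  rw [List.getElem_take, ← h i h2, ← h' i (h2.trans_le h1)]

theorem ext_append {x : R} {s t : List Bool} : Ext x (s ++ t) ↔
    Ext x s ∧ ∀ i, (h : i < t.length) → (x (s.length + i)).bodd = t[i] := by
  refine ⟨fun h => ⟨h.of_prefix (List.prefix_append _ _), fun i hi => ?_⟩, fun h i hi => ?_⟩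
  · rw [h (s.length + i) (by simpa using hi), List.getElem_append_right (by simp)]; simp
  · by_cases h1 : i < s.length
    · rw [List.getElem_append_left h1, h.1 i h1]
    · rw [List.getElem_append_right (not_lt.1 h1), ← h.2 (i - s.length) (by simp at hi; omega)]
      congr 2; omega

theorem Ext.congr {x x' : R} {s : List Bool} (h : Ext x s) (e : ∀ i < s.length, x' i = x i) :
    Ext x' s := fun i hi => (e i hi).symm ▸ h i hi

theorem init_congr {x x' : R} {n : ℕ} (e : ∀ i < n, x' i = x i) : init x' n = init x n := by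
  simpa using (ext_init x n).congr (x' := x') (by simpa using e) |>.init

theorem op_le (n : ℕ) : Op fun a b => a n ≤ b n := fun _ _ h =>
  ⟨n + 1, fun _ _ e => (e n n.lt_succ_self).1.trans_le (h.trans (e n n.lt_succ_self).2.ge)⟩

theorem op_ne (n : ℕ) : Op fun a b => a n ≠ b n := fun _ _ h =>
  ⟨n + 1, fun _ _ e h1 => h ((e n n.lt_succ_self).1.symm.trans (h1.trans (e n n.lt_succ_self).2))⟩

theorem op_hit (n : ℕ) : Op (HitN n) := by
  rintro a b ⟨h1, u, h2, h3⟩
  refine ⟨n + 1 + u.length, fun s t e => ?_⟩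
  unfold HitN
  rw [(e n (by omega)).2]
  exact ⟨h1, u, h2, h3.congr fun i hi => (e i (by omega)).1⟩

theorem match_dep (n : ℕ) (a b : R) : ∃ N, ∀ s t : R, (∀ i < N, s i = a i ∧ t i = b i) →
    (MatchM n s t ↔ MatchM n a b) := by
  refine ⟨n + encode (init a n) + 1 + (str (b (encode (init a n)))).length, fun s t e => ?_⟩
  unfold MatchM
  rw [init_congr (x := a) (x' := s) fun i hi => (e i (by omega)).1, (e _ (by omega)).2]
  exact ⟨fun h => h.congr fun i hi => (e i (by simp at hi; omega)).1.symm,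
    fun h => h.congr fun i hi => (e i (by simp at hi; omega)).1⟩

theorem op_match (n : ℕ) : Op (MatchM n) := fun a b h =>
  let ⟨N, hN⟩ := match_dep n a b; ⟨N, fun s t e => (hN s t e).2 h⟩

theorem op_nmatch (n : ℕ) : Op fun a b => ¬ MatchM n a b := fun a b h =>
  let ⟨N, hN⟩ := match_dep n a b; ⟨N, fun s t e h1 => h ((hN s t e).1 h1)⟩

theorem m_Le : Measurable fun p : R × R => Le p.1 p.2 :=
  Measurable.exists fun _ => Measurable.forall fun n => Measurable.forall fun _ => (op_le n).meas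

theorem m_Ne : Measurable fun p : R × R => Ne p.1 p.2 :=
  Measurable.exists fun _ => Measurable.forall fun n => Measurable.forall fun _ => (op_ne n).meas

theorem m_InN : Measurable fun p : R × R => InN p.1 p.2 :=
  Measurable.forall fun _ => Measurable.exists fun n => measurable_const.and (op_hit n).meas

theorem m_InM : Measurable fun p : R × R => InM p.1 p.2 :=
  Measurable.exists fun _ => Measurable.forall fun n => Measurable.forall fun _ =>
    (op_nmatch n).meas

/-! ### Borel maps -/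

theorem meas_of_dep {α : Type} [MeasurableSpace α] [Countable α] {f : R → α}
    (h : ∀ a, ∃ n, ∀ s : R, (∀ i < n, s i = a i) → f s = f a) : Measurable f := by
  refine measurable_to_countable' fun c => ?_
  have h1 : Op fun a _ => f a = c := fun a _ e =>
    let ⟨n, hn⟩ := h a; ⟨n, fun s _ h2 => (hn s fun i hi => (h2 i hi).1).trans e⟩
  exact (meas₂ (φ := fun a _ => f a = c) h1.meas measurable_id measurable_id).setOf

def cN (w : R) : R := fun n => encode [init w n]

theorem m_cN : Measurable cN := measurable_pi_lambda _ fun n => meas_of_dep fun _ =>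
  ⟨n, fun _ e => by simp only [cN, init_congr e]⟩

theorem hit_cN {x y : R} {n : ℕ} (h : y n = cN x n) : HitN n x y := by
  unfold HitN
  rw [h, cN, strs_encode]
  exact ⟨by simp, _, List.mem_singleton_self _, ext_init _ _⟩

theorem inN_cN (w : R) : InN w (cN w) := fun m => ⟨m, le_rfl, hit_cN rfl⟩

def cM (w : R) : R := fun k => encode [!(w (str k).length).bodd]

theorem m_cM : Measurable cM := measurable_pi_lambda _ fun k => meas_of_dep fun _ =>
  ⟨(str k).length + 1, fun _ e => by simp only [cM, e _ (Nat.lt_succ_self _)]⟩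

theorem inM_cM (w : R) : InM w (cM w) := ⟨0, fun n _ h => by
  unfold MatchM at h
  rw [cM, str_encode, str_encode] at h
  simpa using (ext_append.1 h).2 0 Nat.one_pos⟩

def Agree (n : ℕ) (x w : R) : Prop := ∀ i < n, (x (n + i)).bodd = (w (n + i)).bodd

def seg (w : R) (n : ℕ) : List Bool := init (fun i => w (n + i)) n

def rM (w : R) : R := fun k => encode (seg w (str k).length)

theorem seg_congr {x x' : R} {n : ℕ} (e : ∀ i < 2 * n, x' i = x i) : seg x' n = seg x n :=
  init_congr fun i hi => e _ (by omega)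

theorem m_rM : Measurable rM := measurable_pi_lambda _ fun k => meas_of_dep fun _ =>
  ⟨2 * (str k).length, fun _ e => by simp only [rM, seg_congr e]⟩

theorem match_rM {n : ℕ} {x w : R} : MatchM n x (rM w) ↔ Agree n x w := by
  simp [MatchM, rM, ext_append, ext_init, seg, Agree]

def allS : ℕ → List (List Bool)
  | 0 => [[]]
  | n + 1 => (allS n).map (· ++ [false]) ++ (allS n).map (· ++ [true])

theorem length_allS (n : ℕ) : (allS n).length = 2 ^ n := by
  induction n with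
  | zero => rfl
  | succ n ih => simp [allS, ih, pow_succ]; omega

theorem mem_allS {n : ℕ} : ∀ {s : List Bool}, s ∈ allS n ↔ s.length = n := by
  induction n with
  | zero => simp [allS]
  | succ n ih =>
    intro s
    simp only [allS, List.mem_append, List.mem_map, ih]
    refine ⟨?_, fun h => ?_⟩
    · rintro (⟨t, h, rfl⟩ | ⟨t, h, rfl⟩) <;> simp [h]
    · obtain ⟨t, b, rfl⟩ := List.eq_nil_or_concat' s |>.resolve_left (by rintro rfl; simp at h)
      cases b
      · exact Or.inl ⟨t, by simpa using h, rfl⟩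
      · exact Or.inr ⟨t, by simpa using h, rfl⟩

def rN (x : R) : R := fun n => encode ((allS n).map (· ++ seg x n))

theorem m_rN : Measurable rN := measurable_pi_lambda _ fun n => meas_of_dep fun _ =>
  ⟨2 * n, fun _ e => by simp only [rN, seg_congr e]⟩

theorem hit_rN {n : ℕ} {x w : R} (h : Agree n w x) : HitN n w (rN x) := by
  unfold HitN
  rw [rN, strs_encode]
  refine ⟨?_, init w n ++ seg x n, List.mem_map.2 ⟨_, mem_allS.2 (by simp), rfl⟩, ?_⟩
  · rw [List.map_map, List.map_congr_left (g := fun _ => (1 / 2 : ℚ) ^ (n + n)) fun s hs => by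
      simp [mem_allS.1 hs, seg]]
    simp [length_allS, pow_add]
  · simpa [ext_append, ext_init, seg, Agree] using h

def bit (b : Bool) : ℕ := cond b 1 0

@[simp] theorem bodd_bit (b : Bool) : (bit b).bodd = b := by cases b <;> rfl

/-- The limit of an increasing sequence of binary strings. -/
def lim (σ : ℕ → List Bool) : R := fun i => bit ((σ (i + 1)).getD i false)

theorem ext_lim {σ : ℕ → List Bool} (h1 : ∀ j, σ j <+: σ (j + 1)) (h2 : ∀ j, j ≤ (σ j).length)
    (j : ℕ) : Ext (lim σ) (σ j) := by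
  have h3 : ∀ j k, j ≤ k → σ j <+: σ k := fun j k h =>
    Nat.le_induction List.prefix_rfl (fun k _ ih => ih.trans (h1 k)) k h
  intro i hi
  rw [lim, bodd_bit, List.getD_eq_getElem _ _ (h2 (i + 1))]
  rcases le_total j (i + 1) with h | h
  · exact ((h3 _ _ h).getElem hi).symm
  · exact (h3 _ _ h).getElem _

instance : MeasurableSpace (List Bool) := ⊤

instance : DiscreteMeasurableSpace (List Bool) := ⟨fun _ => trivial⟩

theorem m_lim {σ : R → ℕ → List Bool} (h : ∀ j, Measurable fun y => σ y j) :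
    Measurable fun y => lim (σ y) := measurable_pi_lambda _ fun i =>
  (Measurable.of_discrete (f := fun s : List Bool => bit (s.getD i false))).comp (h (i + 1))

def sM (y : R) : ℕ → List Bool
  | 0 => []
  | j + 1 => sM y j ++ str (y (encode (sM y j))) ++ [false]

def outM (y : R) : R := lim (sM y)

theorem m_outM : Measurable outM := m_lim fun j => by
  induction j with
  | zero => exact measurable_const
  | succ j ih =>
    exact (measurable_from_prod_countable_right (f := fun p : List Bool × R =>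
      p.1 ++ str (p.2 (encode p.1)) ++ [false]) fun s =>
        (Measurable.of_discrete (f := fun k => s ++ str k ++ [false])).comp
          (measurable_pi_apply (encode s))).comp (ih.prodMk measurable_id)

theorem not_inM_outM (y : R) : ¬ InM (outM y) y := by
  have h2 : ∀ j, j ≤ (sM y j).length := fun j => by
    induction j with
    | zero => exact Nat.zero_le _
    | succ j ih => simp [sM]; omega
  have h3 := ext_lim (σ := sM y) (fun j => by simp [sM]) h2
  rintro ⟨m, hm⟩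
  refine hm _ (h2 m) ?_
  unfold MatchM outM
  rw [(h3 m).init]
  exact (h3 (m + 1)).of_prefix (List.prefix_append _ _)

/-! ### The measure -/

noncomputable def coin : Measure ℕ := (2⁻¹ : ℝ≥0∞) • Measure.dirac 0 + (2⁻¹ : ℝ≥0∞) • Measure.dirac 1

instance : IsProbabilityMeasure coin := ⟨by simp [coin, ENNReal.inv_two_add_inv_two]⟩

noncomputable def mu : Measure R := Measure.infinitePi fun _ => coin

instance : IsProbabilityMeasure mu := by unfold mu; infer_instance

theorem m_ext (s : List Bool) : Measurable fun x => Ext x s := by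
  unfold Ext
  exact Measurable.forall fun i => Measurable.forall fun h =>
    (Measurable.of_discrete (f := fun k : ℕ => k.bodd = s[i])).comp (measurable_pi_apply i)

theorem mu_ext (s : List Bool) : mu {x | Ext x s} = 2⁻¹ ^ s.length := by
  have : {x | Ext x s} = Set.pi (Finset.range s.length) fun i => {k : ℕ | k.bodd = s.getD i false} := by
    ext x
    simp only [Ext, mem_ofPred_eq, Set.mem_pi, Finset.coe_range, mem_Iio]
    exact forall_congr' fun i => forall_congr' fun h => by rw [List.getD_eq_getElem _ _ h]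
  rw [this, mu, Measure.infinitePi_pi _ fun _ _ => MeasurableSet.of_discrete,
    Finset.prod_congr rfl (g := fun _ => 2⁻¹) fun i _ => ?_]
  · simp
  · cases s.getD i false <;> simp [coin, Set.indicator]

theorem mu_hit (n : ℕ) (y : R) : mu {x | HitN n x y} ≤ 2⁻¹ ^ n := by
  have key : ∀ l : List (List Bool), mu {x | ∃ s ∈ l, Ext x s} ≤
      ENNReal.ofReal ((l.map fun s => (1 / 2 : ℚ) ^ s.length).sum : ℚ) := by
    intro l
    induction l with
    | nil => simp
    | cons s l ih =>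
      have : {x | ∃ t ∈ s :: l, Ext x t} = {x | Ext x s} ∪ {x | ∃ t ∈ l, Ext x t} := by
        ext x; simp
      rw [this, List.map_cons, List.sum_cons, Rat.cast_add, ENNReal.ofReal_add (by positivity)
        (Rat.cast_nonneg.2 (List.sum_nonneg (by simp)))]
      refine (measure_union_le _ _).trans (add_le_add (le_of_eq ?_) ih)
      rw [mu_ext]; push_cast
      rw [ENNReal.ofReal_pow (by norm_num), one_div, ENNReal.ofReal_inv_of_pos two_pos]; simp
  by_cases h : ((strs (y n)).map fun s => (1 / 2 : ℚ) ^ s.length).sum ≤ (1 / 2) ^ n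
  · refine (measure_mono fun x hx => hx.2).trans ((key _).trans ?_)
    refine (ENNReal.ofReal_le_ofReal (Rat.cast_le.2 h)).trans (le_of_eq ?_)
    push_cast
    rw [ENNReal.ofReal_pow (by norm_num), one_div, ENNReal.ofReal_inv_of_pos two_pos]; simp
  · exact (measure_mono (t := ∅) fun x hx => h hx.1).trans (by simp)

theorem mu_hit_tail (m : ℕ) (y : R) : mu {x | ∃ n ≥ m + 1, HitN n x y} ≤ 2⁻¹ ^ m := by
  have : {x | ∃ n ≥ m + 1, HitN n x y} ⊆ ⋃ k, {x | HitN (k + (m + 1)) x y} := by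
    rintro x ⟨n, h1, h2⟩
    exact mem_iUnion.2 ⟨n - (m + 1), by rwa [Nat.sub_add_cancel h1]⟩
  refine (measure_mono this).trans ((measure_iUnion_le _).trans
    ((ENNReal.tsum_le_tsum fun k => mu_hit _ y).trans (le_of_eq ?_)))
  simp only [pow_add, ENNReal.tsum_mul_right, ENNReal.tsum_geometric_two]
  rw [pow_one, mul_comm (_ ^ m), ← mul_assoc, ENNReal.mul_inv_cancel (by simp) (by simp), one_mul]

theorem mu_inN (y : R) : mu {x | InN x y} = 0 :=
  le_antisymm (ge_of_tendsto' (ENNReal.tendsto_pow_atTop_nhds_zero_of_lt_one (r := 2⁻¹) (by simp))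
    fun m => le_trans (measure_mono fun _ hx => hx (m + 1)) (mu_hit_tail m y)) zero_le

noncomputable def dec (q : Prop) : Bool := @decide q (Classical.propDecidable q)

theorem dec_true {q : Prop} (h : q) : dec q = true := by simp [dec, h]

theorem dec_false {q : Prop} (h : ¬ q) : dec q = false := by simp [dec, h]

noncomputable def sN (y : R) : ℕ → List Bool
  | 0 => []
  | j + 1 => sN y j ++ [dec (mu {x | (∀ n ≥ 2, ¬ HitN n x y) ∧ Ext x (sN y j ++ [false])} = 0)]

noncomputable def outN (y : R) : R := lim (sN y)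

theorem m_outN : Measurable outN := m_lim fun j => by
  induction j with
  | zero => exact measurable_const
  | succ j ih =>
    refine (measurable_from_prod_countable_right (f := fun p : List Bool × R =>
      p.1 ++ [dec (mu {x | (∀ n ≥ 2, ¬ HitN n x p.2) ∧ Ext x (p.1 ++ [false])} = 0)])
        fun s => ?_).comp (ih.prodMk measurable_id)
    have h1 : MeasurableSet {p : R × R | (∀ n ≥ 2, ¬ HitN n p.2 p.1) ∧ Ext p.2 (s ++ [false])} :=
      ((Measurable.forall fun n => Measurable.forall fun _ =>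
        (meas₂ (op_hit n).meas measurable_snd measurable_fst).not).and
          ((m_ext _).comp measurable_snd)).setOf
    have h2 := measurable_measure_prodMk_left (ν := mu) h1
    have h3 : Measurable fun y : R =>
        mu {x | (∀ n ≥ 2, ¬ HitN n x y) ∧ Ext x (s ++ [false])} = 0 :=
      measurableSet_setOfPred.1 (h2 (measurableSet_singleton 0))
    exact (Measurable.of_discrete (f := fun q : Prop => s ++ [dec q])).comp h3

theorem not_inN_outN (y : R) : ¬ InN (outN y) y := by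
  have h2 : ∀ j, (sN y j).length = j := fun j => by
    induction j with
    | zero => rfl
    | succ j ih => simp [sN, ih]
  have h3 := ext_lim (σ := sN y) (fun j => by simp [sN]) fun j => (h2 j).ge
  have h4 : ∀ j, mu {x | (∀ n ≥ 2, ¬ HitN n x y) ∧ Ext x (sN y j)} ≠ 0 := by
    intro j
    induction j with
    | zero =>
      intro h
      have h5 := (measure_union_le (μ := mu) _ _).trans (add_le_add h.le (mu_hit_tail 1 y))
      rw [show {x | (∀ n ≥ 2, ¬ HitN n x y) ∧ Ext x (sN y 0)} ∪ {x | ∃ n ≥ 1 + 1, HitN n x y} =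
        univ from eq_univ_of_forall fun x => by
          by_cases h : ∃ n ≥ 1 + 1, HitN n x y
          · exact Or.inr h
          · exact Or.inl ⟨fun n h1 h2 => h ⟨n, h1, h2⟩, fun i hi => by simp [sN] at hi⟩] at h5
      simp at h5
    | succ j ih =>
      intro h
      by_cases h5 : mu {x | (∀ n ≥ 2, ¬ HitN n x y) ∧ Ext x (sN y j ++ [false])} = 0
      · rw [sN, dec_true h5] at h
        refine ih (measure_mono_null (fun x hx => ?_) (measure_union_null h5 h))
        cases h6 : (x (sN y j).length).bodd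
        · exact Or.inl ⟨hx.1, ext_append.2 ⟨hx.2, by simpa using h6⟩⟩
        · exact Or.inr ⟨hx.1, ext_append.2 ⟨hx.2, by simpa using h6⟩⟩
      · rw [sN, dec_false h5] at h
        exact h5 h
  intro h
  obtain ⟨n, h5, h6, s, h7, h8⟩ := h 2
  refine h4 s.length (measure_mono_null (t := ∅) (fun x hx => hx.1 n h5 ⟨h6, s, h7, ?_⟩) (by simp))
  exact hx.2.of_prefix (h8.pref (h3 _) (h2 _).ge)

end Pool.Agent.Lib.MP_719972_lc
end

-- part Pool.Agent.Lib.MP_719972_lc.Arrows
section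

/-! Inclusions between nodes. -/

namespace Pool.Agent.Lib.MP_719972_lc

open Set Filter

variable {B : Type} [CompleteBooleanAlgebra B]

theorem leStar_eq (x y : Name B) : leStar x y = hv₂ x y Le := almostAll_eq op_le x y
theorem neStar_eq (x y : Name B) : neStar x y = hv₂ x y Ne := almostAll_eq op_ne x y
theorem memN_eq (x y : Name B) : memN x y = hv₂ x y InN := infOften_eq op_hit x y
theorem memM_eq (x y : Name B) : memM x y = hv₂ x y InM := almostAll_eq op_nmatch x y

noncomputable def hv₁ (y : Name B) (φ : R → Prop) : B := hv (fun _ : Unit => y) fun r => φ (r ())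

noncomputable def mp₁ (y : Name B) (Φ : R → R) (h : Measurable Φ) : Name B :=
  mp (fun _ : Unit => y) (fun r => Φ (r ())) (h.comp (measurable_pi_apply _))

theorem hv₁_eq {ι : Type} [Countable ι] [Nonempty ι] (X : ι → Name B) (i : ι) {φ : R → Prop}
    (h : Measurable φ) : hv₁ (X i) φ = hv X fun r => φ (r i) := by
  have := hv_comp (X := X) (fun (_ : Unit) r => r i) (fun _ => measurable_pi_apply i)
    (φ := fun r => φ (r ())) (h.comp (measurable_pi_apply _))
  rwa [mp_proj] at this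

theorem hv₁_mono {y : Name B} {φ ψ : R → Prop} (h : Measurable φ) (h' : Measurable ψ)
    (e : ∀ r, φ r → ψ r) : hv₁ y φ ≤ hv₁ y ψ :=
  hv_mono (h.comp (measurable_pi_apply _)) (h'.comp (measurable_pi_apply _)) fun _ => e _

theorem hv₁_not {y : Name B} {φ : R → Prop} (h : Measurable φ) :
    hv₁ y (fun r => ¬ φ r) = (hv₁ y φ)ᶜ := hv_not (h.comp (measurable_pi_apply _))

theorem hv₁_of_forall {y : Name B} {φ : R → Prop} (h : ∀ r, φ r) : hv₁ y φ = ⊤ :=
  hv_of_forall fun _ => h _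

theorem hv₁_of_not {y : Name B} {φ : R → Prop} (h : ∀ r, ¬ φ r) : hv₁ y φ = ⊥ :=
  hv_of_not fun _ => h _

section Two

variable {y : Name B} {φ : R → R → Prop} (hφ : Measurable fun p : R × R => φ p.1 p.2)
  {Φ : R → R} (h : Measurable Φ) (z : R)
include hφ

theorem hv₂_cy : hv₂ (chk z) y φ = hv₁ y fun r => φ z r := by
  have := hv₂_mp (X := fun _ : Unit => y) (measurable_const (a := z)) (measurable_pi_apply ()) hφ
  rwa [mp_const, mp_proj] at this

theorem hv₂_yc : hv₂ y (chk z) φ = hv₁ y fun r => φ r z := by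
  have := hv₂_mp (X := fun _ : Unit => y) (measurable_pi_apply ()) (measurable_const (a := z)) hφ
  rwa [mp_const, mp_proj] at this

theorem hv₂_cm : hv₂ (chk z) (mp₁ y Φ h) φ = hv₁ y fun r => φ z (Φ r) := by
  have := hv₂_mp (X := fun _ : Unit => y) (measurable_const (a := z))
    (h.comp (measurable_pi_apply ())) hφ
  rwa [mp_const] at this

theorem hv₂_mc : hv₂ (mp₁ y Φ h) (chk z) φ = hv₁ y fun r => φ (Φ r) z := by
  have := hv₂_mp (X := fun _ : Unit => y) (h.comp (measurable_pi_apply ()))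
    (measurable_const (a := z)) hφ
  rwa [mp_const] at this

theorem hv₂_my : hv₂ (mp₁ y Φ h) y φ = hv₁ y fun r => φ (Φ r) r := by
  have := hv₂_mp (X := fun _ : Unit => y) (h.comp (measurable_pi_apply ()))
    (measurable_pi_apply ()) hφ
  rwa [mp_proj] at this

theorem hv₂_ym : hv₂ y (mp₁ y Φ h) φ = hv₁ y fun r => φ r (Φ r) := by
  have := hv₂_mp (X := fun _ : Unit => y) (measurable_pi_apply ())
    (h.comp (measurable_pi_apply ())) hφ
  rwa [mp_proj] at this

theorem hv₂_cc (w : R) : hv₂ (chk z : Name B) (chk w) φ = hv₁ (chk z) fun _ => φ z w := by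
  have := hv₂_mp (X := fun _ : Unit => (chk z : Name B)) (measurable_const (a := z))
    (measurable_const (a := w)) hφ
  rwa [mp_const, mp_const] at this

theorem m_l : Measurable fun r => φ z r := meas₂ hφ measurable_const measurable_id

theorem m_r : Measurable fun r => φ r z := meas₂ hφ measurable_id measurable_const

theorem le_sub_cy {ψ : R → Prop} (hψ : Measurable ψ) (H : ∀ w r, ψ r → φ w z → φ w r)
    (w : Name B) : hv₁ y ψ ≤ hv₂ w (chk z) φ ⇨ hv₂ w y φ := by
  have h1 := hv₁_eq (fun b : Bool => cond b w y) false hψ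
  have h2 := hv₁_eq (fun b : Bool => cond b w y) true (m_r hφ z)
  have h3 := meas₂ hφ (measurable_pi_apply (X := fun _ : Bool => R) true) (measurable_pi_apply false)
  have h4 := (m_r hφ z).comp (measurable_pi_apply (X := fun _ : Bool => R) true)
  rw [hv₂_yc hφ]
  refine h1.trans_le (le_trans (hv_mono (hψ.comp (measurable_pi_apply _)) (h4.imp h3)
    fun r => H _ _) ((hv_imp h4 h3).trans_le (himp_le_himp h2.le le_rfl)))

theorem le_sub_yc {ψ : R → Prop} (hψ : Measurable ψ) (H : ∀ w r, ψ r → φ w r → φ w z)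
    (w : Name B) : hv₁ y ψ ≤ hv₂ w y φ ⇨ hv₂ w (chk z) φ := by
  have h1 := hv₁_eq (fun b : Bool => cond b w y) false hψ
  have h2 := hv₁_eq (fun b : Bool => cond b w y) true (m_r hφ z)
  have h3 := meas₂ hφ (measurable_pi_apply (X := fun _ : Bool => R) true) (measurable_pi_apply false)
  have h4 := (m_r hφ z).comp (measurable_pi_apply (X := fun _ : Bool => R) true)
  rw [hv₂_yc hφ]
  refine h1.trans_le (le_trans (hv_mono (hψ.comp (measurable_pi_apply _)) (h3.imp h4)
    fun r => H _ _) ((hv_imp h3 h4).trans_le (himp_le_himp le_rfl h2.ge)))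

end Two

def GenN (x y : Name B) : Prop := ∀ n k, Gen x (y.val n k)

theorem GenN.refl (x : Name B) : GenN x x := Gen.val

theorem GenN.mp₁ {x y : Name B} (hy : GenN x y) {Φ : R → R} (h : Measurable Φ) :
    GenN x (mp₁ y Φ h) := fun n k => gen_hv (fun _ => hy) (by fun_prop)

theorem le_nodeB {R : Name B → Name B → B} {x y : Name B} {b : B} (hy : GenN x y)
    (h : ∀ z, b ≤ R (chk z) y) : b ≤ nodeB R x := le_iSup₂_of_le y hy (le_iInf h)

theorem le_nodeD {R : Name B → Name B → B} {x y : Name B} {b : B} (hy : GenN x y)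
    (h : ∀ z, b ≤ (R y (chk z))ᶜ) : b ≤ nodeD R x := le_iSup₂_of_le y hy (le_iInf h)

theorem subN_le (a b w : Name B) : subN a b ≤ memN w a ⇨ memN w b := iInf_le _ w

theorem subM_le (a b w : Name B) : subM a b ≤ memM w a ⇨ memM w b := iInf_le _ w

variable (x : Name B)

theorem A_R : nodeB subN x ≤ nodeD memN x := iSup₂_le fun y hy =>
  le_nodeD (GenN.mp₁ hy m_outN) fun z => (iInf_le _ z).trans ((subN_le _ _ _).trans (by
    rw [memN_eq _ y, hv₂_my m_InN, hv₁_of_not not_inN_outN, himp_bot]))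

theorem A_Nul : nodeB subN x ≤ nodeB memN x := iSup₂_le fun y hy =>
  le_nodeB hy fun z => (iInf_le _ (cN z)).trans ((subN_le _ _ (chk z)).trans (by
    rw [memN_eq _ (chk _), hv₂_cc m_InN, hv₁_of_forall fun _ => inN_cN z, top_himp]))

theorem H_ED : nodeB subM x ≤ nodeB memM x := iSup₂_le fun y hy =>
  le_nodeB hy fun z => (iInf_le _ (cM z)).trans ((subM_le _ _ (chk z)).trans (by
    rw [memM_eq _ (chk _), hv₂_cc m_InM, hv₁_of_forall fun _ => inM_cM z, top_himp]))

theorem H_C : nodeB subM x ≤ nodeD memM x := iSup₂_le fun y hy =>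
  le_nodeD (GenN.mp₁ hy m_outM) fun z => (iInf_le _ z).trans ((subM_le _ _ _).trans (by
    rw [memM_eq _ y, hv₂_my m_InM, hv₁_of_not not_inM_outM, himp_bot]))

theorem C_Nul : nodeD memM x ≤ nodeB memN x := iSup₂_le fun y hy =>
  le_nodeB (GenN.mp₁ hy m_rN) fun z => (iInf_le _ (rM z)).trans (by
    rw [memM_eq, memN_eq, hv₂_yc m_InM, hv₂_cm m_InN, ← hv₁_not (m_r m_InM _)]
    refine hv₁_mono (m_r m_InM _).not (meas₂ m_InN measurable_const m_rN) fun r h m => ?_
    by_contra hc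
    exact h ⟨m, fun n h1 h2 => hc ⟨n, h1, hit_rN fun i hi => (match_rM.1 h2 i hi).symm⟩⟩)

theorem IO_Nul : nodeD neStar x ≤ nodeB memN x := iSup₂_le fun y hy =>
  le_nodeB hy fun z => (iInf_le _ (cN z)).trans (by
    rw [neStar_eq, memN_eq, hv₂_yc m_Ne, hv₂_cy m_InN, ← hv₁_not (m_r m_Ne _)]
    refine hv₁_mono (m_r m_Ne _).not (m_l m_InN _) fun r h m => ?_
    by_contra hc
    exact h ⟨m, fun n h1 h2 => hc ⟨n, h1, hit_cN h2⟩⟩)

theorem IO_Unb : nodeD neStar x ≤ nodeD leStar x := iSup₂_le fun y hy =>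
  le_nodeD hy fun z => (iInf_le _ fun n => z n + 1).trans (compl_le_compl (by
    rw [neStar_eq, leStar_eq, hv₂_yc m_Ne, hv₂_yc m_Le]
    exact hv₁_mono (m_r m_Le _) (m_r m_Ne _) fun r ⟨m, h⟩ =>
      ⟨m, fun n h1 => (Nat.lt_succ_of_le (h n h1)).ne⟩))

theorem Dom_Unb : nodeB leStar x ≤ nodeD leStar x := iSup₂_le fun y hy =>
  le_nodeD hy fun z => (iInf_le _ fun n => z n + 1).trans (by
    rw [leStar_eq, leStar_eq, hv₂_yc m_Le, hv₂_cy m_Le, ← hv₁_not (m_r m_Le _)]
    refine hv₁_mono (m_l m_Le _) (m_r m_Le _).not fun r ⟨m, h⟩ ⟨m', h'⟩ => ?_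
    exact absurd ((h _ (le_max_left m m')).trans (h' _ (le_max_right m m'))) (by simp))

theorem R_ED : nodeD memN x ≤ nodeB memM x := iSup₂_le fun y hy =>
  le_nodeB (GenN.mp₁ hy m_rM) fun z => (iInf_le _ (rN z)).trans (by
    rw [memM_eq, memN_eq, hv₂_yc m_InN, hv₂_cm m_InM, ← hv₁_not (m_r m_InN _)]
    refine hv₁_mono (m_r m_InN _).not (meas₂ m_InM measurable_const m_rM) fun r h => ?_
    by_contra hc
    refine h fun m => ?_
    by_contra hc'
    exact hc ⟨m, fun n h1 h2 => hc' ⟨n, h1, hit_rN fun i hi => (match_rM.1 h2 i hi).symm⟩⟩)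

theorem ED_CM : nodeB memM x ≤ nodeD subM x := iSup₂_le fun y hy =>
  le_nodeD hy fun z => (iInf_le _ (outM z)).trans (le_compl_comm.1 ((subM_le _ _ _).trans (by
    rw [memM_eq _ (chk _), hv₂_cc m_InM, hv₁_of_not fun _ => not_inM_outM z, himp_bot])))

theorem C_CM : nodeD memM x ≤ nodeD subM x := iSup₂_le fun y hy =>
  le_nodeD (GenN.mp₁ hy m_cM) fun z => (iInf_le _ z).trans (compl_le_compl ((subM_le _ _ y).trans
    (by rw [memM_eq y (mp₁ _ _ _), hv₂_ym m_InM, hv₁_of_forall inM_cM, top_himp])))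

theorem Nul_CN : nodeB memN x ≤ nodeD subN x := iSup₂_le fun y hy =>
  le_nodeD hy fun z => (iInf_le _ (outN z)).trans (le_compl_comm.1 ((subN_le _ _ _).trans (by
    rw [memN_eq _ (chk _), hv₂_cc m_InN, hv₁_of_not fun _ => not_inN_outN z, himp_bot])))

theorem R_CN : nodeD memN x ≤ nodeD subN x := iSup₂_le fun y hy =>
  le_nodeD (GenN.mp₁ hy m_cN) fun z => (iInf_le _ z).trans (compl_le_compl ((subN_le _ _ y).trans
    (by rw [memN_eq y (mp₁ _ _ _), hv₂_ym m_InN, hv₁_of_forall inN_cN, top_himp])))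

end Pool.Agent.Lib.MP_719972_lc
end

-- part Pool.Agent.Lib.MP_719972_lc.Iface
section

/-! Complete subalgebras, projections of preorders, and the forcing lemma. -/

namespace Pool.Agent.Lib.MP_719972_lc

open Pool.Agent.Shared.Forcing Set

section Emb

variable {A B : Type} [CompleteBooleanAlgebra A] [CompleteBooleanAlgebra B]
  (e : CompleteLatticeHom A B)

omit [CompleteBooleanAlgebra B] in
theorem hv₁_forall {κ : Type} [Countable κ] {y : Name A} {φ : κ → R → Prop}
    (h : ∀ j, Measurable (φ j)) : hv₁ y (fun r => ∀ j, φ j r) = ⨅ j, hv₁ y (φ j) :=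
  hv_forall fun j => (h j).comp (measurable_pi_apply _)

def Name.map (x : Name A) : Name B where
  val n k := e (x.val n k)
  disj n k k' h := by rw [← map_inf, x.disj n k k' h, map_bot]
  total n := by rw [← map_iSup, x.total, map_top]

theorem hv_map {ι : Type} [Countable ι] [Nonempty ι] (X : ι → Name A) {φ} (h : Measurable φ) :
    hv (fun i => (X i).map e) φ = e (hv X φ) := by
  refine meas_ind (Q := fun φ => hv (fun i => (X i).map e) φ = e (hv X φ))
    (by simp only [hv_false, map_bot]) (fun i n k => by rw [hv_bas, hv_bas]; rfl)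
    (fun φ h1 h2 => by rw [hv_not h1, hv_not h1, h2, map_compl'])
    (fun φ h1 h2 => by rw [hv_exists h1, hv_exists h1, map_iSup, iSup_congr h2]) h

theorem hv₁_map (y : Name A) {φ : R → Prop} (h : Measurable φ) :
    hv₁ (y.map e) φ = e (hv₁ y φ) := hv_map e (fun _ => y) (h.comp (measurable_pi_apply _))

theorem Gen.range {x : Name A} {b : B} (h : Gen (x.map e) b) : ∃ a, e a = b := by
  induction h with
  | val n k => exact ⟨_, rfl⟩
  | compl _ ih => obtain ⟨a, rfl⟩ := ih; exact ⟨aᶜ, map_compl' e a⟩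
  | @sSup S _ ih =>
    choose a ha using ih
    refine ⟨⨆ (b : S), a b b.2, ?_⟩
    rw [map_iSup, sSup_eq_iSup']
    exact iSup_congr fun b => ha b b.2

variable {e} in
theorem GenN.range (he : Function.Injective e) {x : Name A} {y : Name B} (h : GenN (x.map e) y) :
    ∃ w : Name A, w.map e = y := by
  choose a ha using fun n k => (h n k).range
  refine ⟨⟨a, fun n k k' h1 => he ?_, fun n => he ?_⟩, Name.ext' ha⟩
  · rw [map_inf, ha, ha, y.disj n k k' h1, map_bot]
  · rw [map_iSup, iSup_congr (ha n), y.total, map_top]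

/-- `x` is forced to satisfy `φ z` for all ground model reals `z`. -/
def In (x : Name A) (φ : R → R → Prop) : Prop := ∀ z, hv₁ x (φ z) = ⊤

/-- Each real of the extension is forced to satisfy `φ z` for some ground model real `z`. -/
def Out (A : Type) [CompleteBooleanAlgebra A] (φ : R → R → Prop) : Prop :=
  ∀ y : Name A, ⨆ z, hv₁ y (φ z) = ⊤

variable {e} {x : Name A} {Rel : Name B → Name B → B} {φ : R → R → Prop}

theorem In.toB (h : In x φ) (hm : ∀ z, Measurable (φ z))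
    (H : ∀ z y, hv₁ y (φ z) ≤ Rel (chk z) y) : nodeB Rel (x.map e) = ⊤ :=
  top_le_iff.1 (le_nodeB (GenN.refl _) fun z => le_trans (by rw [hv₁_map e _ (hm z), h z, map_top])
    (H z _))

theorem In.toD (h : In x φ) (hm : ∀ z, Measurable (φ z))
    (H : ∀ z y, hv₁ y (φ z) ≤ (Rel y (chk z))ᶜ) : nodeD Rel (x.map e) = ⊤ :=
  top_le_iff.1 (le_nodeD (GenN.refl _) fun z => le_trans (by rw [hv₁_map e _ (hm z), h z, map_top])
    (H z _))

theorem Out.aux (h : Out A φ) (he : Function.Injective e) (hm : ∀ z, Measurable (φ z))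
    {y : Name B} (hy : GenN (x.map e) y) {b : R → B} (H : ∀ z, hv₁ y (φ z) ≤ (b z)ᶜ) :
    ⨅ z, b z ≤ ⊥ := by
  obtain ⟨w, rfl⟩ := hy.range he
  rw [← compl_top, ← map_top e, ← h w, map_iSup, compl_iSup]
  exact iInf_mono fun z => le_compl_comm.1 ((hv₁_map e _ (hm z)).ge.trans (H z))

theorem Out.toB (h : Out A φ) (he : Function.Injective e) (hm : ∀ z, Measurable (φ z))
    (H : ∀ z y, hv₁ y (φ z) ≤ (Rel (chk z) y)ᶜ) (x : Name A) : nodeB Rel (x.map e) = ⊥ :=
  le_bot_iff.1 (iSup₂_le fun y hy => h.aux he hm hy fun z => H z y)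

theorem Out.toD (h : Out A φ) (he : Function.Injective e) (hm : ∀ z, Measurable (φ z))
    (H : ∀ z y, hv₁ y (φ z) ≤ Rel y (chk z)) (x : Name A) : nodeD Rel (x.map e) = ⊥ :=
  le_bot_iff.1 (iSup₂_le fun y hy => h.aux he hm hy fun z => (H z y).trans (compl_compl _).ge)

end Emb

/-! ### Projections -/

structure Proj (P Q : Type) [Preorder P] [Preorder Q] where
  f : P → Q
  mono : Monotone f
  lift : ∀ p q, q ≤ f p → ∃ p' ≤ p, f p' ≤ q
  surj : ∀ q, ∃ p, f p ≤ q

namespace Proj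

variable {P Q T : Type} [Preorder P] [Preorder Q] [Preorder T]

def fst [Nonempty Q] : Proj (P × Q) P :=
  ⟨Prod.fst, monotone_fst, fun p q h => ⟨(q, p.2), ⟨h, le_rfl⟩, le_rfl⟩,
    fun q => ⟨(q, Classical.arbitrary Q), le_rfl⟩⟩

def snd [Nonempty P] : Proj (P × Q) Q :=
  ⟨Prod.snd, monotone_snd, fun p q h => ⟨(p.1, q), ⟨le_rfl, h⟩, le_rfl⟩,
    fun q => ⟨(Classical.arbitrary P, q), le_rfl⟩⟩

def comp (a : Proj P Q) (b : Proj Q T) : Proj P T where
  f p := b.f (a.f p)
  mono := b.mono.comp a.mono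
  lift p t h := by
    obtain ⟨q, h1, h2⟩ := b.lift _ t h
    obtain ⟨p', h3, h4⟩ := a.lift p q h1
    exact ⟨p', h3, (b.mono h4).trans h2⟩
  surj t := by
    obtain ⟨q, h1⟩ := b.surj t
    obtain ⟨p, h2⟩ := a.surj q
    exact ⟨p, (b.mono h2).trans h1⟩

def pull (a : Proj P Q) (b : RO Q) : RO P where
  s := {p | a.f p ∈ b}
  reg p := by
    refine ⟨fun h q hq => ⟨q, le_rfl, RO.mono h (a.mono hq)⟩, fun h => RO.of_dense fun q hq => ?_⟩
    obtain ⟨p', h1, h2⟩ := a.lift p q hq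
    obtain ⟨r, h3, h4⟩ := h p' h1
    exact ⟨_, (a.mono h3).trans h2, h4⟩

theorem mem_pull {a : Proj P Q} {b : RO Q} {p : P} : p ∈ a.pull b ↔ a.f p ∈ b := Iff.rfl

def emb (a : Proj P Q) : CompleteLatticeHom (RO Q) (RO P) where
  toFun := a.pull
  map_sInf' S := RO.ext' fun p => by simp [mem_pull, RO.mem_sInf]
  map_sSup' S := RO.ext' fun p => by
    rw [mem_pull, RO.mem_sSup, RO.mem_sSup]
    refine ⟨fun h q hq => ?_, fun h q hq => ?_⟩
    · obtain ⟨r, h1, b, h2, h3⟩ := h _ (a.mono hq)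
      obtain ⟨p', h4, h5⟩ := a.lift q r h1
      exact ⟨p', h4, _, ⟨b, h2, rfl⟩, mem_pull.2 (RO.mono h3 h5)⟩
    · obtain ⟨p', h1, h2⟩ := a.lift p q hq
      obtain ⟨r, h3, _, ⟨b, h4, rfl⟩, h5⟩ := h p' h1
      exact ⟨_, (a.mono h3).trans h2, b, h4, h5⟩

theorem emb_inj (a : Proj P Q) : Function.Injective a.emb := by
  have key : ∀ b c : RO Q, a.pull b = a.pull c → ∀ q, q ∈ b → q ∈ c := fun b c h q hq =>
    RO.of_dense fun r hr => by
      obtain ⟨p, hp⟩ := a.surj r
      exact ⟨_, hp, mem_pull.1 (h ▸ mem_pull.2 (RO.mono hq (hp.trans hr)))⟩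
  exact fun b c h => RO.ext' fun q => ⟨key b c h q, key c b h.symm q⟩

end Proj

/-! ### The forcing lemma -/

variable {Q : Type} [Preorder Q]

theorem fin_dense {Y ι : Type*} [Finite ι] (le : Y → Y → Prop) (h1 : ∀ y, le y y)
    (h2 : ∀ x y z, le x y → le y z → le x z) (D : ι → Y → Prop)
    (h3 : ∀ i x y, le x y → D i y → D i x) (h4 : ∀ i y, ∃ x, le x y ∧ D i x) (y : Y) :
    ∃ x, le x y ∧ ∀ i, D i x := by
  have key : ∀ s : Set ι, ∃ x, le x y ∧ ∀ i ∈ s, D i x := fun s => by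
    induction s, s.toFinite using Set.Finite.induction_on with
    | empty => exact ⟨y, h1 y, fun _ h => h.elim⟩
    | @insert i s _ _ ih =>
      obtain ⟨x, h5, h6⟩ := ih
      obtain ⟨x', h7, h8⟩ := h4 i x
      refine ⟨x', h2 _ _ _ h7 h5, ?_⟩
      rintro j (rfl | hj)
      exacts [h8, h3 _ _ _ h7 (h6 j hj)]
  simpa using key univ

theorem fin_dense' {Y ι : Type*} [Finite ι] [Preorder Y] (D : ι → Y → Prop)
    (h3 : ∀ i x y, x ≤ y → D i y → D i x) (h4 : ∀ i y, ∃ x ≤ y, D i x) (y : Y) :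
    ∃ x ≤ y, ∀ i, D i x :=
  fin_dense (· ≤ ·) le_refl (fun _ _ _ => le_trans) D h3 h4 y

theorem Name.dec (y : Name (RO Q)) (n : ℕ) (r : Q) : ∃ r' ≤ r, ∃ k, r' ∈ y.val n k :=
  RO.mem_iSup.1 (by rw [y.total]; exact RO.mem_top r) r le_rfl

theorem Name.func (y : Name (RO Q)) {n k k' : ℕ} {r : Q} (h : r ∈ y.val n k)
    (h' : r ∈ y.val n k') : k = k' := by
  by_contra hc
  exact RO.not_mem_bot r (y.disj n k k' hc ▸ RO.mem_inf.2 ⟨h, h'⟩)

theorem Name.decs (y : Name (RO Q)) (n : ℕ) (r : Q) :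
    ∃ r' ≤ r, ∃ v : R, ∀ i < n, r' ∈ y.val i (v i) := by
  obtain ⟨r', h1, h2⟩ := fin_dense' (fun (i : Fin n) r => ∃ k, r ∈ y.val i k)
    (fun _ _ _ h ⟨k, hk⟩ => ⟨k, RO.mono hk h⟩) (fun i => y.dec i) r
  choose v hv using h2
  exact ⟨r', h1, fun i => if h : i < n then v ⟨i, h⟩ else 0, fun i hi => by
    simpa [hi] using hv ⟨i, hi⟩⟩

/-- `v` is a possible value of `y` below `r`. -/
def Poss (y : Name (RO Q)) (r : Q) (v : R) : Prop := ∀ n, ∃ r' ≤ r, ∀ i < n, r' ∈ y.val i (v i)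

theorem Poss.eq {y : Name (RO Q)} {r : Q} {v : R} (h : Poss y r v) {n k : ℕ}
    (h1 : r ∈ y.val n k) : v n = k :=
  let ⟨_, h2, h3⟩ := h (n + 1); y.func (h3 n n.lt_succ_self) (RO.mono h1 h2)

theorem force {y : Name (RO Q)} {r : Q} {φ : R → Prop} (hm : Measurable φ)
    (h : ∀ v, Poss y r v → φ v) : r ∈ hv₁ y φ := by
  have h1 : ∀ n, Measurable fun v : R => ∃ r' ≤ r, ∀ i < n, r' ∈ y.val i (v i) := fun n =>
    meas_of_dep fun a => ⟨n, fun s hs => by
      simp only [eq_iff_iff]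
      exact exists_congr fun r' => and_congr_right fun _ => forall₂_congr fun i hi => by
        rw [hs i hi]⟩
  refine RO.le_def.1 (hv₁_mono (Measurable.forall h1) hm h) r ?_
  rw [hv₁_forall h1, RO.mem_iInf]
  refine fun n => RO.of_dense fun q hq => ?_
  obtain ⟨r', h2, v, h3⟩ := y.decs n q
  refine ⟨r', h2, RO.le_def.1 (hv₁_mono (φ := fun a => ∀ i : Fin n, a i = v i) (by fun_prop)
    (h1 n) fun a ha => ⟨r', h2.trans hq, fun i hi => ha ⟨i, hi⟩ ▸ h3 i hi⟩) r' ?_⟩
  rw [hv₁_forall fun i => by fun_prop, RO.mem_iInf]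
  exact fun i => RO.le_def.1 (hv_bas (X := fun _ : Unit => y) () i (v i)).ge r' (h3 i i.2)

theorem eq_top_of_dense {b : RO Q} (h : ∀ r, ∃ r' ≤ r, r' ∈ b) : b = ⊤ :=
  top_le_iff.1 fun _ _ => RO.of_dense fun q _ => h q

theorem force_top {y : Name (RO Q)} {φ : R → Prop} (hm : Measurable φ)
    (h : ∀ r, ∃ r' ≤ r, ∀ v, Poss y r' v → φ v) : hv₁ y φ = ⊤ :=
  eq_top_of_dense fun r => let ⟨r', h1, h2⟩ := h r; ⟨r', h1, force hm h2⟩

theorem force_all {y : Name (RO Q)} {φ : ℕ → R → Prop} (hm : ∀ m, Measurable (φ m))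
    (h : ∀ m r, ∃ r' ≤ r, ∀ v, Poss y r' v → φ m v) : hv₁ y (fun v => ∀ m, φ m v) = ⊤ := by
  rw [hv₁_forall hm]
  exact iInf_eq_top.2 fun m => force_top (hm m) (h m)

theorem out_of_dense {φ : R → R → Prop} (hm : ∀ z, Measurable (φ z))
    (h : ∀ (y : Name (RO Q)) r, ∃ r' ≤ r, ∃ z, ∀ v, Poss y r' v → φ z v) : Out (RO Q) φ :=
  fun y => eq_top_of_dense fun r =>
    let ⟨r', h1, z, h2⟩ := h y r
    ⟨r', h1, le_iSup (fun z => hv₁ y (φ z)) z r' (force (hm z) h2)⟩

theorem out_of_top {φ : R → R → Prop} (h : ∀ y : Name (RO Q), ∃ z, hv₁ y (φ z) = ⊤) :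
    Out (RO Q) φ := fun y => let ⟨z, hz⟩ := h y; top_le_iff.1 (le_iSup_of_le z hz.ge)

/-- A description of a generic real. -/
structure GenR (Q : Type) [Preorder Q] where
  g : Q → ℕ → ℕ → Prop
  mono : ∀ {r r' n k}, r' ≤ r → g r n k → g r' n k
  func : ∀ {r n k k'}, g r n k → g r n k' → k = k'
  dense : ∀ r n, ∃ r' ≤ r, ∃ k, g r' n k

def GenR.name (G : GenR Q) : Name (RO Q) where
  val n k := RO.hull {r | G.g r n k}
  disj n k k' h := RO.eq_bot_iff'.2 fun p hp => by
    obtain ⟨h1, h2⟩ := RO.mem_inf.1 hp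
    obtain ⟨q, h3, t, h4, h5⟩ := h1 p le_rfl
    obtain ⟨q', h6, t', h7, h8⟩ := h2 q h3
    exact h (G.func (G.mono (h6.trans h5) h4) (G.mono h8 h7))
  total n := eq_top_of_dense fun r =>
    let ⟨r', h1, k, h2⟩ := G.dense r n
    ⟨r', h1, le_iSup (fun k => RO.hull {r | G.g r n k}) k r' (RO.mem_hull_of_mem h2)⟩

theorem GenR.eq {G : GenR Q} {r : Q} {v : R} (h : Poss G.name r v) {n k : ℕ} (h1 : G.g r n k) :
    v n = k := h.eq (RO.mem_hull_of_mem h1)

theorem GenR.poss {G : GenR Q} {r : Q} {v : R} (h : Poss G.name r v) (n : ℕ) :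
    ∃ r' ≤ r, ∀ i < n, G.g r' i (v i) := by
  obtain ⟨r1, h1, h2⟩ := h n
  obtain ⟨r', h3, h4⟩ := fin_dense' (fun (i : Fin n) r => ∃ k, G.g r i k)
    (fun _ _ _ h ⟨k, hk⟩ => ⟨k, G.mono h hk⟩) (fun i r => G.dense r i) r1
  refine ⟨r', h3.trans h1, fun i hi => ?_⟩
  obtain ⟨k, hk⟩ := h4 ⟨i, hi⟩
  exact G.name.func (RO.mem_hull_of_mem hk) (RO.mono (h2 i hi) h3) ▸ hk

end Pool.Agent.Lib.MP_719972_lc
end

-- part Pool.Agent.Lib.MP_719972_lc.Proper
section

/-! A combinatorial criterion for properness. -/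

namespace Pool.Agent.Lib.MP_719972_lc

open Pool.Agent.Shared.Forcing Set

universe u

variable {P P' : Type} [Preorder P] [Preorder P']

def Cp (p q : P) : Prop := ∃ r, r ≤ p ∧ r ≤ q

/-- Dense open sets. -/
structure DO (D : Set P) : Prop where
  opn : ∀ {p q}, q ≤ p → p ∈ D → q ∈ D
  dense : ∀ p, ∃ q ≤ p, q ∈ D

/-- Master conditions exist for all countable sets of tasks. -/
def Good (P : Type) [Preorder P] : Prop :=
  ∀ (p : P) (A : Type u) (D : A → Set P), (∀ a, DO (D a)) → ∃ τ : List A → Set P,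
    (∀ l, (τ l).Countable) ∧ ∀ N : Set A, N.Countable → ∃ q ≤ p, ∀ a ∈ N, ∀ q' ≤ q,
      ∃ l : List A, (∀ b ∈ l, b ∈ N) ∧ ∃ r ∈ τ l, r ∈ D a ∧ Cp q' r

theorem countable_lists {A : Type*} {N : Set A} (h : N.Countable) :
    {l : List A | ∀ b ∈ l, b ∈ N}.Countable := by
  have := h.to_subtype
  refine (countable_range fun l : List N => l.map Subtype.val).mono fun l hl => ?_
  exact ⟨l.pmap Subtype.mk hl, by simp [List.map_pmap]⟩

theorem countable_mem {A : Type*} (l : List A) : {a | a ∈ l}.Countable :=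
  l.finite_toSet.countable

theorem Good.proper (h : Good.{u} P) : IsProper.{u} (RO P) := by
  intro Λ S hS f h1 h2
  refine eq_top_of_dense fun p => ?_
  have h3 : ∀ l n p, ∃ q ≤ p, ∃ a, q ∈ f l n a := fun l n p =>
    RO.mem_iSup.1 (by rw [h2]; exact RO.mem_top p) p le_rfl
  obtain ⟨τ, h4, h5⟩ := h p (List Λ × ℕ) (fun t => {q | ∃ a, q ∈ f t.1 t.2 a})
    fun t => ⟨fun h ⟨a, ha⟩ => ⟨a, RO.mono ha h⟩, h3 _ _⟩
  obtain ⟨-, -, a0, -⟩ := h3 [] 0 p
  have h6 : ∀ {s : Set Λ}, s.Countable → {t : List Λ × ℕ | ∀ b ∈ t.1, b ∈ s}.Countable :=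
    fun h => ((countable_lists h).prod (countable_univ (α := ℕ))).mono fun t ht => mk_mem_prod ht (mem_univ _)
  let T : List Λ → Set (List Λ × ℕ) := fun m => {t | ∀ b ∈ t.1, b ∈ {a | a ∈ m}}
  have h7 : ∀ m : List Λ, (insert a0 (⋃ t ∈ T m, ⋃ L ∈ {L | ∀ b ∈ L, b ∈ T m}, ⋃ q ∈ τ L,
      {a | q ∈ f t.1 t.2 a})).Countable := fun m =>
    ((h6 (countable_mem m)).biUnion fun t _ => (countable_lists (h6 (countable_mem m))).biUnion
      fun L _ => (h4 L).biUnion fun q _ => Set.Subsingleton.countable fun a ha a' ha' => by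
        by_contra hc
        exact RO.not_mem_bot q (h1 _ _ a a' hc ▸ RO.mem_inf.2 ⟨ha, ha'⟩)).insert _
  choose g hg using fun m => (h7 m).exists_eq_range (insert_nonempty _ _)
  obtain ⟨s, hs, h8⟩ := hS.2 g
  obtain ⟨q, h9, h10⟩ := h5 _ (h6 (hS.1 s hs))
  refine ⟨q, h9, RO.le_def.1 (le_iSup₂_of_le (f := fun s (_ : s ∈ S) => _) s hs le_rfl) q ?_⟩
  simp only [RO.mem_iInf]
  refine fun l hl n => RO.of_dense fun q' hq => ?_
  obtain ⟨L, h11, r, h12, ⟨a, h13⟩, w, h14, h15⟩ := h10 (l, n) hl q' hq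
  have h16 : a ∈ range (g (l ++ L.flatMap Prod.fst)) := by
    rw [← hg]
    refine Or.inr (mem_iUnion₂.2 ⟨(l, n), fun b hb => List.mem_append_left _ hb,
      mem_iUnion₂.2 ⟨L, fun t ht b hb => List.mem_append_right _ (List.mem_flatMap.2 ⟨t, ht, hb⟩),
        mem_iUnion₂.2 ⟨r, h12, h13⟩⟩⟩)
  obtain ⟨k, rfl⟩ := h16
  refine ⟨w, h14, RO.le_def.1 (le_iSup₂_of_le (f := fun a (_ : a ∈ s) => f l n a) _
    (h8 _ (fun b hb => ?_) k) le_rfl) w (RO.mono h13 h15)⟩
  rcases List.mem_append.1 hb with hb | hb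
  · exact hl b hb
  · obtain ⟨t, h17, h18⟩ := List.mem_flatMap.1 hb
    exact h11 t h17 b h18

theorem do_decide (E : Set P) (h : ∀ {p q}, q ≤ p → p ∈ E → q ∈ E) :
    DO {p | p ∈ E ∨ ∀ q ≤ p, q ∉ E} := by
  refine ⟨fun h1 h2 => h2.imp (h h1) fun h3 q hq => h3 q (hq.trans h1), fun p => ?_⟩
  by_cases h1 : ∃ q ≤ p, q ∈ E
  · exact let ⟨q, h2, h3⟩ := h1; ⟨q, h2, Or.inl h3⟩
  · exact ⟨p, le_rfl, Or.inr fun q h2 h3 => h1 ⟨q, h2, h3⟩⟩

/-- `P` is, over `P'`, a countable union of linked sets. -/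
theorem Good.linked (h : Good.{u} P') {J : Type} [Countable J] (W : J → P' → P → Prop)
    (h1 : ∀ j a b p, b ≤ a → W j a p → W j b p) (h2 : ∀ j a p q, W j a p → W j a q → Cp p q)
    (h3 : ∀ p, ∃ a, ∀ b ≤ a, ∃ q ≤ p, ∀ q1 ≤ q, ∃ q2 ≤ q1, ∃ j, ∃ c ≤ b, W j c q2) :
    Good.{u} P := by
  intro p A D hD
  obtain ⟨a0, h4⟩ := h3 p
  obtain ⟨τ, h5, h6⟩ := h a0 (A × J) _ fun t => do_decide {b | ∃ q ∈ D t.1, W t.2 b q}
    fun h ⟨q, h7, h8⟩ => ⟨q, h7, h1 _ _ _ _ h h8⟩
  have h7 : ∀ (t : A × J) b, ∃ c, (∃ q ∈ D t.1, W t.2 b q) → c ∈ D t.1 ∧ W t.2 b c := fun t b => by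
    by_cases h : ∃ q ∈ D t.1, W t.2 b q
    · exact let ⟨q, hq⟩ := h; ⟨q, fun _ => hq⟩
    · exact ⟨p, fun h' => (h h').elim⟩
  choose c hc using h7
  have h8 : ∀ {s : Set A}, s.Countable → {t : A × J | t.1 ∈ s}.Countable :=
    fun h => (h.prod (countable_univ (α := J))).mono fun t ht => mk_mem_prod ht (mem_univ _)
  let T : List A → Set (A × J) := fun m => {t | t.1 ∈ {a | a ∈ m}}
  refine ⟨fun m => ⋃ t ∈ T m, ⋃ L ∈ {L | ∀ b ∈ L, b ∈ T m}, c t '' τ L, fun m =>
    (h8 (countable_mem m)).biUnion fun t _ => (countable_lists (h8 (countable_mem m))).biUnion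
      fun L _ => (h5 L).image _, fun N hN => ?_⟩
  obtain ⟨b, h9, h10⟩ := h6 _ (h8 hN)
  obtain ⟨q, h11, h12⟩ := h4 b h9
  refine ⟨q, h11, fun a ha q' hq => ?_⟩
  obtain ⟨q1, h13, h14⟩ := (hD a).dense q'
  obtain ⟨q2, h15, j, b2, h16, h17⟩ := h12 q1 (h13.trans hq)
  obtain ⟨L, h18, r, h19, h20, w, h21, h22⟩ := h10 (a, j) ha b2 h16
  have h23 := h1 _ _ _ _ h21 h17
  obtain ⟨h24, h25⟩ := hc (a, j) r (h20.resolve_right fun h => h w h22 ⟨_, (hD a).opn h15 h14, h23⟩)
  obtain ⟨v, h26, h27⟩ := h2 _ _ _ _ h23 (h1 _ _ _ _ h22 h25)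
  refine ⟨a :: L.map Prod.fst, ?_, _, mem_iUnion₂.2 ⟨(a, j), List.mem_cons_self, mem_iUnion₂.2
    ⟨L, fun t ht => List.mem_cons_of_mem _ (List.mem_map_of_mem ht), r, h19, rfl⟩⟩, h24, v,
      h26.trans (h15.trans h13), h27⟩
  simpa [ha] using fun a j h => h18 (a, j) h

/-- A dense subset is a countable union of linked sets. -/
def Lk (Q : Type) [Preorder Q] : Prop :=
  ∃ (J : Type) (_ : Countable J) (E : J → Set Q), (∀ j, ∀ p ∈ E j, ∀ q ∈ E j, Cp p q) ∧
    ∀ p, ∃ q ≤ p, ∃ j, q ∈ E j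

theorem Good.prod (h : Good.{u} P') (h' : Lk P) : Good.{u} (P' × P) := by
  obtain ⟨J, _, E, h1, h2⟩ := h'
  refine h.linked (J := J) (fun j a p => a ≤ p.1 ∧ p.2 ∈ E j)
    (fun j a b p h3 h4 => ⟨h3.trans h4.1, h4.2⟩) (fun j a p q h3 h4 => ?_)
    fun p => ⟨p.1, fun b hb => ⟨(b, p.2), ⟨hb, le_rfl⟩, fun q1 h3 => ?_⟩⟩
  · obtain ⟨r, h5, h6⟩ := h1 j _ h3.2 _ h4.2
    exact ⟨(a, r), ⟨h3.1, h5⟩, h4.1, h6⟩
  · obtain ⟨q, h4, j, h5⟩ := h2 q1.2
    exact ⟨(q1.1, q), ⟨le_rfl, h4⟩, j, q1.1, h3.1, le_rfl, h5⟩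

/-- Dependent choice with history and parameters. -/
theorem dc {A α : Type*} (Φ : ∀ n, (Fin (n + 1) → A) → (Fin n → α) → α → Prop)
    (h : ∀ n a g, ∃ x, Φ n a g x) : ∃ f : (ℕ → A) → ℕ → α,
      (∀ e n, Φ n (fun i => e i) (fun i => f e i) (f e n)) ∧
        ∀ e e' n, (∀ i ≤ n, e i = e' i) → f e n = f e' n := by
  choose F hF using h
  let f : (ℕ → A) → ℕ → α := fun e n =>
    Nat.strongRecOn n fun n ih => F n (fun i => e i) fun i => ih i i.2
  have hf : ∀ e n, f e n = F n (fun i => e i) fun i => f e i := fun e n =>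
    Nat.strongRecOn_eq _ _
  refine ⟨f, fun e n => by rw [hf e n]; exact hF _ _ _, fun e e' n => ?_⟩
  induction n using Nat.strong_induction_on with
  | _ n ih =>
    intro h
    rw [hf e n, hf e' n]
    congr 1
    · exact funext fun i => h i (Nat.lt_succ_iff.1 i.2)
    · exact funext fun i => ih i i.2 fun j hj => h j (hj.trans i.2.le)

theorem dc' {α : Type*} (Φ : ∀ n, (Fin n → α) → α → Prop) (h : ∀ n g, ∃ x, Φ n g x) :
    ∃ f : ℕ → α, ∀ n, Φ n (fun i => f i) (f n) :=
  let ⟨f, hf, _⟩ := dc (A := Unit) (fun n _ => Φ n) fun n _ => h n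
  ⟨f fun _ => (), hf _⟩

/-- Properness from a fusion scheme. -/
theorem good_of_scheme (h : ∀ p : P, ∃ (α : Type) (F : α → Set P)
    (Φ : ∀ n, (Fin n → α) → α → Prop), (∀ x, (F x).Countable) ∧
      (∀ n g D, DO D → ∃ x, Φ n g x ∧ F x ⊆ D) ∧
      ∀ f : ℕ → α, (∀ n, Φ n (fun i => f i) (f n)) → ∃ q ≤ p, ∀ q' ≤ q, ∀ m, ∃ n ≥ m,
        ∃ r ∈ F (f n), Cp q' r) : Good.{u} P := by
  intro p A D hD
  obtain ⟨α, F, Φ, h1, h2, h3⟩ := h p
  obtain ⟨f, h4, h5⟩ := dc (A := A) (fun n a g x => Φ n g x ∧ F x ⊆ ⋂ i, D (a i))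
    fun n a g => h2 n g _ ⟨fun h6 h7 => mem_iInter.2 fun i => (hD _).opn h6 (mem_iInter.1 h7 i),
      fun p => by
        simpa using fin_dense' (fun i p => p ∈ D (a i)) (fun _ _ _ => (hD _).opn)
          (fun _ => (hD _).dense) p⟩
  refine ⟨fun l => ⋃ a ∈ l, F (f (fun i => l.getD i a) (l.length - 1)),
    fun l => (countable_mem l).biUnion fun _ _ => h1 _, fun N hN => ?_⟩
  rcases N.eq_empty_or_nonempty with rfl | hne
  · exact ⟨p, le_rfl, fun _ h => h.elim⟩
  obtain ⟨e, rfl⟩ := hN.exists_eq_range hne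
  obtain ⟨q, h6, h7⟩ := h3 (f e) fun n => (h4 e n).1
  refine ⟨q, h6, ?_⟩
  rintro _ ⟨m, rfl⟩ q' hq
  obtain ⟨n, h8, r, h9, h10⟩ := h7 q' hq m
  refine ⟨List.ofFn fun i : Fin (n + 1) => e i, fun b hb => ?_, r, mem_iUnion₂.2
    ⟨e 0, List.mem_ofFn.2 ⟨0, rfl⟩, ?_⟩, mem_iInter.1 ((h4 e n).2 h9) ⟨m, by omega⟩, h10⟩
  · obtain ⟨i, rfl⟩ := List.mem_ofFn.1 hb
    exact ⟨_, rfl⟩
  · rw [List.length_ofFn, Nat.add_sub_cancel, h5 _ e n fun i hi => ?_]
    · exact h9
    · rw [List.getD_eq_getElem _ _ (by simp; omega), List.getElem_ofFn]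

end Pool.Agent.Lib.MP_719972_lc
end
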