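import Pool.Agent.Lib.MP_719972_lc.Proper
import Pool.Agent.Shared.Brouwer.Basic

-- part Pool.Agent.Lib.MP_719972_lc.Small
section

/-! Cohen forcing, universal meager forcing and localization forcing. -/

namespace Pool.Agent.Lib.MP_719972_lc

open Pool.Agent.Shared.Forcing Set Encodable

theorem exists_enum (J : Type) [Countable J] [Nonempty J] :
    ∃ e : ℕ → J, ∀ j m, ∃ n ≥ m, e n = j := by
  obtain ⟨e, he⟩ := exists_surjective_nat J
  refine ⟨fun n => e n.unpair.1, fun j m => ?_⟩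
  obtain ⟨a, rfl⟩ := he j
  exact ⟨a.pair m, Nat.right_le_pair _ _, by simp⟩

theorem not_inM_iff {a b : R} : ¬ InM a b ↔ ∀ m, ∃ n ≥ m, MatchM n a b := by simp [InM]

theorem m_match (n : ℕ) : Measurable fun p : R × R => MatchM n p.1 p.2 := (op_match n).meas

section Countable

variable {Q : Type} [Preorder Q] [Countable Q] [Nonempty Q]

theorem out_ED : Out (RO Q) fun z v => ¬ InM z v := out_of_top fun y => by
  obtain ⟨e, he⟩ := exists_enum Q
  choose r h1 k h2 using fun j (s : List Bool) => y.dec (encode s) (e j)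
  let σ : ℕ → List Bool := fun j => Nat.rec [] (fun j s => s ++ str (k j s) ++ [false]) j
  have h3 : ∀ j, σ (j + 1) = σ j ++ str (k j (σ j)) ++ [false] := fun _ => rfl
  have h4 : ∀ j, j ≤ (σ j).length := fun j => by
    induction j with
    | zero => exact Nat.zero_le _
    | succ j ih => simp [h3]; omega
  have h5 := ext_lim (σ := σ) (fun j => by simp [h3]) h4
  refine ⟨lim σ, ?_⟩
  simp only [not_inM_iff]
  refine force_all (fun m => Measurable.exists fun n => measurable_const.and (m_l (m_match n) _))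
    fun m q => ?_
  obtain ⟨j, h6, rfl⟩ := he q m
  refine ⟨_, h1 j (σ j), fun v hv => ⟨_, h6.trans (h4 j), ?_⟩⟩
  unfold MatchM
  rw [(h5 j).init, hv.eq (h2 j _)]
  exact (h5 (j + 1)).of_prefix (List.prefix_append _ _)

theorem out_Dom : Out (RO Q) fun z v => ¬ Le z v := out_of_top fun y => by
  obtain ⟨e, he⟩ := exists_enum Q
  choose r h1 k h2 using fun j => y.dec j (e j)
  refine ⟨fun j => k j + 1, ?_⟩
  simp only [Le, not_exists, not_forall]
  refine force_all (fun m => by fun_prop) fun m q => ?_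
  obtain ⟨j, h6, rfl⟩ := he q m
  exact ⟨_, h1 j, fun v hv => ⟨j, h6, by rw [hv.eq (h2 j)]; omega⟩⟩

omit [Nonempty Q] in
theorem lk_countable : Lk Q :=
  ⟨Q, inferInstance, fun q => {q}, fun _ p hp q hq => ⟨p, le_rfl, (hp.trans hq.symm).le⟩,
    fun p => ⟨p, le_rfl, p, rfl⟩⟩

end Countable

theorem pre_get {s t : List ℕ} (h : s <+: t) {n k : ℕ} (h1 : s[n]? = some k) : t[n]? = some k := by
  obtain ⟨u, rfl⟩ := h
  rw [List.getElem?_append_left (List.getElem?_eq_some_iff.1 h1).1, h1]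

/-! ### Cohen forcing -/

structure Co where
  s : List ℕ

instance : Preorder Co where
  le a b := b.s <+: a.s
  le_refl _ := List.prefix_rfl
  le_trans _ _ _ h h' := h'.trans h

instance : Countable Co := Function.Injective.countable (f := Co.s) fun ⟨_⟩ ⟨_⟩ h => by
  cases h; rfl

instance : Nonempty Co := ⟨⟨[]⟩⟩

def coG : GenR Co where
  g r n k := r.s[n]? = some k
  mono h h1 := pre_get h h1
  func h h' := Option.some.inj (h.symm.trans h')
  dense r n := ⟨⟨r.s ++ List.replicate (n + 1) 0⟩, List.prefix_append _ _,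
    _, List.getElem?_eq_getElem (by simp; omega)⟩

theorem co_ext {r : Co} {v : R} (h : Poss coG.name r v) : Ext v (r.s.map Nat.bodd) := fun i hi => by
  rw [List.getElem_map, GenR.eq h (List.getElem?_eq_getElem (by simpa using hi))]

theorem co_C : In coG.name fun z v => ¬ InM v z := fun z => by
  simp only [not_inM_iff]
  refine force_all (fun m => Measurable.exists fun n => measurable_const.and (m_r (m_match n) _))
    fun m q => ?_
  let s := (q.s ++ List.replicate m 0).map Nat.bodd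
  refine ⟨⟨q.s ++ List.replicate m 0 ++ (str (z (encode s))).map bit⟩, ?_, fun v hv => ?_⟩
  · rw [List.append_assoc]; exact List.prefix_append _ _
  have h1 : Ext v (s ++ str (z (encode s))) := by
    simpa [s, Function.comp_def] using co_ext hv
  refine ⟨s.length, by simp [s], ?_⟩
  unfold MatchM
  rwa [(h1.of_prefix (List.prefix_append _ _)).init]

theorem co_IO : In coG.name fun z v => ¬ Ne v z := fun z => by
  simp only [Ne, not_exists, not_forall]
  refine force_all (fun m => by fun_prop) fun m q => ?_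
  refine ⟨⟨q.s ++ List.replicate m 0 ++ [z (q.s.length + m)]⟩, ?_, fun v hv =>
    ⟨q.s.length + m, by omega, not_not.2 (GenR.eq hv (by simp [coG]))⟩⟩
  rw [List.append_assoc]; exact List.prefix_append _ _

/-! ### Forcing with finite side conditions -/

structure SCd where
  G : R → ℕ → ℕ → Prop
  ok : ℕ → ℕ → Prop
  mono : ∀ {a a' b b'}, ok a b → a ≤ a' → b' ≤ b → ok a' b'
  big : ∀ b, ∃ a, ok a b
  ex : ∀ k (F : List R), ok k F.length → ∃ v, ∀ z ∈ F, G z k v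

structure SC (d : SCd) where
  σ : List ℕ
  F : List R
  ok : d.ok σ.length F.length

variable {d : SCd}

instance : Preorder (SC d) where
  le a b := b.σ <+: a.σ ∧ b.F ⊆ a.F ∧
    ∀ k v, b.σ.length ≤ k → a.σ[k]? = some v → ∀ z ∈ b.F, d.G z k v
  le_refl a := ⟨List.prefix_rfl, List.Subset.refl _, fun k v h1 h2 =>
    absurd (List.getElem?_eq_some_iff.1 h2).1 (not_lt.2 h1)⟩
  le_trans a b c h h' := ⟨h'.1.trans h.1, List.Subset.trans h'.2.1 h.2.1, fun k v h1 h2 z hz => by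
    rcases le_or_gt b.σ.length k with h3 | h3
    · exact h.2.2 k v h3 h2 z (h'.2.1 hz)
    · have h4 := List.getElem?_eq_getElem h3
      exact h'.2.2 k v h1 (h4.trans ((pre_get h.1 h4).symm.trans h2)) z hz⟩

instance : Nonempty (SC d) :=
  let ⟨a, ha⟩ := d.big 0; ⟨⟨List.replicate a 0, [], by simpa using ha⟩⟩

theorem SC.le_same {a b : SC d} (h : a.σ = b.σ) (h' : b.F ⊆ a.F) : a ≤ b :=
  ⟨h ▸ List.prefix_rfl, h', fun k v h1 h2 =>
    absurd (List.getElem?_eq_some_iff.1 h2).1 (not_lt.2 (h ▸ h1))⟩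

theorem SC.long (r : SC d) (n : ℕ) : ∃ r' ≤ r, n ≤ r'.σ.length ∧ r'.F = r.F := by
  induction n with
  | zero => exact ⟨r, le_rfl, Nat.zero_le _, rfl⟩
  | succ n ih =>
    obtain ⟨a, h1, h2, h3⟩ := ih
    obtain ⟨v, hv⟩ := d.ex _ _ a.ok
    refine ⟨⟨a.σ ++ [v], a.F, d.mono a.ok (by simp) le_rfl⟩, le_trans ⟨List.prefix_append _ _,
      List.Subset.refl _, fun k w h4 h5 => ?_⟩ h1, by simpa using h2, h3⟩
    obtain ⟨h6, h7⟩ := List.getElem?_eq_some_iff.1 h5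
    obtain rfl : k = a.σ.length := by simp at h6; omega
    simp at h7
    exact h7 ▸ hv

def scG (d : SCd) : GenR (SC d) where
  g r n k := r.σ[n]? = some k
  mono h h1 := pre_get h.1 h1
  func h h' := Option.some.inj (h.symm.trans h')
  dense r n := let ⟨r', h1, h2, _⟩ := r.long (n + 1); ⟨r', h1, _, List.getElem?_eq_getElem h2⟩

theorem m_ev (d : SCd) (z : R) : Measurable fun v : R => ∃ m, ∀ k ≥ m, d.G z k (v k) :=
  Measurable.exists fun _ => Measurable.forall fun k => Measurable.forall fun _ =>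
    (Measurable.of_discrete (f := d.G z k)).comp (measurable_pi_apply k)

theorem sc_in (d : SCd) : In (scG d).name fun z v => ∃ m, ∀ k ≥ m, d.G z k (v k) := fun z =>
  force_top (m_ev d z) fun r => by
    obtain ⟨a, ha⟩ := d.big (r.F.length + 1)
    obtain ⟨r1, h1, h2, h3⟩ := r.long a
    refine ⟨⟨r1.σ, z :: r1.F, d.mono ha h2 (by simp [h3])⟩,
      le_trans (SC.le_same (b := r1) rfl (List.subset_cons_self _ _)) h1, fun v hv => ⟨r1.σ.length,
        fun k hk => ?_⟩⟩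
    obtain ⟨r', h4, h5⟩ := GenR.poss hv (k + 1)
    exact h4.2.2 k _ hk (h5 k k.lt_succ_self) z List.mem_cons_self

theorem lk_sc : Lk (SC d) := by
  refine ⟨List ℕ, inferInstance, fun σ => {r | r.σ = σ ∧ d.ok σ.length (2 * r.F.length)},
    ?_, fun r => ?_⟩
  · rintro σ p ⟨h1, h2⟩ q ⟨h3, h4⟩
    refine ⟨⟨σ, p.F ++ q.F, ?_⟩, SC.le_same h1.symm (by simp), SC.le_same h3.symm (by simp)⟩
    rcases le_total p.F.length q.F.length with h | h
    · exact d.mono h4 le_rfl (by simp; omega)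
    · exact d.mono h2 le_rfl (by simp; omega)
  · obtain ⟨a, ha⟩ := d.big (2 * r.F.length)
    obtain ⟨r1, h1, h2, h3⟩ := r.long a
    exact ⟨r1, h1, _, rfl, d.mono ha h2 (by rw [h3])⟩

/-! ### Universal meager forcing -/

def um : SCd where
  G z k v := z k ≤ v ∧ ∃ u, str k <+: u ∧ u ++ str (z (encode u)) <+: str k ++ str v
  ok _ _ := True
  mono _ _ _ := trivial
  big _ := ⟨0, trivial⟩
  ex k F _ := by
    have : ∃ t : List Bool, ∀ z ∈ F, z k ≤ t.length ∧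
        ∃ u, str k <+: u ∧ u ++ str (z (encode u)) <+: str k ++ t := by
      induction F with
      | nil => exact ⟨[], by simp⟩
      | cons z F ih =>
        obtain ⟨t, ht⟩ := ih
        refine ⟨t ++ (str (z (encode (str k ++ t))) ++ List.replicate (z k) false), ?_⟩
        simp only [List.mem_cons, forall_eq_or_imp]
        refine ⟨⟨by simp; omega, str k ++ t, List.prefix_append _ _, ?_⟩, fun w hw => ?_⟩
        · rw [← List.append_assoc, ← List.append_assoc]; exact List.prefix_append _ _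
        · obtain ⟨h1, u, h2, h3⟩ := ht w hw
          refine ⟨by simp; omega, u, h2, h3.trans ?_⟩
          rw [← List.append_assoc]; exact List.prefix_append _ _
    obtain ⟨t, ht⟩ := this
    exact ⟨encode t, fun z hz => ⟨(ht z hz).1.trans (length_le_encode t), by
      simpa using (ht z hz).2⟩⟩

theorem um_H {z v w : R} (h : ∃ m, ∀ k ≥ m, um.G z k (v k)) (h' : InM w z) : InM w v := by
  obtain ⟨m, hm⟩ := h
  obtain ⟨m', hm'⟩ := h'
  refine ⟨max m m', fun n hn h1 => ?_⟩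
  obtain ⟨-, u, h2, h3⟩ := hm (encode (init w n))
    (((le_max_left _ _).trans hn).trans (by simpa using length_le_encode (init w n)))
  rw [str_encode] at h2 h3
  have h4 := Ext.of_prefix h1 h3
  refine hm' u.length (((le_max_right _ _).trans hn).trans (by simpa using h2.length_le)) ?_
  unfold MatchM
  rwa [(h4.of_prefix (List.prefix_append _ _)).init]

theorem um_R : Out (RO (SC um)) fun z v => InN v z := out_of_top fun y => by
  have key : ∀ (σ : List ℕ) n, ∃ s : List Bool, s.length = n ∧ ∀ r : SC um, r.σ = σ →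
      ∃ r' ≤ r, ∃ v, (∀ i < n, r' ∈ y.val i (v i)) ∧ init v n = s := by
    intro σ n
    by_contra! hc
    choose! r h1 h2 using hc
    obtain ⟨r', h3, v, h4⟩ := y.decs n ⟨σ, (allS n).flatMap fun s => (r s).F, trivial⟩
    exact h2 _ (length_init v n) r' (h3.trans (SC.le_same (h1 _ (length_init v n)).symm
      fun z hz => List.mem_flatMap.2 ⟨_, mem_allS.2 (length_init v n), hz⟩)) v h4 rfl
  choose s h1 h2 using key
  obtain ⟨e, he⟩ := exists_enum (List ℕ)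
  refine ⟨fun n => encode [s (e n) n], force_all (fun m => Measurable.exists fun n =>
    measurable_const.and (m_r (op_hit n).meas _)) fun m r => ?_⟩
  obtain ⟨n, h3, h4⟩ := he r.σ m
  obtain ⟨r', h5, v, h6, h7⟩ := h2 _ n r h4.symm
  refine ⟨r', h5, fun w hw => ⟨n, h3, hit_cN ?_⟩⟩
  rw [cN, init_congr fun i hi => hw.eq (h6 i hi), h7]

/-! ### Localization forcing -/

def wt (L : List (List Bool)) : ℚ := (L.map fun s => (1 / 2 : ℚ) ^ s.length).sum

def loc : SCd where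
  G z k v := wt (strs v) ≤ (1 / 2) ^ k ∧
    ∀ n, n = 2 * k + 1 ∨ n = 2 * k + 2 → wt (strs (z n)) ≤ (1 / 2) ^ n → strs (z n) ⊆ strs v
  ok a b := b ≤ a
  mono h1 h2 h3 := h3.trans (h1.trans h2)
  big b := ⟨b, le_rfl⟩
  ex k F h := by
    have one : ∀ (z : R) n, ∃ L, wt L ≤ (1 / 2) ^ n ∧
        (wt (strs (z n)) ≤ (1 / 2) ^ n → strs (z n) ⊆ L) := fun z n => by
      by_cases h : wt (strs (z n)) ≤ (1 / 2) ^ n
      · exact ⟨_, h, fun _ => List.Subset.refl _⟩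
      · exact ⟨[], by simp [wt], fun h' => (h h').elim⟩
    have : ∃ L, wt L ≤ F.length * (1 / 2) ^ (2 * k) ∧ ∀ z ∈ F, ∀ n, n = 2 * k + 1 ∨ n = 2 * k + 2 →
        wt (strs (z n)) ≤ (1 / 2) ^ n → strs (z n) ⊆ L := by
      clear h
      induction F with
      | nil => exact ⟨[], by simp [wt], by simp⟩
      | cons z F ih =>
        obtain ⟨L, h1, h2⟩ := ih
        obtain ⟨L1, h3, h4⟩ := one z (2 * k + 1)
        obtain ⟨L2, h5, h6⟩ := one z (2 * k + 2)
        refine ⟨L1 ++ L2 ++ L, ?_, ?_⟩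
        · have : wt (L1 ++ L2 ++ L) = wt L1 + wt L2 + wt L := by simp [wt, add_assoc]
          have h7 : (0 : ℚ) ≤ (1 / 2) ^ (2 * k) := by positivity
          rw [pow_succ] at h3
          rw [pow_add] at h5
          rw [this, List.length_cons]
          push_cast
          linarith
        · rw [List.forall_mem_cons]
          refine ⟨?_, fun w hw n h7 h8 => List.subset_append_of_subset_right _ (h2 w hw n h7 h8)⟩
          rintro n (rfl | rfl) h7
          · exact List.subset_append_of_subset_left _ (List.subset_append_of_subset_left _ (h4 h7))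
          · exact List.subset_append_of_subset_left _ (List.subset_append_of_subset_right _ (h6 h7))
    obtain ⟨L, h1, h2⟩ := this
    refine ⟨encode L, fun z hz => ⟨?_, by simpa using h2 z hz⟩⟩
    rw [strs_encode]
    refine h1.trans ?_
    rw [two_mul, pow_add, ← mul_assoc]
    refine mul_le_of_le_one_left (by positivity) ?_
    rw [one_div, inv_pow, mul_inv_le_iff₀ (by positivity), one_mul]
    exact_mod_cast h.trans Nat.lt_two_pow_self.le

theorem loc_A {z v w : R} (h : ∃ m, ∀ k ≥ m, loc.G z k (v k)) (h' : InN w z) : InN w v := by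
  obtain ⟨m, hm⟩ := h
  intro m'
  obtain ⟨n, h1, h2, s, h3, h4⟩ := h' (2 * (m + m') + 1)
  obtain ⟨h5, h6⟩ := hm ((n - 1) / 2) (by omega)
  exact ⟨(n - 1) / 2, by omega, h5, s, h6 n (by omega) h2 h3, h4⟩

end Pool.Agent.Lib.MP_719972_lc
end

-- part Pool.Agent.Lib.MP_719972_lc.Rand
section

/-! Random forcing. -/

namespace Pool.Agent.Lib.MP_719972_lc

open Pool.Agent.Shared.Forcing Set MeasureTheory Filter
open scoped ENNReal symmDiff

structure Ra where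
  s : Set R
  m : MeasurableSet s
  pos : mu s ≠ 0

instance : Preorder Ra where
  le a b := a.s ⊆ b.s
  le_refl _ := Subset.rfl
  le_trans _ _ _ := Subset.trans

instance : Nonempty Ra := ⟨⟨univ, MeasurableSet.univ, by simp⟩⟩

theorem Ra.piece (A : Ra) {φ : ℕ → R → Prop} (hm : ∀ m, Measurable (φ m))
    (h : ∀ᵐ w ∂mu, ∃ m, φ m w) : ∃ m, ∃ B ≤ A, ∀ w ∈ B.s, φ m w := by
  by_contra hc
  refine A.pos (measure_mono_null (t := {w | ¬ ∃ m, φ m w} ∪ ⋃ m, A.s ∩ {w | φ m w})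
    (fun w hw => ?_) (measure_union_null h (measure_iUnion_null fun m => ?_)))
  · by_cases h1 : ∃ m, φ m w
    · exact let ⟨m, h2⟩ := h1; Or.inr (mem_iUnion.2 ⟨m, hw, h2⟩)
    · exact Or.inl h1
  · by_contra h1
    exact hc ⟨m, ⟨_, A.m.inter (hm m).setOf, h1⟩, inter_subset_left, fun w hw => hw.2⟩

theorem Ra.ex (A : Ra) {φ : R → Prop} (h : ∀ᵐ w ∂mu, w ∈ A.s → φ w) : ∃ w ∈ A.s, φ w := by
  by_contra hc
  exact A.pos (measure_mono_null (t := {w | ¬ (w ∈ A.s → φ w)})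
    (fun w hw h1 => hc ⟨w, hw, h1 hw⟩) h)

def raG : GenR Ra where
  g A n k := ∀ w ∈ A.s, w n = k
  mono h h1 w hw := h1 w (h hw)
  func := fun {A _ _ _} h h' =>
    let ⟨w, hw⟩ := nonempty_of_measure_ne_zero A.pos; (h w hw).symm.trans (h' w hw)
  dense A n :=
    let ⟨k, B, h1, h2⟩ := A.piece (φ := fun k w => w n = k) (fun _ => by fun_prop)
      (Eventually.of_forall fun _ => ⟨_, rfl⟩)
    ⟨B, h1, k, h2⟩

theorem ae_not_inN (y : R) : ∀ᵐ x ∂mu, ¬ InN x y := measure_eq_zero_iff_ae_notMem.1 (mu_inN y)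

theorem not_inN_iff {a b : R} : ¬ InN a b ↔ ∃ m, ∀ n ≥ m, ¬ HitN n a b := by simp [InN]

theorem ra_R : In raG.name fun z v => ¬ InN v z := fun z =>
  force_top (m_r m_InN z).not fun A => by
    obtain ⟨m, B, h1, h2⟩ := A.piece (φ := fun m w => ∀ n ≥ m, ¬ HitN n w z)
      (fun m => Measurable.forall fun n => Measurable.forall fun _ => (m_r (op_hit n).meas z).not)
      ((ae_not_inN z).mono fun _ => not_inN_iff.1)
    refine ⟨B, h1, fun v hv => not_inN_iff.2 ⟨m, fun n hn h3 => ?_⟩⟩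
    obtain ⟨N, hN⟩ := op_hit n v z h3
    obtain ⟨C, h4, h5⟩ := GenR.poss hv N
    obtain ⟨w, hw⟩ := nonempty_of_measure_ne_zero C.pos
    exact h2 w (h4 hw) n hn (hN w z fun i hi => ⟨h5 i hi w hw, rfl⟩)

theorem Ra.cp {A B : Ra} : Cp A B ↔ mu (A.s ∩ B.s) ≠ 0 :=
  ⟨fun ⟨C, h1, h2⟩ h => C.pos (measure_mono_null (subset_inter h1 h2) h),
    fun h => ⟨⟨_, A.m.inter B.m, h⟩, inter_subset_left, inter_subset_right⟩⟩

theorem lk_ra : Lk Ra := by
  obtain ⟨𝒜, h1, h2⟩ := exists_countable_measureDense mu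
  have := h1.to_subtype
  refine ⟨𝒜 × ℚ, inferInstance, fun j => {A | mu (A.s ∆ j.1.1) < ENNReal.ofReal j.2 ∧
    ENNReal.ofReal j.2 + ENNReal.ofReal j.2 ≤ mu A.s}, ?_, fun A => ?_⟩
  · rintro ⟨C, q⟩ A ⟨h3, h4⟩ B ⟨h5, -⟩
    refine Ra.cp.2 fun h => absurd h4 (not_le.2 (lt_of_le_of_lt ?_ (ENNReal.add_lt_add h3 h5)))
    refine (measure_mono (t := A.s ∩ B.s ∪ (A.s ∆ C.1 ∪ B.s ∆ C.1)) fun w hw => ?_).trans
      ((measure_union_le _ _).trans (by rw [h, zero_add]; exact measure_union_le _ _))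
    simp only [mem_union, mem_inter_iff, mem_symmDiff]
    tauto
  · have h3 : 0 < (mu A.s).toReal / 2 := half_pos (ENNReal.toReal_pos A.pos (measure_ne_top _ _))
    obtain ⟨q, h4, h5⟩ := exists_rat_btwn h3
    obtain ⟨C, h6, h7⟩ := h2.approx _ A.m (measure_ne_top _ _) q h4
    refine ⟨A, le_rfl, (⟨C, h6⟩, q), h7, ?_⟩
    rw [← ENNReal.ofReal_add h4.le h4.le]
    exact ENNReal.ofReal_le_of_le_toReal (by linarith)

theorem ra_rep (y : Name (RO Ra)) : ∃ Y : R → R, Measurable Y ∧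
    ∀ (A : Ra) v, Poss y A v → ∀ n, ∃ w ∈ A.s, Y w n = v n := by
  classical
  obtain ⟨J, _, E, h1, h2⟩ := lk_ra
  have h3 : ∀ n j, ∃ c : Ra, (∃ r ∈ E j, ∃ k, r ∈ y.val n k) → c ∈ E j ∧ ∃ k, c ∈ y.val n k :=
    fun n j => by
      by_cases h : ∃ r ∈ E j, ∃ k, r ∈ y.val n k
      · exact let ⟨r, hr⟩ := h; ⟨r, fun _ => hr⟩
      · exact ⟨Classical.arbitrary _, fun h' => (h h').elim⟩
  choose c hc using h3
  let B : ℕ → ℕ → Set R := fun n k => ⋃ j, ⋃ _ : c n j ∈ y.val n k, (c n j).s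
  have h4 : ∀ n k, MeasurableSet (B n k) := fun n k =>
    MeasurableSet.iUnion fun j => MeasurableSet.iUnion fun _ => (c n j).m
  have h5 : ∀ n, mu (⋃ k, B n k)ᶜ = 0 := fun n => by
    by_contra h
    obtain ⟨r, h6, k, h7⟩ := y.dec n ⟨_, (MeasurableSet.iUnion (h4 n)).compl, h⟩
    obtain ⟨r', h8, j, h9⟩ := h2 r
    obtain ⟨h10, k', h11⟩ := hc n j ⟨r', h9, k, RO.mono h7 h8⟩
    obtain ⟨w, h12, h13⟩ := nonempty_of_measure_ne_zero (Ra.cp.1 (h1 j _ h9 _ h10))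
    exact h6 (h8 h12) (mem_iUnion.2 ⟨k', mem_iUnion₂.2 ⟨j, h11, h13⟩⟩)
  have h6 : ∀ n w, ∃ k, w ∈ B n k ∨ w ∈ (⋃ k, B n k)ᶜ := fun n w => by
    by_cases h : w ∈ ⋃ k, B n k
    · exact let ⟨k, hk⟩ := mem_iUnion.1 h; ⟨k, Or.inl hk⟩
    · exact ⟨0, Or.inr h⟩
  refine ⟨fun w n => Nat.find (h6 n w), measurable_pi_lambda _ fun n => measurable_find _
    fun k => (h4 n k).union (MeasurableSet.iUnion (h4 n)).compl, fun A v hv n => ?_⟩
  obtain ⟨A', h7, h8⟩ := hv (n + 1)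
  have h9 : ∀ᵐ w ∂mu, ∀ j k, c n j ∈ y.val n k → k ≠ v n → w ∉ A'.s ∩ (c n j).s :=
    ae_all_iff.2 fun j => ae_all_iff.2 fun k => ae_all_iff.2 fun h10 => ae_all_iff.2 fun h11 =>
      measure_eq_zero_iff_ae_notMem.1 (by
        by_contra h
        obtain ⟨r, h12, h13⟩ := Ra.cp.2 h
        exact h11 (y.func (RO.mono h10 h13) (RO.mono (h8 n n.lt_succ_self) h12)))
  obtain ⟨w, h10, h11⟩ := A'.ex (φ := fun w => Nat.find (h6 n w) = v n) (by
    filter_upwards [h9, measure_eq_zero_iff_ae_notMem.1 (h5 n)] with w h12 h13 h14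
    obtain ⟨j, h15, h16⟩ := mem_iUnion₂.1 ((Nat.find_spec (h6 n w)).resolve_right h13)
    by_contra h17
    exact h12 j _ h15 h17 ⟨h14, h16⟩)
  exact ⟨w, h7 h10, h11⟩

theorem ra_out (φ : R → ℕ → ℕ → Prop)
    (h : ∀ Y : R → R, Measurable Y → ∃ z, ∀ᵐ w ∂mu, ∃ m, ∀ n ≥ m, φ z n (Y w n)) :
    Out (RO Ra) fun z v => ∃ m, ∀ n ≥ m, φ z n (v n) := out_of_top fun y => by
  obtain ⟨Y, h1, h2⟩ := ra_rep y
  obtain ⟨z, hz⟩ := h Y h1
  have h3 : ∀ m, Measurable fun v : R => ∀ n ≥ m, φ z n (v n) := fun m =>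
    Measurable.forall fun n => Measurable.forall fun _ =>
      (Measurable.of_discrete (f := φ z n)).comp (measurable_pi_apply n)
  refine ⟨z, force_top (Measurable.exists h3) fun A => ?_⟩
  obtain ⟨m, B, h4, h5⟩ := A.piece (fun m => (h3 m).comp h1) hz
  refine ⟨B, h4, fun v hv => ⟨m, fun n hn => ?_⟩⟩
  obtain ⟨w, h6, h7⟩ := h2 B v hv n
  exact h7 ▸ h5 w h6 n hn

theorem ra_Unb : Out (RO Ra) fun z v => Le v z := ra_out (fun z n k => k ≤ z n) fun Y hY => by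
  have h1 : ∀ n, ∃ k, mu {w | k < Y w n} ≤ 2⁻¹ ^ n := fun n => by
    have h2 := tendsto_measure_iInter_atTop (μ := mu) (s := fun k => {w | k < Y w n})
      (fun k => (measurableSet_lt measurable_const ((measurable_pi_apply n).comp hY)).nullMeasurableSet)
      (fun a b h w hw => h.trans_lt hw) ⟨0, measure_ne_top _ _⟩
    rw [show ⋂ k, {w | k < Y w n} = ∅ from
      eq_empty_of_forall_notMem fun w hw => lt_irrefl (Y w n) (mem_iInter.1 hw (Y w n)),
      measure_empty] at h2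
    exact (h2.eventually (eventually_le_nhds (ENNReal.pow_pos (by simp) n))).exists
  choose z hz using h1
  refine ⟨z, (ae_eventually_notMem (ne_top_of_le_ne_top ?_ (ENNReal.tsum_le_tsum hz))).mono
    fun w hw => by simpa using hw⟩
  simp

theorem ra_Nul : Out (RO Ra) fun z v => ¬ InN z v := by
  simp only [not_inN_iff]
  refine ra_out (fun z n k => ¬ HitN n z fun _ => k) fun Y hY => ?_
  obtain ⟨z, hz⟩ := ((Measure.ae_ae_comm (μ := mu) (ν := mu) (p := fun w z => ¬ InN z (Y w))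
    (meas₂ m_InN measurable_snd (hY.comp measurable_fst)).not.setOf).1
      (Eventually.of_forall fun w => ae_not_inN _)).exists
  exact ⟨z, hz.mono fun w => not_inN_iff.1⟩

end Pool.Agent.Lib.MP_719972_lc
end

-- part Pool.Agent.Lib.MP_719972_lc.Laver
section

/-! A version of Laver forcing. -/

namespace Pool.Agent.Lib.MP_719972_lc

open Pool.Agent.Shared.Forcing Set MeasureTheory
open scoped ENNReal

universe u

/-- Systems of infinite sets, ordered by inclusion modulo finite sets. -/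
structure Sy where
  A : List ℕ → Set ℕ
  inf : ∀ t, (A t).Infinite

instance : Preorder Sy where
  le a b := ∀ t, (a.A t \ b.A t).Finite
  le_refl a t := by simp
  le_trans a b c h h' t := ((h t).union (h' t)).subset fun x hx => by
    by_cases h1 : x ∈ b.A t
    exacts [Or.inr ⟨h1, hx.2⟩, Or.inl ⟨hx.1, h1⟩]

instance : Nonempty Sy := ⟨⟨fun _ => univ, fun _ => infinite_univ⟩⟩

theorem inf_of_diff {X Y : Set ℕ} (h : X.Infinite) (h' : (X \ Y).Finite) : (X ∩ Y).Infinite :=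
  fun h1 => h ((h1.union h').subset fun x hx => by
    by_cases h2 : x ∈ Y
    exacts [Or.inl ⟨hx, h2⟩, Or.inr ⟨hx, h2⟩])

theorem Sy.closed (a : ℕ → Sy) (h : Antitone a) : ∃ b, ∀ n, b ≤ a n := by
  have h1 : ∀ t n, ∃ x ≥ n, ∀ i ≤ n, x ∈ (a i).A t := fun t n => by
    obtain ⟨x, h2, h3⟩ := (((a n).inf t).sdiff ((finite_Iic n).biUnion fun i hi =>
      h (show i ≤ n from hi) t)).exists_gt n
    refine ⟨x, h3.le, fun i hi => ?_⟩
    by_contra h4
    exact h2.2 (mem_iUnion₂.2 ⟨i, hi, h2.1, h4⟩)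
  choose x h2 h3 using h1
  refine ⟨⟨fun t => range (x t), fun t => infinite_of_forall_exists_gt fun n =>
    ⟨_, ⟨n + 1, rfl⟩, h2 t (n + 1)⟩⟩, fun n t => ((finite_Iio n).image (x t)).subset ?_⟩
  rintro _ ⟨⟨i, rfl⟩, h4⟩
  exact ⟨i, not_le.1 fun h5 => h4 (h3 t i n h5), rfl⟩

structure Lv where
  s : List ℕ
  a : Sy

instance : Preorder Lv where
  le p q := q.s <+: p.s ∧ (∀ i v, q.s.length ≤ i → p.s[i]? = some v → v ∈ q.a.A (p.s.take i)) ∧
    ∀ u, p.s <+: u → p.a.A u ⊆ q.a.A u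
  le_refl p := ⟨List.prefix_rfl, fun i v h1 h2 =>
    absurd (List.getElem?_eq_some_iff.1 h2).1 (not_lt.2 h1), fun _ _ => Subset.rfl⟩
  le_trans p q r h h' := ⟨h'.1.trans h.1, fun i v h1 h2 => by
    rcases le_or_gt q.s.length i with h3 | h3
    · exact h'.2.2 _ (List.prefix_take_iff.2 ⟨h.1, h3⟩) (h.2.1 i v h3 h2)
    · have h4 := List.getElem?_eq_getElem h3
      have h5 := h'.2.1 i v h1 (h4.trans ((pre_get h.1 h4).symm.trans h2))
      obtain ⟨w, hw⟩ := h.1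
      rwa [← hw, List.take_append_of_le_length h3.le],
    fun u hu => (h.2.2 u hu).trans (h'.2.2 u (h.1.trans hu))⟩

instance : Nonempty Lv := ⟨⟨[], Classical.arbitrary _⟩⟩

theorem Lv.le_same {s : List ℕ} {a b : Sy} (h : ∀ u, s <+: u → a.A u ⊆ b.A u) :
    (⟨s, a⟩ : Lv) ≤ ⟨s, b⟩ := ⟨List.prefix_rfl, (le_refl (⟨s, b⟩ : Lv)).2.1, h⟩

theorem Lv.step {s : List ℕ} {a : Sy} {v : ℕ} (h : v ∈ a.A s) : (⟨s ++ [v], a⟩ : Lv) ≤ ⟨s, a⟩ := by
  refine ⟨List.prefix_append _ _, fun k w h4 h5 => ?_, fun _ _ => Subset.rfl⟩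
  obtain ⟨h6, h7⟩ := List.getElem?_eq_some_iff.1 h5
  obtain rfl : k = s.length := by simp at h6 h4; omega
  simp at h7
  simpa [← h7] using h

theorem Lv.long (p : Lv) (n : ℕ) : ∃ q ≤ p, n ≤ q.s.length := by
  induction n with
  | zero => exact ⟨p, le_rfl, Nat.zero_le _⟩
  | succ n ih =>
    obtain ⟨q, h1, h2⟩ := ih
    obtain ⟨v, hv⟩ := (q.a.inf q.s).nonempty
    exact ⟨_, (Lv.step hv).trans h1, by simpa using h2⟩

def lvG : GenR Lv where
  g r n k := r.s[n]? = some k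
  mono h h1 := pre_get h.1 h1
  func h h' := Option.some.inj (h.symm.trans h')
  dense r n := let ⟨r', h1, h2⟩ := r.long (n + 1); ⟨r', h1, _, List.getElem?_eq_getElem h2⟩

theorem lv_Dom : In lvG.name Le := fun z => force_top (m_l m_Le z) fun p => by
  refine ⟨⟨p.s, fun t => p.a.A t \ Iio (z t.length), fun t => (p.a.inf t).sdiff (finite_Iio _)⟩,
    Lv.le_same fun _ _ => sdiff_subset, fun v hv => ⟨p.s.length, fun n hn => ?_⟩⟩
  obtain ⟨r, h1, h2⟩ := GenR.poss hv (n + 1)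
  have h3 := h2 n n.lt_succ_self
  simpa [(List.getElem?_eq_some_iff.1 h3).1.le] using (h1.2.1 n _ hn h3).2

theorem Good.laver {P : Type} [Preorder P] (h : Good.{u} (P × Sy)) : Good.{u} (P × Lv) := by
  classical
  refine h.linked (J := List ℕ)
    (fun s c p => c.1 ≤ p.1 ∧ p.2.s = s ∧ ∀ t, s <+: t → (c.2.A t \ p.2.a.A t).Finite)
    (fun s a b p h1 h2 => ⟨h1.1.trans h2.1, h2.2.1, fun t ht =>
      ((h1.2 t).union (h2.2.2 t ht)).subset fun x hx => by
        by_cases h3 : x ∈ a.2.A t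
        exacts [Or.inr ⟨h3, hx.2⟩, Or.inl ⟨hx.1, h3⟩]⟩) ?_
    fun p => ⟨(p.1, p.2.a), fun b hb => ⟨(b.1, ⟨p.2.s, fun t => b.2.A t ∩ p.2.a.A t,
      fun t => inf_of_diff (b.2.inf t) (hb.2 t)⟩), ⟨hb.1, Lv.le_same fun _ _ => inter_subset_right⟩,
      fun q hq => ⟨q, le_rfl, q.2.s, (q.1, ⟨fun t => if q.2.s <+: t then q.2.a.A t else b.2.A t,
        fun t => by split_ifs; exacts [q.2.a.inf t, b.2.inf t]⟩), ⟨hq.1, fun t => ?_⟩, le_rfl, rfl,
        fun t ht => by simp [ht]⟩⟩⟩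
  · rintro s c ⟨p, s1, a⟩ ⟨q, s2, b⟩ ⟨h1, (rfl : s1 = s), h2⟩ ⟨h3, (rfl : s2 = s1), h4⟩
    refine ⟨(c.1, ⟨s2, fun t => if s2 <+: t then a.A t ∩ b.A t else univ, fun t => ?_⟩),
      ⟨h1, Lv.le_same fun u hu => (if_pos hu).subset.trans inter_subset_left⟩, h3,
        Lv.le_same fun u hu => (if_pos hu).subset.trans inter_subset_right⟩
    split_ifs with ht
    · refine (inf_of_diff (c.2.inf t) (((h2 t ht).union (h4 t ht)).subset fun x hx => ?_)).mono
        inter_subset_right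
      by_cases h5 : x ∈ a.A t
      exacts [Or.inr ⟨hx.1, fun h6 => hx.2 ⟨h5, h6⟩⟩, Or.inl ⟨hx.1, h5⟩]
    · exact infinite_univ
  · dsimp only
    split_ifs with ht
    · rw [sdiff_eq_empty.2 fun x hx => (hq.2.2.2 t ht hx).1]
      exact finite_empty
    · simp

theorem lv_pure (y : Name (RO Lv)) (a : Sy) : ∃ b : Sy, (∀ u, b.A u ⊆ a.A u) ∧
    ∀ t n k c, n ≤ t.length → (⟨t, c⟩ : Lv) ≤ ⟨t, b⟩ → (⟨t, c⟩ : Lv) ∈ y.val n k →
      (⟨t, b⟩ : Lv) ∈ y.val n k := by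
  have h1 : ∀ t (a : Sy), ∃ b : Sy, (⟨t, b⟩ : Lv) ≤ ⟨t, a⟩ ∧ ∀ n : Fin (t.length + 1), ∀ k c,
      (⟨t, c⟩ : Lv) ≤ ⟨t, b⟩ → (⟨t, c⟩ : Lv) ∈ y.val n k → (⟨t, b⟩ : Lv) ∈ y.val n k :=
    fun t => fin_dense (fun b a : Sy => (⟨t, b⟩ : Lv) ≤ ⟨t, a⟩) (fun _ => le_rfl)
      (fun _ _ _ => le_trans) _ (fun n b a h1 h2 k c h3 h4 => RO.mono (h2 k c (h3.trans h1) h4) h1)
      fun n a => by
        by_cases h : ∃ k c, (⟨t, c⟩ : Lv) ≤ ⟨t, a⟩ ∧ (⟨t, c⟩ : Lv) ∈ y.val n k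
        · obtain ⟨k, c, h1, h2⟩ := h
          exact ⟨c, h1, fun k' c' h3 h4 => y.func (RO.mono h2 h3) h4 ▸ h2⟩
        · exact ⟨a, le_rfl, fun k c h1 h2 => (h ⟨k, c, h1, h2⟩).elim⟩
  choose sh h2 h3 using h1
  let f : ℕ → Sy := fun j => Nat.rec a (fun j b => ⟨fun u => (sh (u.take j) b).A u,
    fun u => (sh _ b).inf u⟩) j
  have h4 : ∀ u, Antitone fun j => (f j).A u := fun u => antitone_nat_of_succ_le fun j =>
    (h2 (u.take j) (f j)).2.2 u (List.take_prefix _ _)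
  refine ⟨⟨fun u => (f (u.length + 1)).A u, fun u => (f (u.length + 1)).inf u⟩,
    fun u => h4 u (Nat.zero_le (u.length + 1)), fun t n k c h5 h6 h7 => ?_⟩
  have h8 : (⟨t, fun u => (f (u.length + 1)).A u, fun u => (f (u.length + 1)).inf u⟩ : Lv) ≤
      ⟨t, sh t (f t.length)⟩ := Lv.le_same fun u hu => by
    refine (h4 u (Nat.succ_le_succ hu.length_le)).trans (le_of_eq ?_)
    change (sh (u.take t.length) _).A u = _
    rw [← List.prefix_iff_eq_take.1 hu]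
  exact RO.mono (h3 t _ ⟨n, by omega⟩ k c (h6.trans h8) h7) h8

theorem exhaust {ι : Type} [Countable ι] (su : ι → ℕ → ι) (I : ι → Set ℕ) (hI : ∀ t, (I t).Infinite)
    (c : ι → Set R) {ε : ℝ≥0∞} (hε : ε < 1) (h1 : ∀ t, MeasurableSet (c t)) (h2 : ∀ t, mu (c t) ≤ ε)
    (h3 : ∀ t, ∀ v ∈ I t, c t ⊆ c (su t v)) (s : ι) : ∃ z, ∃ A : Set ι, (∀ t ∈ A, z ∉ c t) ∧ s ∈ A ∧
      ∀ t ∈ A, {v ∈ I t | su t v ∈ A}.Infinite := by
  let Φ : (ι → Set R) → ι → Set R := fun A t => ⋃ m, {x | ∀ v ≥ m, v ∈ I t → x ∈ A (su t v)}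
  have h4 : Monotone Φ := fun A B h t => iUnion_mono fun m x hx v h5 h6 => h _ (hx v h5 h6)
  let F := {A : ι → Set R // (∀ t, MeasurableSet (A t)) ∧ (∀ t, mu (A t) ≤ ε) ∧ A ≤ Φ A}
  obtain ⟨d, h5, h6, h7⟩ := exists_chain (P := Fᵒᵈ) (fun i : ι × ℚ =>
    {A | Real.toNNReal i.2 < mu (A.1 i.1) ∨ ∀ B ≤ A, mu (B.1 i.1) ≤ Real.toNNReal i.2})
    (fun i A => by
      by_cases h : ∀ B ≤ A, mu (B.1 i.1) ≤ Real.toNNReal i.2
      · exact ⟨A, Or.inr h, le_rfl⟩
      · push Not at h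
        exact let ⟨B, h5, h6⟩ := h; ⟨B, Or.inl h6, h5⟩)
    ⟨c, h1, h2, fun t x hx => mem_iUnion.2 ⟨0, fun v _ h => h3 t v h hx⟩⟩
  let U : ι → Set R := fun t => ⋃ n, (d n).1 t
  have h8 : ∀ n, (d n).1 ≤ U := fun n t => subset_iUnion (fun n => (d n).1 t) n
  have h9 : ∀ t, MeasurableSet (U t) := fun t => MeasurableSet.iUnion fun n => (d n).2.1 t
  have h10 : ∀ t, mu (U t) ≤ ε := fun t => by
    rw [Monotone.measure_iUnion fun a b h => h5 h t]
    exact iSup_le fun n => (d n).2.2.1 t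
  have h11 : U ≤ Φ U := fun t => iUnion_subset fun n => ((d n).2.2.2 t).trans (h4 (h8 n) t)
  have h12 : ∀ t, MeasurableSet (Φ U t) := fun t => MeasurableSet.iUnion fun m =>
    (Measurable.forall fun v => Measurable.forall fun _ => Measurable.forall fun _ =>
      (h9 _).mem).setOf
  have h13 : ∀ t, mu (Φ U t) ≤ ε := fun t => by
    rw [Monotone.measure_iUnion (s := fun m => {x | ∀ v ≥ m, v ∈ I t → x ∈ U (su t v)})
      fun a b h x hx v h14 => hx v (h.trans h14)]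
    refine iSup_le fun m => ?_
    obtain ⟨v, h14, h15⟩ := (hI t).exists_gt m
    exact le_trans (measure_mono fun x hx => hx v h15.le h14) (h10 _)
  have h14 : ∀ t, mu (Φ U t \ U t) = 0 := fun t => by
    rw [measure_sdiff (h11 t) (h9 t).nullMeasurableSet (measure_ne_top _ _), tsub_eq_zero_iff_le]
    by_contra h
    obtain ⟨q, -, h15, h16⟩ := ENNReal.lt_iff_exists_rat_btwn.1 (not_le.1 h)
    obtain ⟨n, h17 | h17⟩ := h7 (t, q)
    · exact lt_asymm h15 (h17.trans_le (measure_mono (h8 n t)))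
    · exact absurd (h17 ⟨Φ U, h12, h13, h4 h11⟩ ((h8 n).trans h11)) (not_le.2 h16)
  have h15 : U s ∪ ⋃ t, Φ U t \ U t ≠ univ := fun h => by
    have := (measure_union_le (μ := mu) _ _).trans (add_le_add (h10 s) (measure_iUnion_null h14).le)
    rw [h, measure_univ, add_zero] at this
    exact absurd this (not_le.2 hε)
  obtain ⟨z, hz⟩ := (ne_univ_iff_exists_notMem _).1 h15
  refine ⟨z, {t | z ∉ U t}, fun t ht h => ht (h8 0 t (by rw [h6]; exact h)),
    fun h => hz (Or.inl h), fun t ht => infinite_of_forall_exists_gt fun m => ?_⟩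
  by_contra! h
  refine hz (Or.inr (mem_iUnion.2 ⟨t, mem_iUnion.2 ⟨m + 1, fun v h16 h17 => ?_⟩, ht⟩))
  by_contra h18
  exact absurd (h v ⟨h17, h18⟩) (by omega)

theorem lv_Nul : Out (RO Lv) fun z v => ¬ InN z v :=
  out_of_dense (fun z => (m_l m_InN z).not) fun y p => by
  classical
  obtain ⟨b, h1, h2⟩ := lv_pure y p.a
  obtain ⟨z, A, h3, h4, h5⟩ := exhaust (fun t v => t ++ [v]) b.A b.inf
    (fun t => {x | ∃ n ≥ 1 + 1, ∃ k, (⟨t, b⟩ : Lv) ∈ y.val n k ∧ HitN n x fun _ => k})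
    (ε := 2⁻¹ ^ 1) (by simp)
    (fun t => (Measurable.exists fun n => measurable_const.and (Measurable.exists fun k =>
      measurable_const.and (m_r (op_hit n).meas _))).setOf)
    (fun t => by
      refine le_trans (measure_mono ?_) (mu_hit_tail 1 fun n =>
        if h : ∃ k, (⟨t, b⟩ : Lv) ∈ y.val n k then h.choose else 0)
      rintro x ⟨n, h3, k, h4, h5⟩
      refine ⟨n, h3, ?_⟩
      unfold HitN
      beta_reduce
      have h6 : ∃ k, (⟨t, b⟩ : Lv) ∈ y.val n k := ⟨k, h4⟩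
      rw [dif_pos h6, y.func h6.choose_spec h4]
      exact h5)
    (fun t v hv x ⟨n, h3, k, h4, h5⟩ => ⟨n, h3, k, RO.mono h4 (Lv.step hv), h5⟩) p.s
  let c : Sy := ⟨fun t => if t ∈ A then {v ∈ b.A t | t ++ [v] ∈ A} else b.A t, fun t => by
    split_ifs with h
    exacts [h5 t h, b.inf t]⟩
  have h6 : ∀ u, c.A u ⊆ b.A u := fun u => by
    dsimp only [c]
    split_ifs
    exacts [sep_subset _ _, Subset.rfl]
  refine ⟨⟨p.s, c⟩, Lv.le_same fun u _ => (h6 u).trans (h1 u), z, fun v hv =>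
    not_inN_iff.2 ⟨1 + 1, fun n hn h7 => ?_⟩⟩
  obtain ⟨r, h8, h9⟩ := hv (n + 1)
  obtain ⟨q, h10, h11⟩ := r.long n
  have h12 := h10.trans h8
  have h13 : ∀ i, p.s.length ≤ i → i ≤ q.s.length → q.s.take i ∈ A := fun i hi =>
    Nat.le_induction (fun _ => List.prefix_iff_eq_take.1 h12.1 ▸ h4) (fun i hi ih h => by
      have h14 := h12.2.1 i _ hi (List.getElem?_eq_getElem h)
      dsimp only [c] at h14
      rw [if_pos (ih (Nat.le_of_succ_le h))] at h14
      rw [List.take_succ_eq_append_getElem h]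
      exact h14.2) i hi
  refine h3 q.s (by simpa using h13 _ h12.1.length_le le_rfl) ⟨n, hn, v n, h2 _ n _ q.a h11
    (Lv.le_same fun u hu => (h12.2.2 u hu).trans (h6 u)) (RO.mono (h9 n n.lt_succ_self) h10), h7⟩

end Pool.Agent.Lib.MP_719972_lc
end

-- part Pool.Agent.Lib.MP_719972_lc.Silver
section

/-! The bounded infinitely often equal real forcing. -/

namespace Pool.Agent.Lib.MP_719972_lc

open Pool.Agent.Shared.Forcing Set Encodable

theorem DO.mono {P : Type} [Preorder P] {D : Set P} (h : DO D) {p q : P} (h1 : p ∈ D) (h2 : q ≤ p) :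
    q ∈ D := h.opn h2 h1

structure EE where
  p : (n : ℕ) → Option (Fin n → Bool)
  inf : ∀ m, ∃ n ≥ m, p n = none

instance : Preorder EE where
  le a b := ∀ n v, b.p n = some v → a.p n = some v
  le_refl _ _ _ := id
  le_trans _ _ _ h h' n v h1 := h n v (h' n v h1)

instance : Nonempty EE := ⟨⟨fun _ => none, fun m => ⟨m, le_rfl, rfl⟩⟩⟩

def EE.fill (e : EE) (M : ℕ) (σ : (n : Fin M) → Fin n → Bool) : EE where
  p n := if h : n < M then some ((e.p n).getD (σ ⟨n, h⟩)) else e.p n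
  inf m := let ⟨n, h1, h2⟩ := e.inf (max m M)
    ⟨n, (le_max_left _ _).trans h1, by rw [dif_neg (not_lt.2 ((le_max_right _ _).trans h1)), h2]⟩

theorem EE.fill_le (e : EE) (M σ) : e.fill M σ ≤ e := fun n v h => by
  simp only [fill]
  split_ifs <;> simp [h]

def EE.Lm (M : ℕ) (a b : EE) : Prop := a ≤ b ∧ ∀ n < M, a.p n = b.p n

def EE.Nx (a b : EE × ℕ) : Prop := EE.Lm a.2 b.1 a.1 ∧ ∃ n, a.2 ≤ n ∧ n < b.2 ∧ b.1.p n = none

theorem EE.step {X : Type} [Preorder X] {D : Set (X × EE)} (hD : DO D) (x : X) (a : EE × ℕ) :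
    ∃ x' ≤ x, ∃ b, EE.Nx a b ∧ ∃ F : Set EE, F.Finite ∧ (∀ f ∈ F, (x', f) ∈ D) ∧
      ∀ g ≤ b.1, ∃ f ∈ F, Cp g f := by
  obtain ⟨⟨x', e⟩, ⟨h1, h2⟩, h3⟩ := fin_dense (fun c d : X × EE => c.1 ≤ d.1 ∧ EE.Lm a.2 c.2 d.2)
    (fun _ => ⟨le_rfl, le_rfl, fun _ _ => rfl⟩)
    (fun _ _ _ h h' => ⟨h.1.trans h'.1, h.2.1.trans h'.2.1,
      fun n hn => (h.2.2 n hn).trans (h'.2.2 n hn)⟩)
    (fun σ c => (c.1, c.2.fill a.2 σ) ∈ D)
    (fun σ c d h => hD.opn ⟨h.1, fun n v h1 => by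
      simp only [fill] at h1 ⊢
      split_ifs at h1 ⊢ with h2
      exacts [h.2.2 n h2 ▸ h1, h.2.1 n v h1]⟩)
    (fun σ c => by
      obtain ⟨⟨x', f⟩, h1, h2⟩ := hD.dense (c.1, c.2.fill a.2 σ)
      refine ⟨(x', ⟨fun n => if n < a.2 then c.2.p n else f.p n, fun m => ?_⟩),
        ⟨h1.1, fun n v h3 => ?_, fun n hn => if_pos hn⟩, hD.mono h2 ⟨le_rfl, fun n v h3 => ?_⟩⟩
      · obtain ⟨n, h3, h4⟩ := f.inf (max m a.2)
        exact ⟨n, (le_max_left _ _).trans h3, by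
          rw [if_neg (not_lt.2 ((le_max_right _ _).trans h3)), h4]⟩
      · dsimp only
        split_ifs
        exacts [h3, h1.2 n v (fill_le _ _ _ n v h3)]
      · simp only [fill]
        split_ifs with h4
        exacts [(h1.2 n _ (dif_pos h4)).symm.trans h3, h3]) (x, a.1)
  obtain ⟨n, h4, h5⟩ := e.inf a.2
  refine ⟨x', h1, (e, n + 1), ⟨h2, n, h4, n.lt_succ_self, h5⟩, range (e.fill a.2), finite_range _,
    by rintro _ ⟨σ, rfl⟩; exact h3 σ, fun g hg => ⟨_, ⟨fun n => (g.p n).getD default, rfl⟩,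
      g.fill a.2 fun n => (g.p n).getD default, fill_le _ _ _, fun n v h6 => ?_⟩⟩
  simp only [fill] at h6 ⊢
  split_ifs at h6 ⊢ with h7
  · rw [← h6]
    cases h8 : e.p n with
    | none => cases g.p n <;> rfl
    | some w => rw [hg n w h8]
  · exact hg n v h6

theorem EE.fus (a : ℕ → EE × ℕ) (h : ∀ i, EE.Nx (a i) (a (i + 1))) : ∃ q, ∀ i, q ≤ (a i).1 := by
  have h1 : StrictMono fun i => (a i).2 := strictMono_nat_of_lt_succ fun i =>
    let ⟨_, h1, h2, _⟩ := (h i).2; h1.trans_lt h2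
  have h2 : ∀ i j, i ≤ j → EE.Lm (a i).2 (a j).1 (a i).1 := fun i j hj =>
    Nat.le_induction ⟨le_rfl, fun _ _ => rfl⟩ (fun j hj ih => ⟨(h j).1.1.trans ih.1,
      fun n hn => ((h j).1.2 n (hn.trans_le (h1.monotone hj))).trans (ih.2 n hn)⟩) j hj
  have h3 : ∀ i n, n < (a i).2 → (a (n + 1)).1.p n = (a i).1.p n := fun i n hn => by
    rcases le_total i (n + 1) with h4 | h4
    exacts [(h2 _ _ h4).2 n hn, ((h2 _ _ h4).2 n h1.le_apply).symm]
  refine ⟨⟨fun n => (a (n + 1)).1.p n, fun m => ?_⟩, fun i n v h4 => ?_⟩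
  · obtain ⟨n, h4, h5, h6⟩ := (h m).2
    exact ⟨n, h1.le_apply.trans h4, (h3 _ n h5).trans h6⟩
  · exact (h3 (i + (n + 1)) n ((Nat.le_add_left _ _).trans h1.le_apply)).trans
      ((h2 _ _ (Nat.le_add_right _ _)).1 n v h4)

theorem EE.fuse {X : Type} [Preorder X] (D : ℕ → Set (X × EE)) (hD : ∀ i, DO (D i)) (x : X)
    (e : EE) : ∃ q ≤ e, ∀ i, ∃ x', ∀ g ≤ q, ∃ g' ≤ g, (x', g') ∈ D i := by
  choose x' _ nx h1 F _ h2 h3 using fun i => EE.step (hD i) x
  let a : ℕ → EE × ℕ := fun i => Nat.rec (e, 0) nx i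
  obtain ⟨q, hq⟩ := EE.fus a fun i => h1 i (a i)
  refine ⟨q, hq 0, fun i => ⟨x' i (a i), fun g hg => ?_⟩⟩
  obtain ⟨f, h4, w, h5, h6⟩ := h3 i (a i) g (hg.trans (hq (i + 1)))
  exact ⟨w, h5, (hD i).mono (h2 i _ f h4) ⟨le_rfl, h6⟩⟩

def eeG : GenR EE where
  g e n k := ∃ v, e.p n = some v ∧ k = encode [List.ofFn v]
  mono h := fun ⟨v, h1, h2⟩ => ⟨v, h _ v h1, h2⟩
  func := fun ⟨_, h1, h2⟩ ⟨_, h3, h4⟩ => by rw [h2, h4, Option.some.inj (h1.symm.trans h3)]
  dense e n := ⟨e.fill (n + 1) default, e.fill_le _ _, _, _, dif_pos n.lt_succ_self, rfl⟩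

theorem ee_Nul : In eeG.name InN := fun z => force_all (fun m => Measurable.exists fun n =>
    measurable_const.and (m_l (op_hit n).meas _)) fun m e => by
  obtain ⟨n, h1, h2⟩ := e.inf m
  refine ⟨e.fill (n + 1) fun _ j => (z j).bodd, e.fill_le _ _, fun v hv => ⟨n, h1, hit_cN
    (GenR.eq hv ⟨_, dif_pos n.lt_succ_self, ?_⟩)⟩⟩
  rw [h2]; rfl

structure Bs where
  s : List Bool

instance : Preorder Bs where
  le a b := b.s <+: a.s
  le_refl _ := List.prefix_rfl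
  le_trans _ _ _ h h' := h'.trans h

theorem m_um (z : R) : Measurable fun v : R => ∀ k, um.G v k (z k) :=
  Measurable.forall fun k => Measurable.and (by fun_prop) (Measurable.exists fun u =>
    measurable_const.and ((Measurable.of_discrete
      (f := fun j => u ++ str j <+: str k ++ str (z k))).comp (measurable_pi_apply (encode u))))

theorem ee_out : Out (RO EE) fun z v => ∀ k, um.G v k (z k) := out_of_dense m_um fun y e => by
  obtain ⟨q, h1, h2⟩ := EE.fuse (fun k => {c : Bs × EE | (∃ j ≤ c.1.s.length, c.2 ∈ y.val k j) ∧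
      ∃ u, str k <+: u ∧ ∃ j, c.2 ∈ y.val (encode u) j ∧ u ++ str j <+: str k ++ c.1.s})
    (fun k => ⟨fun h ⟨⟨j, h1, h2⟩, u, h3, j', h4, h5⟩ => ⟨⟨j, h1.trans (List.IsPrefix.length_le h.1),
      RO.mono h2 h.2⟩, u, h3, j', RO.mono h4 h.2, h5.trans ((List.prefix_append_right_inj _).2 h.1)⟩,
      fun ⟨t, f⟩ => by
        obtain ⟨f1, h1, j, h2⟩ := y.dec k f
        obtain ⟨f2, h3, j', h4⟩ := y.dec (encode (str k ++ t.s)) f1
        refine ⟨(⟨t.s ++ (str j' ++ List.replicate j false)⟩, f2),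
          ⟨List.prefix_append _ _, h3.trans h1⟩, ⟨j, by simp; omega, RO.mono h2 h3⟩, _,
          List.prefix_append _ _, j', h4, ?_⟩
        rw [← List.append_assoc, ← List.append_assoc]; exact List.prefix_append _ _⟩) ⟨[]⟩ e
  choose t ht using h2
  refine ⟨q, h1, fun k => encode (t k).s, fun v hv k => ?_⟩
  obtain ⟨r, h3, h4⟩ := hv (k + ((str k ++ (t k).s).inits.map encode).sum + 1)
  obtain ⟨g, h5, ⟨j, h6, h7⟩, u, h8, j', h9, h10⟩ := ht k r h3
  dsimp only at h6 h7 h9 h10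
  have h11 := List.le_sum_of_mem (List.mem_map_of_mem (f := encode)
    ((List.mem_inits _ _).2 ((List.prefix_append _ _).trans h10)))
  refine ⟨?_, u, h8, ?_⟩
  · rw [y.func (RO.mono (h4 k (by omega)) h5) h7]
    exact h6.trans (length_le_encode _)
  · rwa [y.func (RO.mono (h4 (encode u) (by omega)) h5) h9, str_encode]

end Pool.Agent.Lib.MP_719972_lc
end

-- part Pool.Agent.Lib.MP_719972_lc.Big
section

/-! Strongly infinite dimensional subsets of the Hilbert cube, pulled back to Cantor space. -/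

namespace Pool.Agent.Lib.MP_719972_lc

open Set Metric

abbrev Ca := ℕ → Bool

noncomputable def hh : Ca → unitInterval :=
  (exists_nat_bool_continuous_surjective_of_compact unitInterval).choose

theorem hh_spec : Continuous hh ∧ Function.Surjective hh :=
  (exists_nat_bool_continuous_surjective_of_compact unitInterval).choose_spec

noncomputable def pt (a : Ca) (n : ℕ) : ℝ := hh fun i => a (n.pair i)

theorem cont_pt : Continuous pt := continuous_pi fun _ =>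
  continuous_subtype_val.comp (hh_spec.1.comp (continuous_pi fun _ => continuous_apply _))

def Adm (g : ℕ → (ℕ → ℝ) → ℝ) : Prop :=
  ∀ n, Continuous (g n) ∧ (∀ x, x n = 0 → g n x < 0) ∧ ∀ x, x n = 1 → 0 < g n x

def Big (K : Set Ca) : Prop :=
  ∃ S : Set ℕ, S.Infinite ∧ ∀ g, Adm g → ∃ a ∈ K, ∀ n ∈ S, g n (pt a) = 0

theorem Big.mono {K L : Set Ca} (h : Big K) (h' : K ⊆ L) : Big L :=
  let ⟨S, h1, h2⟩ := h; ⟨S, h1, fun g hg => let ⟨a, h3, h4⟩ := h2 g hg; ⟨a, h' h3, h4⟩⟩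

theorem adm_lin (z : R) : Adm fun n x => (2 * z n + 3) * x n - 2 := fun n =>
  ⟨by fun_prop, fun x h => by simp [h], fun x h => by
    have : (0 : ℝ) ≤ z n := Nat.cast_nonneg _
    simp only [h]; linarith⟩

theorem Big.nonempty {K : Set Ca} (h : Big K) : K.Nonempty :=
  let ⟨_, _, h2⟩ := h; let ⟨a, h3, _⟩ := h2 _ (adm_lin 0); ⟨a, h3⟩

theorem Big.calib {K : Set Ca} (h : Big K) (L : ℕ → Set Ca) (hL : ∀ j, ¬ Big (L j)) :
    ∃ C, IsClosed C ∧ Big (K ∩ C) ∧ ∀ j, ∀ a ∈ C, a ∉ L j := by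
  obtain ⟨S, h1, h2⟩ := h
  let φ : ℕ → ℕ := fun i => h1.natEmbedding S i
  have h3 : Function.Injective φ := Subtype.val_injective.comp (h1.natEmbedding S).injective
  let idx : ℕ → ℕ := fun n => (Function.invFun φ n).unpair.1
  have h4 : ∀ j, {n ∈ S | idx n = j}.Infinite := fun j => infinite_of_injective_forall_mem
    (f := fun i => φ (j.pair i)) (fun a b h => (Nat.pair_eq_pair.1 (h3 h)).2) fun i =>
      ⟨(h1.natEmbedding S _).2, by simp [idx, Function.leftInverse_invFun h3 _]⟩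
  have h5 : ∀ j, ∃ g, Adm g ∧ ∀ a ∈ L j, ¬ ∀ n ∈ {n ∈ S | idx n = j + 1}, g n (pt a) = 0 := fun j => by
    by_contra! hc
    exact hL j ⟨_, h4 (j + 1), hc⟩
  choose g h6 h7 using h5
  refine ⟨{a | ∀ j, ∀ n ∈ {n ∈ S | idx n = j + 1}, g j n (pt a) = 0}, ?_, ⟨_, h4 0, fun g' hg => ?_⟩,
    fun j a h8 h9 => h7 j a h9 (h8 j)⟩
  · simp only [ofPred_forall]
    exact isClosed_iInter fun j => isClosed_iInter fun n => isClosed_iInter fun _ =>
      isClosed_eq ((h6 j n).1.comp cont_pt) continuous_const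
  · obtain ⟨a, h8, h9⟩ := h2 (fun n => Nat.casesOn (idx n) (g' n) fun j => g j n) fun n => by
      beta_reduce
      cases idx n
      exacts [hg n, h6 _ n]
    exact ⟨a, ⟨h8, fun j n hn => by simpa only [hn.2] using h9 n hn.1⟩,
      fun n hn => by have := h9 n hn.1; rwa [hn.2] at this⟩

theorem miranda {g} (hg : Adm g) (s : Finset ℕ) (x0 : ℕ → ℝ) : ∃ x : ℕ → ℝ,
    (∀ n ∈ s, x n ∈ Icc (0 : ℝ) 1 ∧ g n x = 0) ∧ ∀ n ∉ s, x n = x0 n := by
  let cl : ℝ → ℝ := fun t => max 0 (min 1 t)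
  have h1 : ∀ t, cl t ∈ Icc (0 : ℝ) 1 := fun t =>
    ⟨le_max_left _ _, max_le zero_le_one (min_le_left _ _)⟩
  have h2 : Continuous cl := by fun_prop
  let p : EuclideanSpace ℝ s → ℕ → ℝ := fun v n => if h : n ∈ s then v ⟨n, h⟩ else x0 n
  have h3 : Continuous p := continuous_pi fun n => by
    by_cases h : n ∈ s
    · simp only [p, dif_pos h]; fun_prop
    · simp only [p, dif_neg h]; fun_prop
  let F : EuclideanSpace ℝ s → EuclideanSpace ℝ s := fun v =>
    WithLp.toLp 2 fun i => cl (v i - g i (p v))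
  have h4 : Continuous F := (PiLp.continuous_toLp 2 _).comp (continuous_pi fun i =>
    h2.comp (Continuous.sub (by fun_prop) ((hg i).1.comp h3)))
  obtain ⟨r, h5, h6⟩ := ((isCompact_univ_pi fun _ : s => isCompact_Icc (a := (0 : ℝ)) (b := 1)).image
    (PiLp.continuous_toLp 2 _)).isBounded.subset_closedBall_lt 0 0
  obtain ⟨v, -, h7⟩ := Pool.Agent.Shared.Brouwer.brouwer h5 F h4.continuousOn
    fun v _ => h6 ⟨_, fun i _ => h1 _, rfl⟩
  refine ⟨p v, fun n hn => ?_, fun n hn => dif_neg hn⟩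
  have h8 : cl (v ⟨n, hn⟩ - g n (p v)) = v ⟨n, hn⟩ := congrArg (fun w => w ⟨n, hn⟩) h7
  have h9 : p v n = v ⟨n, hn⟩ := dif_pos hn
  refine ⟨h9 ▸ h8 ▸ h1 _, ?_⟩
  have h10 := (hg n).2.1 (p v)
  have h11 := (hg n).2.2 (p v)
  rw [h9] at h10 h11
  simp only [cl, max_def, min_def] at h8
  split_ifs at h8 with h12 h13 h13
  · linarith [h11 h8.symm]
  · linarith
  · linarith
  · linarith [h10 h8.symm]

theorem big_cyl (a0 : Ca) (l : ℕ) : Big {a | ∀ i < l, a i = a0 i} := by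
  classical
  refine ⟨Ici l, Ici_infinite l, fun g hg => ?_⟩
  have h1 : ∀ N, IsClosed {a : Ca | (∀ i < l, a i = a0 i) ∧ ∀ n ∈ Ico l N, g n (pt a) = 0} :=
    fun N => by
      simp only [ofPred_and, ofPred_forall]
      exact (isClosed_iInter fun i => isClosed_iInter fun _ =>
        isClosed_eq (continuous_apply i) continuous_const).inter (isClosed_iInter fun n =>
          isClosed_iInter fun _ => isClosed_eq ((hg n).1.comp cont_pt) continuous_const)
  obtain ⟨a, ha⟩ := IsCompact.nonempty_iInter_of_sequence_nonempty_isCompact_isClosed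
    (fun N => {a : Ca | (∀ i < l, a i = a0 i) ∧ ∀ n ∈ Ico l N, g n (pt a) = 0})
    (fun N a ha => ⟨ha.1, fun n hn => ha.2 n ⟨hn.1, hn.2.trans N.lt_succ_self⟩⟩) (fun N => by
      obtain ⟨x, h2, h3⟩ := miranda hg (Finset.Ico l N) (pt a0)
      choose b hb using fun n (h : n ∈ Finset.Ico l N) => hh_spec.2 ⟨x n, (h2 n h).1⟩
      have h4 : pt (fun m => if h : m.unpair.1 ∈ Finset.Ico l N then b _ h m.unpair.2 else a0 m) =
          x := funext fun n => by
        by_cases h : n ∈ Finset.Ico l N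
        · simp only [pt, Nat.unpair_pair, dif_pos h]
          exact congrArg Subtype.val (hb n h)
        · simp only [pt, Nat.unpair_pair, dif_neg h, h3 n h]
      refine ⟨_, fun i hi => dif_neg fun h => ?_, fun n hn => h4.symm ▸ (h2 n (by simpa using hn)).2⟩
      exact absurd ((Finset.mem_Ico.1 h).1.trans (Nat.unpair_left_le i)) (not_le.2 hi))
    (h1 0).isCompact h1
  exact ⟨a, (mem_iInter.1 ha 0).1, fun n hn => (mem_iInter.1 ha (n + 1)).2 n ⟨hn, n.lt_succ_self⟩⟩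

def Wi (n k : ℕ) : Set Ca := {a | 1 < (k + 2) * pt a n ∧ (k + 1) * pt a n < 1}

theorem wi_open (n k : ℕ) : IsOpen (Wi n k) :=
  have := (continuous_apply n).comp cont_pt
  (isOpen_lt continuous_const (continuous_const.mul this)).inter
    (isOpen_lt (continuous_const.mul this) continuous_const)

theorem wi_func {n k k' : ℕ} {a : Ca} (h : a ∈ Wi n k) (h' : a ∈ Wi n k') : k = k' := by
  have key : ∀ {k k'}, a ∈ Wi n k → a ∈ Wi n k' → k' ≤ k := fun {k k'} h h' => by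
    by_contra hc
    have h1 : (k : ℝ) + 1 ≤ k' := by exact_mod_cast not_le.1 hc
    have h2 : 0 ≤ pt a n := (hh _).2.1
    nlinarith [h.1, h'.2]
  exact le_antisymm (key h' h) (key h h')

theorem Big.wi {K : Set Ca} (h : Big K) (z : R) (m : ℕ) : ∃ a ∈ K, ∃ n ≥ m, a ∈ Wi n (z n) := by
  obtain ⟨S, h1, h2⟩ := h
  obtain ⟨a, h3, h4⟩ := h2 _ (adm_lin z)
  obtain ⟨n, h5, h6⟩ := h1.exists_gt m
  have h7 := h4 n h5
  have h8 : pt a n ≠ 0 := fun h => by simp [h] at h7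
  have h9 : 0 < pt a n := lt_of_le_of_ne (hh _).2.1 h8.symm
  exact ⟨a, h3, n, h6.le, by linarith, by linarith⟩

theorem open_cyl {U : Set Ca} (h : IsOpen U) {a : Ca} (ha : a ∈ U) :
    ∃ l, ∀ b : Ca, (∀ i < l, b i = a i) → b ∈ U := by
  obtain ⟨I, u, h1, h2⟩ := isOpen_pi_iff.1 h a ha
  obtain ⟨l, hl⟩ := I.finite_toSet.bddAbove
  exact ⟨l + 1, fun b hb => h2 fun i hi => hb i (Nat.lt_succ_of_le (hl hi)) ▸ (h1 i hi).2⟩

end Pool.Agent.Lib.MP_719972_lc
end

-- part Pool.Agent.Lib.MP_719972_lc.Zf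
section

/-! A tree forcing adding an infinitely often equal real; its fusion scheme. -/

namespace Pool.Agent.Lib.MP_719972_lc

open Pool.Agent.Shared.Forcing Set Encodable

universe u

def Pm (u : List ℕ) (a : Ca) (l : ℕ) : Prop := l ≤ u.length ∧ ∀ i < l, (u.getD i 0).bodd = a i

theorem pm_iff {u v : List ℕ} {a : Ca} {l : ℕ} (h : u <+: v) (h1 : l ≤ u.length) :
    Pm u a l ↔ Pm v a l := by
  obtain ⟨w, rfl⟩ := h
  refine and_congr (iff_of_true h1 (by simp; omega)) (forall₂_congr fun i hi => ?_)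
  rw [List.getD_append _ _ _ _ (hi.trans_le h1)]

theorem Pm.mono {u v : List ℕ} {a : Ca} {l : ℕ} (h : Pm u a l) (h1 : u <+: v) : Pm v a l :=
  (pm_iff h1 h.1).1 h

theorem Pm.congr {u : List ℕ} {a b : Ca} {l l' : ℕ} (h : Pm u a l) (h1 : l' ≤ l)
    (h2 : ∀ i < l', b i = a i) : Pm u b l' :=
  ⟨h1.trans h.1, fun i hi => (h.2 i (hi.trans_le h1)).trans (h2 i hi).symm⟩

def acc (T : Set (List ℕ)) (t : List ℕ) : Set Ca :=
  {a | ∀ l M, ∃ c ≥ M, ∃ u ∈ T, t ++ [c] <+: u ∧ Pm u a l}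

structure Z where
  s : Set (List ℕ)
  nil : [] ∈ s
  pre : ∀ {u v}, u <+: v → v ∈ s → u ∈ s
  big : ∀ t ∈ s, ∃ t' ∈ s, t <+: t' ∧ Big (acc s t')

instance : Preorder Z where
  le a b := a.s ⊆ b.s
  le_refl _ := Subset.rfl
  le_trans _ _ _ := Subset.trans

instance : Nonempty Z := ⟨⟨univ, trivial, fun _ _ => trivial, fun t _ => ⟨t, trivial,
  List.prefix_rfl, (big_cyl (fun i => (t.getD i 0).bodd) t.length).mono fun a ha l M => by
    refine ⟨2 * M + bit (a t.length), by omega, t ++ List.ofFn fun j : Fin (l + 1) =>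
      2 * M + bit (a (t.length + j)), trivial, by simp [List.ofFn_succ], by simp; omega,
      fun i hi => ?_⟩
    rcases lt_or_ge i t.length with h | h
    · rw [List.getD_append _ _ _ _ h, ha i h]
    · rw [List.getD_append_right _ _ _ _ h, List.getD_eq_getElem _ _ (by simp; omega),
        List.getElem_ofFn]
      simp [h]⟩⟩⟩

theorem Z.long (T : Z) {t} (h : t ∈ T.s) (l : ℕ) : ∃ u ∈ T.s, t <+: u ∧ l ≤ u.length := by
  obtain ⟨t', -, h1, h2⟩ := T.big t h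
  obtain ⟨a, ha⟩ := h2.nonempty
  obtain ⟨c, -, u, h3, h4, h5⟩ := ha l 0
  exact ⟨u, h3, h1.trans ((List.prefix_append _ _).trans h4), h5.1⟩

def Z.res (T : Z) (u : List ℕ) (h : u ∈ T.s) : Z where
  s := {v ∈ T.s | v <+: u ∨ u <+: v}
  nil := ⟨T.nil, Or.inl List.nil_prefix⟩
  pre h1 h2 := ⟨T.pre h1 h2.1, h2.2.elim (fun h3 => Or.inl (h1.trans h3))
    fun h3 => List.prefix_or_prefix_of_prefix h1 h3⟩
  big t ht := by
    obtain ⟨w, h1, h2, h3⟩ : ∃ w ∈ T.s, t <+: w ∧ u <+: w := ht.2.elim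
      (fun h1 => ⟨u, h, h1, List.prefix_rfl⟩) fun h1 => ⟨t, ht.1, List.prefix_rfl, h1⟩
    obtain ⟨t', h4, h5, h6⟩ := T.big w h1
    refine ⟨t', ⟨h4, Or.inr (h3.trans h5)⟩, h2.trans h5, h6.mono fun a ha l M => ?_⟩
    obtain ⟨c, h7, v, h8, h9, h10⟩ := ha l M
    exact ⟨c, h7, v, ⟨h8, Or.inr ((h3.trans h5).trans ((List.prefix_append _ _).trans h9))⟩, h9, h10⟩

theorem Z.res_le (T : Z) (u h) : T.res u h ≤ T := fun _ h => h.1

theorem Z.mem_of_le {T T' : Z} {u h} (h1 : T' ≤ T.res u h) : u ∈ T'.s := by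
  obtain ⟨v, h2, -, h3⟩ := T'.long T'.nil u.length
  rcases (h1 h2).2 with h4 | h4
  · exact h4.eq_of_length_le h3 ▸ h2
  · exact T'.pre h4 h2

/-! ### The infinitely often equal real -/

def Sz (T : Z) (n k : ℕ) : Prop := ∃ (a : Ca) (l : ℕ), (∀ b : Ca, (∀ i < l, b i = a i) → b ∈ Wi n k) ∧
  ∀ u ∈ T.s, l ≤ u.length → Pm u a l

def zG : GenR Z where
  g T n k := Sz T n k ∨ k = 0 ∧ ∀ T' ≤ T, ∀ k', ¬ Sz T' n k'
  mono h := Or.imp (fun ⟨a, l, h1, h2⟩ => ⟨a, l, h1, fun u hu => h2 u (h hu)⟩)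
    fun h1 => ⟨h1.1, fun T' h2 => h1.2 T' (h2.trans h)⟩
  func := by
    rintro T n k k' (h | h) (h' | h')
    · obtain ⟨a, l, h1, h2⟩ := h
      obtain ⟨a', l', h3, h4⟩ := h'
      obtain ⟨u, h5, -, h6⟩ := T.long T.nil (max l l')
      exact wi_func (h1 _ (h2 u h5 ((le_max_left _ _).trans h6)).2)
        (h3 _ (h4 u h5 ((le_max_right _ _).trans h6)).2)
    · exact (h'.2 T le_rfl k h).elim
    · exact (h.2 T le_rfl k' h').elim
    · exact h.1.trans h'.1.symm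
  dense T n := by
    by_cases h : ∃ T' ≤ T, ∃ k, Sz T' n k
    · exact let ⟨T', h1, k, h2⟩ := h; ⟨T', h1, k, Or.inl h2⟩
    · exact ⟨T, le_rfl, 0, Or.inr ⟨rfl, fun T' h1 k h2 => h ⟨T', h1, k, h2⟩⟩⟩

theorem z_IO : In zG.name fun z v => ¬ Ne v z := fun z => by
  simp only [Ne, not_exists, not_forall]
  refine force_all (fun m => by fun_prop) fun m T => ?_
  obtain ⟨t, -, -, h1⟩ := T.big _ T.nil
  obtain ⟨a, h2, n, h3, h4⟩ := h1.wi z m
  obtain ⟨l, hl⟩ := open_cyl (wi_open _ _) h4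
  obtain ⟨c, -, u, h5, -, h6⟩ := h2 l 0
  exact ⟨T.res u h5, T.res_le _ _, fun v hv => ⟨n, h3, not_not.2 (GenR.eq hv (Or.inl
    ⟨a, l, hl, fun w hw h7 => hw.2.elim (fun h8 => (pm_iff h8 h7).2 h6) h6.mono⟩))⟩⟩

/-! ### Fusion -/

def Ex (a : Ca) (s : List Bool) : Prop := ∀ i, (h : i < s.length) → a i = s[i]

structure Nd where
  T : Z
  t : List ℕ
  K : Set Ca
  c : ℕ
  mem : t ∈ T.s
  big : Big K

def Ch (d : Nd) (s : List Bool) (e : Nd) : Prop :=
  e.T ≤ d.T ∧ d.t ++ [e.c] <+: e.t ∧ ∀ a ∈ d.K, Ex a s → Pm e.t a s.length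

theorem Nd.pick (d : Nd) (s : List Bool) : ∃ a ∈ d.K, ∀ b ∈ d.K, Ex b s → ∀ i < s.length, b i = a i := by
  by_cases h : ∃ a ∈ d.K, Ex a s
  · exact let ⟨a, h1, h2⟩ := h; ⟨a, h1, fun b _ h3 i hi => (h3 i hi).trans (h2 i hi).symm⟩
  · exact let ⟨a, h1⟩ := d.big.nonempty; ⟨a, h1, fun b h2 h3 => (h ⟨b, h2, h3⟩).elim⟩

theorem zfusion (f : ℕ → Nd) (h1 : ∀ i, Ch (f i.unpair.1) (str i.unpair.2.unpair.1) (f (i + 1)))
    (h2 : StrictMono fun i => (f i).c) :
    ∃ q ≤ (f 0).T, ∀ q' ≤ q, ∀ m, ∃ i ≥ m, ∃ w ≤ q', w ≤ (f i).T := by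
  have h3 : ∀ i, (f i.unpair.1).t <+: (f (i + 1)).t := fun i =>
    (List.prefix_append _ _).trans (h1 i).2.1
  have h4 : ∀ i, (f i.unpair.1).t.length < (f (i + 1)).t.length := fun i => by
    simpa using (h1 i).2.1.length_le
  have hA : ∀ i, (f i).T ≤ (f 0).T ∧ (f 0).t <+: (f i).t := fun i => by
    induction i using Nat.strong_induction_on with
    | _ i ih =>
      cases i with
      | zero => exact ⟨le_rfl, List.prefix_rfl⟩
      | succ i =>
        have := ih _ (Nat.lt_succ_of_le i.unpair_left_le)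
        exact ⟨(h1 i).1.trans this.1, this.2.trans (h3 i)⟩
  have hB : ∀ n i j, (f i).t.length = n → (f j.unpair.1).t ++ [(f (j + 1)).c] <+: (f i).t →
      (f i).T ≤ (f (j + 1)).T ∧ (f (j + 1)).t <+: (f i).t := fun n => by
    induction n using Nat.strong_induction_on with
    | _ n ih =>
      rintro i j rfl h
      have h5 : (f j.unpair.1).t.length < (f i).t.length := by simpa using h.length_le
      cases i with
      | zero => exact absurd (hA _).2.length_le (not_le.2 h5)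
      | succ i =>
        rcases lt_trichotomy (f j.unpair.1).t.length (f i.unpair.1).t.length with h6 | h6 | h6
        · have := ih _ (h4 i) _ j rfl (List.prefix_of_prefix_length_le h (h3 i) (by simpa using h6))
          exact ⟨(h1 i).1.trans this.1, this.2.trans (h3 i)⟩
        · have h7 := (List.prefix_of_prefix_length_le h (h1 i).2.1 (by simp [h6])).eq_of_length
            (by simp [h6])
          rw [h2.injective (List.singleton_inj.1 (List.append_inj h7 h6).2)]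
          exact ⟨le_rfl, List.prefix_rfl⟩
        · exact absurd (ih _ h5 _ i rfl (List.prefix_of_prefix_length_le (h1 i).2.1
            ((List.prefix_append _ _).trans h) (by simpa using h6))).2.length_le (not_le.2 h5)
  refine ⟨⟨{u | ∃ i, u <+: (f i).t}, ⟨0, List.nil_prefix⟩, fun h ⟨i, hi⟩ => ⟨i, h.trans hi⟩, ?_⟩,
    fun u ⟨i, hi⟩ => (hA i).1 ((f i).T.pre hi (f i).mem), fun q' hq m => ?_⟩
  · rintro t ⟨i, hi⟩
    refine ⟨_, ⟨i, List.prefix_rfl⟩, hi, (f i).big.mono fun a ha l M => ?_⟩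
    have h5 := h1 (i.pair ((encode (List.ofFn fun j : Fin l => a j)).pair M))
    simp only [Nat.unpair_pair, str_encode] at h5
    exact ⟨_, ((Nat.right_le_pair _ _).trans (Nat.right_le_pair _ _)).trans
      ((Nat.le_succ _).trans h2.le_apply), _, ⟨_, List.prefix_rfl⟩, h5.2.1, by
        simpa using h5.2.2 a ha fun i hi => by simp⟩
  · classical
    obtain ⟨L, hL⟩ := ((finite_Iic m).image fun i => (f i).t.length).bddAbove
    obtain ⟨u, h5, -, h6⟩ := q'.long q'.nil (L + 1)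
    have h7 := Nat.find_spec (hq h5)
    have h8 : m < Nat.find (hq h5) := not_le.1 fun h =>
      absurd ((h6.trans h7.length_le).trans (hL ⟨_, h, rfl⟩)) (by omega)
    obtain ⟨i, hi⟩ := Nat.exists_eq_succ_of_ne_zero (Nat.ne_zero_of_lt h8)
    have h9 := Nat.find_min (hq h5) (hi ▸ Nat.lt_succ_of_le i.unpair_left_le)
    rw [hi] at h7 h8
    have h10 := List.prefix_of_prefix_length_le (h1 i).2.1 h7 (by
      simpa using not_le.1 fun h => h9 (List.prefix_of_prefix_length_le h7 (h3 i) h))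
    refine ⟨i + 1, h8.le, q'.res u h5, q'.res_le _ _, fun v hv => hv.2.elim
      (fun h => (f (i + 1)).T.pre (h.trans h7) (f (i + 1)).mem) fun h => ?_⟩
    obtain ⟨j, hj⟩ := hq hv.1
    exact (hB _ j i rfl (h10.trans (h.trans hj))).1 ((f j).T.pre hj (f j).mem)

/-! ### Properness of the core product -/

structure St where
  d : Nd
  e : EE × ℕ
  B : Sy
  F : Set ((Z × EE) × Sy)
  sub : d.K ⊆ acc d.T.s d.t
  cnt : F.Countable
  cov : ∀ g ≤ e.1, ∃ f, ((d.T, f), B) ∈ F ∧ Cp g f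

theorem St.next {D : Set ((Z × EE) × Sy)} (hD : DO D) (T : Z) {u} (hu : u ∈ T.s) (c : ℕ)
    (e : EE × ℕ) (B : Sy) : ∃ x : St, x.d.T ≤ T ∧ u <+: x.d.t ∧ x.d.c = c ∧ EE.Nx e x.e ∧ x.B ≤ B ∧
      x.F ⊆ D := by
  obtain ⟨⟨T', B'⟩, h1, b, h2, F, h3, h4, h5⟩ := EE.step (X := Z × Sy)
    (D := {p | ((p.1.1, p.2), p.1.2) ∈ D}) ⟨fun h h' => hD.mono h'
      ⟨⟨(Prod.le_def.1 h.1).1, h.2⟩, (Prod.le_def.1 h.1).2⟩,
      fun p => let ⟨q, h1, h2⟩ := hD.dense ((p.1.1, p.2), p.1.2)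
        ⟨((q.1.1, q.2), q.1.2), ⟨Prod.le_def.2 ⟨h1.1.1, h1.2⟩, h1.1.2⟩, h2⟩⟩ (T.res u hu, B) e
  obtain ⟨t, h6, h7, h8⟩ := T'.big u (Z.mem_of_le (h := hu) h1.1)
  exact ⟨⟨⟨T', t, _, c, h6, h8⟩, b, B', (fun f => ((T', f), B')) '' F, Subset.rfl,
    h3.countable.image _, fun g hg => let ⟨f, h9, h10⟩ := h5 g hg; ⟨f, ⟨f, h9, rfl⟩, h10⟩⟩,
    h1.1.trans (T.res_le u hu), h7, rfl, h2, h1.2, by rintro _ ⟨f, h9, rfl⟩; exact h4 f h9⟩

theorem good_core : Good.{u} ((Z × EE) × Sy) := good_of_scheme fun p => by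
  refine ⟨St, St.F, fun n g x => (n = 0 → x.d.T ≤ p.1.1 ∧ EE.Nx (p.1.2, 0) x.e ∧ x.B ≤ p.2) ∧
    ∀ m (h : m + 1 = n), Ch (g ⟨m.unpair.1, h ▸ Nat.lt_succ_of_le m.unpair_left_le⟩).d
      (str m.unpair.2.unpair.1) x.d ∧ (g ⟨m, h.le⟩).d.c < x.d.c ∧ EE.Nx (g ⟨m, h.le⟩).e x.e ∧
        x.B ≤ (g ⟨m, h.le⟩).B, St.cnt, fun n g D hD => ?_, fun f hf => ?_⟩
  · cases n with
    | zero =>
      obtain ⟨x, h1, -, -, h2, h3, h4⟩ := St.next hD p.1.1 p.1.1.nil 0 (p.1.2, 0) p.2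
      exact ⟨x, ⟨fun _ => ⟨h1, h2, h3⟩, fun m h => by omega⟩, h4⟩
    | succ m =>
      let d := g ⟨m.unpair.1, Nat.lt_succ_of_le m.unpair_left_le⟩
      obtain ⟨a, h1, h2⟩ := d.d.pick (str m.unpair.2.unpair.1)
      obtain ⟨c, h3, u, h4, h5, h6⟩ := d.sub h1 _ ((g ⟨m, m.lt_succ_self⟩).d.c + 1)
      obtain ⟨x, h7, h8, rfl, h9, h10, h11⟩ :=
        St.next hD d.d.T h4 c (g ⟨m, m.lt_succ_self⟩).e (g ⟨m, m.lt_succ_self⟩).B
      refine ⟨x, ⟨fun h => by omega, fun m' h => ?_⟩, h11⟩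
      obtain rfl : m' = m := by omega
      exact ⟨⟨h7, h5.trans h8, fun b hb h12 => (h6.mono h8).congr le_rfl (h2 b hb h12)⟩, h3, h9, h10⟩
  · have h1 := fun m => (hf (m + 1)).2 m rfl
    obtain ⟨h2, h3, h4⟩ := (hf 0).1 rfl
    obtain ⟨T, h5, h6⟩ := zfusion (fun i => (f i).d) (fun i => (h1 i).1)
      (strictMono_nat_of_lt_succ fun i => (h1 i).2.1)
    obtain ⟨e, h7⟩ := EE.fus (fun i => (f i).e) fun i => (h1 i).2.2.1
    obtain ⟨B, h8⟩ := Sy.closed (fun i => (f i).B) (antitone_nat_of_succ_le fun i => (h1 i).2.2.2)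
    refine ⟨((T, e), B), ⟨⟨h5.trans h2, (h7 0).trans h3.1.1⟩, (h8 0).trans h4⟩, fun q hq m => ?_⟩
    obtain ⟨i, h9, w, h10, h11⟩ := h6 _ hq.1.1 m
    obtain ⟨g, h12, v, h13, h14⟩ := (f i).cov _ (hq.1.2.trans (h7 i))
    exact ⟨i, h9, _, h12, ((w, v), q.2), ⟨⟨h10, h13⟩, le_rfl⟩, ⟨h11, h14⟩, hq.2.trans (h8 i)⟩

end Pool.Agent.Lib.MP_719972_lc
end
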